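import Pool.Agent.Lib.MP_aa62e0_lc.Phase

set_option autoImplicit false

open Finset
open scoped symmDiff

namespace Pool.Agent.MPaa62e0

variable {X : Type} [Fintype X] [DecidableEq X]

theorem Chain_card_append {k m : ℕ} (P : (Fin (k + m) → X) → Prop) [DecidablePred P] :
    (Finset.univ.filter P).card =
      ∑ y1 : Fin m → X, (Finset.univ.filter fun y2 : Fin k → X => P (Fin.append y2 y1)).card := by
  have h : ∀ y1 : Fin m → X,
      (Finset.univ.filter fun y2 : Fin k → X => P (Fin.append y2 y1)).card =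
      ∑ y2 : Fin k → X, if P (Fin.append y2 y1) then 1 else 0 := fun y1 => by
    rw [Finset.card_filter]
  rw [Finset.card_filter, Finset.sum_congr rfl fun y1 _ => h y1, Finset.sum_comm]
  rw [← Fintype.sum_prod_type' (f := fun (y2 : Fin k → X) (y1 : Fin m → X) =>
    if P (Fin.append y2 y1) then 1 else 0)]
  exact (Fintype.sum_equiv (Fin.appendEquiv k m) _ _ fun y => rfl).symm

/-- P phases. -/
theorem chain {ι : Type} [Fintype ι]
    (d b x e : ℕ) (hd : 1 ≤ d) (hb : 7 ≤ b) (hx : 2 * x + 4 ≤ b) (he : 1 ≤ e)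
    (A : ι → Finset X) (hA1 : ∀ i, e ≤ (A i).card) (hA2 : ∀ i, (A i).card ≤ e * 2 ^ x) (P : ℕ) :
    ∀ (N : Finset (Finset X)), N.vcDim ≤ d → N.card ≤ 2 ^ (2 * d * b * 2 ^ P) →
    ∀ (c : ι → Finset X) (q : ι → ℝ), (∀ i, 0 ≤ q i) → (∀ i, q i ≠ 0 → c i ∈ N) →
    ∃ D : (Fin (4 * d * P) → X) → Finset (Finset X), (∀ y, (D y).card ≤ 2 ^ (2 * d * b)) ∧
      ((e : ℝ) / 4) ^ (4 * d * P) * (1 / 2) ^ P * ∑ i, q i ≤
        ∑ i, q i * ((Finset.univ.filter (fun y : Fin (4 * d * P) → X =>
          (∀ s, y s ∈ A i) ∧ ∃ h ∈ D y, ((A i) ∩ (h ∆ c i)).card ≤ e * P)).card : ℝ) := by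
  classical
  induction P with
  | zero =>
    intro N hN hcard c q hq hqN
    refine ⟨fun _ => N, fun _ => by simpa using hcard, ?_⟩
    rw [Nat.mul_zero, pow_zero, pow_zero, one_mul, one_mul]
    refine Finset.sum_le_sum fun i _ => ?_
    by_cases hi : q i = 0
    · rw [hi, zero_mul]
    · have h2 : (1 : ℝ) ≤ ((Finset.univ.filter (fun y : Fin (4 * d * 0) → X =>
        (∀ s, y s ∈ A i) ∧ ∃ h ∈ N, ((A i) ∩ (h ∆ c i)).card ≤ e * 0)).card : ℝ) := by
        have : 0 < (Finset.univ.filter (fun y : Fin (4 * d * 0) → X =>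
            (∀ s, y s ∈ A i) ∧ ∃ h ∈ N, ((A i) ∩ (h ∆ c i)).card ≤ e * 0)).card := by
          rw [Finset.card_pos]
          refine ⟨fun s => absurd s.2 (Nat.not_lt_zero _), ?_⟩
          rw [Finset.mem_filter]
          refine ⟨Finset.mem_univ _, fun s => absurd s.2 (Nat.not_lt_zero _), c i, hqN i hi, ?_⟩
          rw [symmDiff_self]
          simp
        exact_mod_cast this
      calc q i = q i * 1 := (mul_one _).symm
        _ ≤ _ := mul_le_mul_of_nonneg_left h2 (hq i)
  | succ P ih =>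
    intro N hN hcard c q hq hqN
    set b' : ℕ := b * 2 ^ P with hb'
    have hP1 : 1 ≤ 2 ^ P := Nat.one_le_two_pow
    have hbb' : b ≤ b' := Nat.le_mul_of_pos_right b (by omega)
    have hcard' : N.card ≤ 2 ^ (2 * d * b' + 4 * d * (b' - x - 2)) := by
      refine hcard.trans (Nat.pow_le_pow_right (by norm_num) ?_)
      have e1 : 2 * d * b * 2 ^ (P + 1) = 2 * d * b' + 2 * d * b' := by
        rw [hb', pow_succ]
        ring
      rw [e1]
      have e2 : b' ≤ 2 * (b' - x - 2) := by omega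
      have e3 : 2 * d * b' ≤ 2 * d * (2 * (b' - x - 2)) := Nat.mul_le_mul_left _ e2
      have e4 : 2 * d * (2 * (b' - x - 2)) = 4 * d * (b' - x - 2) := by ring
      omega
    obtain ⟨D1, hD1N, hD1c, hD1⟩ := phase d b' x e hd (hb.trans hbb') (by omega) he A c hA1 hA2
      (4 * d) N hN hcard' q hq hqN
    -- the second part
    let G : ι → (Fin (4 * d) → X) → Prop := fun i y1 =>
      (∀ s, y1 s ∈ A i) ∧ ∃ h ∈ D1 y1, ((A i) ∩ (h ∆ c i)).card ≤ e
    have hc1 : ∀ (y1 : Fin (4 * d) → X) (i : ι), ∃ h : Finset X,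
        G i y1 → h ∈ D1 y1 ∧ ((A i) ∩ (h ∆ c i)).card ≤ e := by
      intro y1 i
      by_cases hG : G i y1
      · obtain ⟨h, h1, h2⟩ := hG.2
        exact ⟨h, fun _ => ⟨h1, h2⟩⟩
      · exact ⟨∅, fun h => absurd h hG⟩
    choose c' hc' using hc1
    have hIH := fun y1 : Fin (4 * d) → X => ih (D1 y1) ((Finset.vcDim_mono (hD1N y1)).trans hN)
      (by
        have := hD1c y1
        have e1 : 2 * d * b' = 2 * d * b * 2 ^ P := by rw [hb']; ring
        rwa [e1] at this)
      (c' y1) (fun i => if G i y1 then q i else 0)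
      (fun i => by
        split_ifs
        · exact hq i
        · exact le_rfl)
      (fun i hi => by
        by_contra hcon
        apply hi
        rw [if_neg]
        intro hG
        exact hcon (hc' y1 i hG).1)
    choose D2 hD2c hD2 using hIH
    let y2f : (Fin (4 * d * P + 4 * d) → X) → (Fin (4 * d * P) → X) :=
      fun y s => y (Fin.castAdd (4 * d) s)
    let y1f : (Fin (4 * d * P + 4 * d) → X) → (Fin (4 * d) → X) :=
      fun y s => y (Fin.natAdd (4 * d * P) s)
    have hy2 : ∀ y2 y1, y2f (Fin.append y2 y1) = y2 := fun y2 y1 => by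
      funext s
      exact Fin.append_left _ _ _
    have hy1 : ∀ y2 y1, y1f (Fin.append y2 y1) = y1 := fun y2 y1 => by
      funext s
      exact Fin.append_right _ _ _
    refine ⟨fun y => D2 (y1f y) (y2f y), fun y => hD2c _ _, ?_⟩
    have e1 : ∀ i, ((Finset.univ.filter (fun y : Fin (4 * d * P + 4 * d) → X =>
        (∀ s, y s ∈ A i) ∧ ∃ h ∈ D2 (y1f y) (y2f y),
          ((A i) ∩ (h ∆ c i)).card ≤ e * (P + 1))).card : ℝ) =
        ∑ y1 : Fin (4 * d) → X, ((Finset.univ.filter (fun y2 : Fin (4 * d * P) → X =>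
          ((∀ s, y1 s ∈ A i) ∧ ∀ s, y2 s ∈ A i) ∧ ∃ h ∈ D2 y1 y2,
            ((A i) ∩ (h ∆ c i)).card ≤ e * (P + 1))).card : ℝ) := by
      intro i
      rw [Chain_card_append, Nat.cast_sum]
      refine Finset.sum_congr rfl fun y1 _ => ?_
      congr 2
      ext y2
      simp only [Finset.mem_filter, Finset.mem_univ, true_and]
      rw [hy1, hy2]
      refine and_congr ?_ Iff.rfl
      constructor
      · intro h
        refine ⟨fun s => ?_, fun s => ?_⟩
        · have := h (Fin.natAdd (4 * d * P) s)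
          rwa [Fin.append_right] at this
        · have := h (Fin.castAdd (4 * d) s)
          rwa [Fin.append_left] at this
      · rintro ⟨h1, h2⟩ s
        refine Fin.addCases (fun s => ?_) (fun s => ?_) s
        · rw [Fin.append_left]
          exact h2 s
        · rw [Fin.append_right]
          exact h1 s
    have e2 : ∑ y1 : Fin (4 * d) → X, ∑ i, (if G i y1 then q i else 0) *
        ((Finset.univ.filter (fun y2 : Fin (4 * d * P) → X =>
          (∀ s, y2 s ∈ A i) ∧ ∃ h ∈ D2 y1 y2,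
            ((A i) ∩ (h ∆ c' y1 i)).card ≤ e * P)).card : ℝ) ≤
        ∑ i, q i * ((Finset.univ.filter (fun y : Fin (4 * d * P + 4 * d) → X =>
          (∀ s, y s ∈ A i) ∧ ∃ h ∈ D2 (y1f y) (y2f y),
            ((A i) ∩ (h ∆ c i)).card ≤ e * (P + 1))).card : ℝ) := by
      rw [Finset.sum_comm]
      refine Finset.sum_le_sum fun i _ => ?_
      rw [e1 i, Finset.mul_sum]
      refine Finset.sum_le_sum fun y1 _ => ?_
      split_ifs with h
      · refine mul_le_mul_of_nonneg_left ?_ (hq i)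
        have : (Finset.univ.filter (fun y2 : Fin (4 * d * P) → X =>
            (∀ s, y2 s ∈ A i) ∧ ∃ h ∈ D2 y1 y2,
              ((A i) ∩ (h ∆ c' y1 i)).card ≤ e * P)).card ≤
            (Finset.univ.filter (fun y2 : Fin (4 * d * P) → X =>
            ((∀ s, y1 s ∈ A i) ∧ ∀ s, y2 s ∈ A i) ∧ ∃ h ∈ D2 y1 y2,
              ((A i) ∩ (h ∆ c i)).card ≤ e * (P + 1))).card := by
          refine Finset.card_le_card ?_
          intro y2 hy
          rw [Finset.mem_filter] at hy ⊢
          obtain ⟨-, h1, f, hf, hfc⟩ := hy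
          refine ⟨Finset.mem_univ _, ⟨h.1, h1⟩, f, hf, ?_⟩
          have h3 := (hc' y1 i h).2
          have h4 : A i ∩ (f ∆ c i) ⊆ (A i ∩ (f ∆ c' y1 i)) ∪ (A i ∩ (c' y1 i ∆ c i)) := by
            rw [← Finset.inter_union_distrib_left]
            exact Finset.inter_subset_inter_left (symmDiff_triangle _ _ _)
          have h5 := (Finset.card_le_card h4).trans (Finset.card_union_le _ _)
          have h6 : e * (P + 1) = e * P + e := by ring
          omega
        exact_mod_cast this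
      · rw [zero_mul]
        exact mul_nonneg (hq i) (Nat.cast_nonneg _)
    refine le_trans ?_ e2
    refine le_trans ?_ (Finset.sum_le_sum fun y1 _ => hD2 y1)
    rw [← Finset.mul_sum, Finset.sum_comm]
    have e3 : ∀ i, ∑ y1 : Fin (4 * d) → X, (if G i y1 then q i else 0) =
        q i * ((Finset.univ.filter (fun y : Fin (4 * d) → X =>
          (∀ s, y s ∈ A i) ∧ ∃ h ∈ D1 y, ((A i) ∩ (h ∆ c i)).card ≤ e)).card : ℝ) := by
      intro i
      rw [← Finset.sum_filter, Finset.sum_const, nsmul_eq_mul, mul_comm]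
    rw [Finset.sum_congr rfl fun i _ => e3 i]
    have h3 : 0 ≤ ((e : ℝ) / 4) ^ (4 * d * P) * (1 / 2) ^ P := by positivity
    calc ((e : ℝ) / 4) ^ (4 * d * (P + 1)) * (1 / 2) ^ (P + 1) * ∑ i, q i
        = ((e : ℝ) / 4) ^ (4 * d * P) * (1 / 2) ^ P *
            (((e : ℝ) / 4) ^ (4 * d) * (1 / 2) * ∑ i, q i) := by
          rw [Nat.mul_add, Nat.mul_one, pow_add, pow_succ]
          ring
      _ ≤ _ := mul_le_mul_of_nonneg_left hD1 h3

end Pool.Agent.MPaa62e0
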