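import Pool.Agent.Lib.MP_aa62e0_lc.Sauer

set_option autoImplicit false

open Finset
open scoped symmDiff

namespace Pool.Agent.MPaa62e0

variable {X : Type} [Fintype X] [DecidableEq X]

theorem cover_num1 (k : ℕ) (hk : 28 ≤ k) : 4 * (2 : ℝ) ^ k * Real.exp (-(k : ℝ)) < 1 := by
  have h0 : Real.exp (-(k : ℝ)) = (Real.exp (-1)) ^ k := by
    rw [← Real.exp_nat_mul]; congr 1; ring
  have he : Real.exp (-1) * 2 ≤ 3 / 4 := by
    have h1 := Real.exp_one_gt_d9
    rw [Real.exp_neg]
    have h2 : (0 : ℝ) < Real.exp 1 := Real.exp_pos 1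
    rw [inv_mul_le_iff₀ h2]
    linarith
  have hpos : (0 : ℝ) ≤ Real.exp (-1) * 2 := by positivity
  have h3 : (2 : ℝ) ^ k * Real.exp (-(k : ℝ)) ≤ (3 / 4) ^ k := by
    rw [h0, ← mul_pow, mul_comm]
    exact pow_le_pow_left₀ hpos he k
  have h4 : ((3 : ℝ) / 4) ^ k ≤ (3 / 4) ^ 28 :=
    pow_le_pow_of_le_one (by norm_num) (by norm_num) hk
  have h5 : 4 * ((3 : ℝ) / 4) ^ 28 < 1 := by norm_num
  calc 4 * (2 : ℝ) ^ k * Real.exp (-(k : ℝ)) = 4 * ((2 : ℝ) ^ k * Real.exp (-(k : ℝ))) := by ring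
    _ ≤ 4 * (3 / 4) ^ k := by linarith
    _ ≤ 4 * (3 / 4) ^ 28 := by linarith
    _ < 1 := h5

theorem cover_num2 (b : ℕ) (hb : 7 ≤ b) : 12 * b ≤ 2 ^ b := by
  induction b, hb using Nat.le_induction with
  | base => norm_num
  | succ b hb ih => rw [pow_succ]; omega

/-- Random sampling: a family whose members are pairwise far apart is separated by a short
sequence of points. -/
theorem cover_sep (N : Finset (Finset X)) (μ : X → ℝ) (hμ : ∀ x, 0 ≤ μ x) (W δ : ℝ)
    (hW0 : 0 < ∑ x, μ x) (hW : ∑ x, μ x ≤ W) (hδ0 : 0 ≤ δ) (m : ℕ)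
    (hfar : ∀ c ∈ N, ∀ c' ∈ N, c ≠ c' → δ * W ≤ ∑ x ∈ c ∆ c', μ x)
    (hcard : ((N.card : ℝ) ^ 2) * Real.exp (-(δ * m)) < 1) :
    ∃ z : Fin m → X, ∀ c ∈ N, ∀ c' ∈ N, c ≠ c' → ∃ i, ¬ (z i ∈ c ↔ z i ∈ c') := by
  classical
  by_contra hno
  push Not at hno
  set W0 : ℝ := ∑ x, μ x with hW0'
  have hsum : ∑ z : Fin m → X, ∏ i, μ (z i) = W0 ^ m := by
    rw [hW0', Fintype.sum_pow]
  have hpair : ∀ c ∈ N, ∀ c' ∈ N, c ≠ c' →
      ∑ z : Fin m → X, ∏ i, (if z i ∈ c ∆ c' then 0 else μ (z i))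
        ≤ W0 ^ m * Real.exp (-(δ * m)) := by
    intro c hc c' hc' hne
    rw [← Fintype.sum_pow (fun x => if x ∈ c ∆ c' then 0 else μ x)]
    have h1 : ∑ x, (if x ∈ c ∆ c' then 0 else μ x) = W0 - ∑ x ∈ c ∆ c', μ x := by
      rw [hW0', eq_sub_iff_add_eq]
      have : ∑ x ∈ c ∆ c', μ x = ∑ x, (if x ∈ c ∆ c' then μ x else 0) := by
        rw [Finset.sum_ite_mem, Finset.univ_inter]
      rw [this, ← Finset.sum_add_distrib]
      refine Finset.sum_congr rfl ?_
      intro x _
      split_ifs <;> simp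
    have h2 : ∑ x, (if x ∈ c ∆ c' then 0 else μ x) ≤ W0 * Real.exp (-δ) := by
      rw [h1]
      have h3 := hfar c hc c' hc' hne
      have h4 : δ * W0 ≤ δ * W := mul_le_mul_of_nonneg_left hW hδ0
      have h5 : 1 - δ ≤ Real.exp (-δ) := by
        have := Real.add_one_le_exp (-δ)
        linarith
      have h6 : W0 * (1 - δ) ≤ W0 * Real.exp (-δ) := mul_le_mul_of_nonneg_left h5 hW0.le
      nlinarith
    have h0 : 0 ≤ ∑ x, (if x ∈ c ∆ c' then 0 else μ x) := by
      refine Finset.sum_nonneg ?_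
      intro x _
      split_ifs
      · exact le_refl _
      · exact hμ x
    calc (∑ x, (if x ∈ c ∆ c' then 0 else μ x)) ^ m ≤ (W0 * Real.exp (-δ)) ^ m :=
          pow_le_pow_left₀ h0 h2 m
      _ = W0 ^ m * Real.exp (-(δ * m)) := by
          rw [mul_pow, ← Real.exp_nat_mul]
          congr 2
          ring
  have hz : ∀ z : Fin m → X, ∏ i, μ (z i) ≤
      ∑ p ∈ N.offDiag, ∏ i, (if z i ∈ p.1 ∆ p.2 then 0 else μ (z i)) := by
    intro z
    obtain ⟨c, hc, c', hc', hne, h⟩ := hno z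
    have hmem : (c, c') ∈ N.offDiag := Finset.mem_offDiag.2 ⟨hc, hc', hne⟩
    have h1 : ∏ i, (if z i ∈ (c, c').1 ∆ (c, c').2 then 0 else μ (z i)) = ∏ i, μ (z i) := by
      refine Finset.prod_congr rfl ?_
      intro i _
      rw [if_neg]
      intro hi
      rw [Finset.mem_symmDiff] at hi
      have := h i
      tauto
    rw [← h1]
    refine Finset.single_le_sum (f := fun p : Finset X × Finset X =>
      ∏ i, (if z i ∈ p.1 ∆ p.2 then 0 else μ (z i))) ?_ hmem
    intro p _
    refine Finset.prod_nonneg ?_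
    intro i _
    split_ifs
    · exact le_refl _
    · exact hμ _
  have htot : W0 ^ m ≤ (N.card : ℝ) ^ 2 * (W0 ^ m * Real.exp (-(δ * m))) := by
    calc W0 ^ m = ∑ z : Fin m → X, ∏ i, μ (z i) := hsum.symm
      _ ≤ ∑ z : Fin m → X, ∑ p ∈ N.offDiag, ∏ i, (if z i ∈ p.1 ∆ p.2 then 0 else μ (z i)) :=
          Finset.sum_le_sum (fun z _ => hz z)
      _ = ∑ p ∈ N.offDiag, ∑ z : Fin m → X, ∏ i, (if z i ∈ p.1 ∆ p.2 then 0 else μ (z i)) :=
          Finset.sum_comm
      _ ≤ ∑ p ∈ N.offDiag, W0 ^ m * Real.exp (-(δ * m)) := by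
          refine Finset.sum_le_sum ?_
          intro p hp
          rw [Finset.mem_offDiag] at hp
          exact hpair p.1 hp.1 p.2 hp.2.1 hp.2.2
      _ = (N.offDiag.card : ℝ) * (W0 ^ m * Real.exp (-(δ * m))) := by
          rw [Finset.sum_const, nsmul_eq_mul]
      _ ≤ (N.card : ℝ) ^ 2 * (W0 ^ m * Real.exp (-(δ * m))) := by
          have h1 : (N.offDiag.card : ℝ) ≤ (N.card : ℝ) ^ 2 := by
            have : N.offDiag.card ≤ N.card ^ 2 := by
              rw [Finset.offDiag_card, pow_two]; omega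
            exact_mod_cast this
          exact mul_le_mul_of_nonneg_right h1 (by positivity)
  have hWm : 0 < W0 ^ m := by positivity
  nlinarith

/-- Small covers of a class of VC dimension at most d with respect to a measure of total mass at
most W. -/
theorem cover (N : Finset (Finset X)) (d b : ℕ) (hd : 1 ≤ d) (hb : 7 ≤ b) (hN : N.vcDim ≤ d)
    (μ : X → ℝ) (hμ : ∀ x, 0 ≤ μ x) (W : ℝ) (hW : ∑ x, μ x ≤ W) :
    ∃ N' ⊆ N, N'.card ≤ 2 ^ (2 * d * b) ∧ ∀ c ∈ N, ∃ c' ∈ N', ∑ x ∈ c ∆ c', μ x ≤ W / 2 ^ b := by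
  classical
  have hWnn : 0 ≤ W := le_trans (Finset.sum_nonneg (fun x _ => hμ x)) hW
  have hWb : 0 ≤ W / 2 ^ b := by positivity
  rcases (Finset.sum_nonneg (fun x (_ : x ∈ (Finset.univ : Finset X)) => hμ x)).eq_or_lt with h0 | h0
  · -- all masses vanish
    have hz : ∀ x, μ x = 0 := by
      intro x
      have := (Finset.sum_eq_zero_iff_of_nonneg (fun x _ => hμ x)).1 h0.symm x (Finset.mem_univ x)
      exact this
    rcases N.eq_empty_or_nonempty with rfl | ⟨c0, hc0⟩
    · exact ⟨∅, Finset.Subset.refl _, by simp, by simp⟩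
    · refine ⟨{c0}, by simpa using hc0, ?_, ?_⟩
      · rw [Finset.card_singleton]; exact Nat.one_le_two_pow
      · intro c _
        exact ⟨c0, by simp, by simpa [hz] using hWb⟩
  · -- a maximal separated subfamily
    set F : Finset (Finset (Finset X)) := N.powerset.filter
      (fun N' => ∀ c ∈ N', ∀ c' ∈ N', c ≠ c' → W / 2 ^ b < ∑ x ∈ c ∆ c', μ x) with hF
    have hFne : F.Nonempty := ⟨∅, by simp [hF]⟩
    obtain ⟨N', hN'F, hmax⟩ := Finset.exists_max_image F Finset.card hFne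
    rw [hF, Finset.mem_filter, Finset.mem_powerset] at hN'F
    obtain ⟨hsub, hfar⟩ := hN'F
    refine ⟨N', hsub, ?_, ?_⟩
    · by_contra hbig
      push Not at hbig
      obtain ⟨N2, hN2, hN2c⟩ := Finset.exists_subset_card_eq
        (s := N') (n := 2 ^ (2 * d * b) + 1) hbig
      set m : ℕ := 4 * d * b * 2 ^ b with hm
      have hdm : d ≤ m := by
        have h1 : 1 ≤ 2 ^ b := Nat.one_le_two_pow
        have h2 : d * 1 ≤ d * (4 * b * 2 ^ b) := by
          apply Nat.mul_le_mul_left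
          have : 1 ≤ 4 * b := by omega
          exact Nat.mul_le_mul this h1
        calc d = d * 1 := (mul_one d).symm
          _ ≤ d * (4 * b * 2 ^ b) := h2
          _ = m := by rw [hm]; ring
      have hsep : ∃ z : Fin m → X, ∀ c ∈ N2, ∀ c' ∈ N2, c ≠ c' →
          ∃ i, ¬ (z i ∈ c ↔ z i ∈ c') := by
        refine cover_sep N2 μ hμ W (1 / 2 ^ b) h0 hW (by positivity) m ?_ ?_
        · intro c hc c' hc' hne
          have := hfar c (hN2 hc) c' (hN2 hc') hne
          have h2 : 1 / 2 ^ b * W = W / 2 ^ b := by ring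
          rw [h2]; exact this.le
        · rw [hN2c]
          have hmm : (1 : ℝ) / 2 ^ b * (m : ℝ) = ((4 * d * b : ℕ) : ℝ) := by
            rw [hm]
            push_cast
            field_simp
          rw [hmm]
          have hk : 28 ≤ 4 * d * b := by
            have : 1 * 7 ≤ d * b := Nat.mul_le_mul hd hb
            calc 28 = 4 * (1 * 7) := by norm_num
              _ ≤ 4 * (d * b) := Nat.mul_le_mul_left 4 this
              _ = 4 * d * b := by ring
          have h3 := cover_num1 (4 * d * b) hk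
          have h4 : (((2 ^ (2 * d * b) + 1 : ℕ) : ℝ)) ^ 2 ≤ 4 * (2 : ℝ) ^ (4 * d * b) := by
            have h5 : (2 : ℝ) ^ (4 * d * b) = ((2 : ℝ) ^ (2 * d * b)) ^ 2 := by
              rw [← pow_mul]; congr 1; ring
            have h6 : (1 : ℝ) ≤ (2 : ℝ) ^ (2 * d * b) := one_le_pow₀ (by norm_num)
            rw [h5]
            push_cast
            nlinarith
          calc (((2 ^ (2 * d * b) + 1 : ℕ) : ℝ)) ^ 2 * Real.exp (-((4 * d * b : ℕ) : ℝ))
              ≤ 4 * (2 : ℝ) ^ (4 * d * b) * Real.exp (-((4 * d * b : ℕ) : ℝ)) :=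
                mul_le_mul_of_nonneg_right h4 (Real.exp_pos _).le
            _ < 1 := h3
      obtain ⟨z, hz⟩ := hsep
      have hvc : N2.vcDim ≤ d :=
        le_trans (Finset.vcDim_mono (hN2.trans hsub)) hN
      have h1 := card_le_sum_choose N2 d hvc z hz
      rw [Fintype.card_fin, hN2c] at h1
      have h2 := sum_choose_le hd hdm
      have h3 : (((2 ^ (2 * d * b) + 1 : ℕ) : ℝ)) ≤
          ∑ k ∈ Finset.range (d + 1), (m.choose k : ℝ) := by exact_mod_cast h1
      have hd0 : (0 : ℝ) < d := by exact_mod_cast hd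
      have h4 : 3 * (m : ℝ) / d = ((12 * b * 2 ^ b : ℕ) : ℝ) := by
        rw [hm]; push_cast; field_simp; ring
      have h5 : 12 * b * 2 ^ b ≤ 2 ^ (2 * b) := by
        calc 12 * b * 2 ^ b ≤ 2 ^ b * 2 ^ b := Nat.mul_le_mul_right _ (cover_num2 b hb)
          _ = 2 ^ (2 * b) := by rw [← pow_add]; congr 1; ring
      have h6 : (3 * (m : ℝ) / d) ^ d ≤ ((2 ^ (2 * d * b) : ℕ) : ℝ) := by
        rw [h4]
        have : (12 * b * 2 ^ b) ^ d ≤ 2 ^ (2 * d * b) := by
          calc (12 * b * 2 ^ b) ^ d ≤ (2 ^ (2 * b)) ^ d := Nat.pow_le_pow_left h5 d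
            _ = 2 ^ (2 * d * b) := by rw [← pow_mul]; congr 1; ring
        exact_mod_cast this
      have h7 : (((2 ^ (2 * d * b) + 1 : ℕ) : ℝ)) ≤ ((2 ^ (2 * d * b) : ℕ) : ℝ) :=
        le_trans h3 (le_trans h2 h6)
      have h8 : 2 ^ (2 * d * b) + 1 ≤ 2 ^ (2 * d * b) := by exact_mod_cast h7
      omega
    · intro c hc
      by_contra hno
      push Not at hno
      have hcN' : c ∉ N' := by
        intro h
        have := hno c h
        rw [symmDiff_self] at this
        simp only [Finset.bot_eq_empty, Finset.sum_empty] at this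
        linarith
      have hins : insert c N' ∈ F := by
        rw [hF, Finset.mem_filter, Finset.mem_powerset]
        refine ⟨Finset.insert_subset hc hsub, ?_⟩
        intro a ha a' ha' hne
        rw [Finset.mem_insert] at ha ha'
        rcases ha with rfl | ha
        · rcases ha' with rfl | ha'
          · exact absurd rfl hne
          · exact hno a' ha'
        · rcases ha' with rfl | ha'
          · rw [symmDiff_comm]; exact hno a ha
          · exact hfar a ha a' ha' hne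
      have := hmax _ hins
      rw [Finset.card_insert_of_notMem hcN'] at this
      omega

end Pool.Agent.MPaa62e0
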