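/-
MP_aa62e0_lc (sample compression).  Common definitions.
A (labelled) sample is given by its domain A and the set B ⊆ A of its positive points.
-/
import Mathlib

set_option autoImplicit false

open Finset
open scoped symmDiff

namespace Pool.Agent.MPaa62e0

variable {X : Type} [Fintype X] [DecidableEq X]

/-- The expected number of subsets S of A with k elements for which the random hypothesis
(distribution `μ S (S ∩ B)`), corrected on S, is right on the whole sample (A, B). -/
noncomputable def score (k : ℕ) (A B : Finset X) (μ : Finset X → Finset X → Finset X → ℝ) : ℝ :=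
  ∑ S ∈ A.powersetCard k, ∑ h ∈ Finset.univ.filter (fun h : Finset X => A ∩ (h ∆ B) ⊆ S),
    μ S (S ∩ B) h

/-- A family of sub-probability distributions on hypotheses, one for every labelled set (S, V). -/
def SubProb (μ : Finset X → Finset X → Finset X → ℝ) : Prop :=
  (∀ S V h, 0 ≤ μ S V h) ∧ ∀ S V, ∑ h, μ S V h ≤ 1

end Pool.Agent.MPaa62e0
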