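import Pool.Agent.Lib.MP_aa62e0_lc.Sauer

set_option autoImplicit false

open Finset
open scoped symmDiff

namespace Pool.Agent.MPaa62e0

variable {X : Type} [Fintype X] [DecidableEq X]

/-- The number of points which are pairwise separated by the class: the dual class has VC
dimension less than 2 ^ (d + 1). -/
theorem dual_card (C : Finset (Finset X)) (d : ℕ) (hC : C.vcDim ≤ d) (R : Finset X)
    (hR : ∀ x ∈ R, ∀ y ∈ R, x ≠ y → ∃ c ∈ C, ¬ (x ∈ c ↔ y ∈ c)) :
    R.card ≤ (C.card + 1) ^ (2 ^ (d + 1)) := by
  classical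
  set f : X → Finset {c // c ∈ C} :=
    fun x => Finset.univ.filter (fun c : {c // c ∈ C} => x ∈ c.1) with hf
  have hinj : Set.InjOn f (R : Set X) := by
    intro x hx y hy hxy
    by_contra hne
    obtain ⟨c, hc, hcs⟩ := hR x (by simpa using hx) y (by simpa using hy) hne
    apply hcs
    have h1 : (⟨c, hc⟩ : {c // c ∈ C}) ∈ f x ↔ (⟨c, hc⟩ : {c // c ∈ C}) ∈ f y := by rw [hxy]
    simpa [hf] using h1
  set DD : Finset (Finset {c // c ∈ C}) := R.image f with hDD
  have hcard : DD.card = R.card := Finset.card_image_of_injOn hinj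
  have hvc : DD.vcDim ≤ 2 ^ (d + 1) := by
    unfold Finset.vcDim
    refine Finset.sup_le ?_
    intro W hW
    rw [Finset.mem_shatterer] at hW
    by_contra hlt
    push Not at hlt
    -- an injection of the subsets of Fin (d+1) into W
    have hle : Fintype.card (Finset (Fin (d + 1))) ≤ Fintype.card {w // w ∈ W} := by
      rw [Fintype.card_finset, Fintype.card_fin, Fintype.card_coe]
      exact hlt.le
    obtain ⟨e⟩ := Function.Embedding.nonempty_of_card_le hle
    set w : Finset (Fin (d + 1)) → {c // c ∈ C} := fun v => (e v).1 with hw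
    have hwinj : Function.Injective w := by
      intro v v' hvv
      exact e.injective (Subtype.ext hvv)
    have hwW : ∀ v, w v ∈ W := fun v => (e v).2
    -- the points
    have hpt : ∀ i : Fin (d + 1), ∃ x : X, ∀ v : Finset (Fin (d + 1)), x ∈ (w v).1 ↔ i ∈ v := by
      intro i
      set T : Finset {c // c ∈ C} :=
        (Finset.univ.filter (fun v : Finset (Fin (d + 1)) => i ∈ v)).image w with hT
      have hTW : T ⊆ W := by
        intro c hc
        rw [hT, Finset.mem_image] at hc
        obtain ⟨v, _, rfl⟩ := hc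
        exact hwW v
      obtain ⟨u, hu, hWu⟩ := hW hTW
      rw [hDD, Finset.mem_image] at hu
      obtain ⟨x, _, rfl⟩ := hu
      refine ⟨x, fun v => ?_⟩
      have h1 : w v ∈ W ∩ f x ↔ w v ∈ T := by rw [hWu]
      have h2 : w v ∈ W ∩ f x ↔ x ∈ (w v).1 := by
        rw [Finset.mem_inter]
        simp only [hf, Finset.mem_filter, Finset.mem_univ, true_and]
        exact ⟨fun h => h.2, fun h => ⟨hwW v, h⟩⟩
      have h3 : w v ∈ T ↔ i ∈ v := by
        rw [hT, Finset.mem_image]
        constructor
        · rintro ⟨v', hv', hvv⟩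
          rw [Finset.mem_filter] at hv'
          rw [← hwinj hvv]
          exact hv'.2
        · intro hi
          exact ⟨v, Finset.mem_filter.2 ⟨Finset.mem_univ _, hi⟩, rfl⟩
      rw [← h2, h1, h3]
    choose x hx using hpt
    have hxinj : Function.Injective x := by
      intro i j hij
      by_contra hne
      have h1 : x i ∈ (w {i}).1 := (hx i {i}).2 (Finset.mem_singleton_self i)
      rw [hij] at h1
      have h2 := (hx j {i}).1 h1
      exact hne (Finset.mem_singleton.1 h2).symm
    have hsh : C.Shatters (Finset.univ.image x) := by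
      intro t ht
      set v : Finset (Fin (d + 1)) := Finset.univ.filter (fun i => x i ∈ t) with hv
      refine ⟨(w v).1, (w v).2, ?_⟩
      ext y
      rw [Finset.mem_inter, Finset.mem_image]
      constructor
      · rintro ⟨⟨i, _, rfl⟩, hi⟩
        have h1 := (hx i v).1 hi
        rw [hv, Finset.mem_filter] at h1
        exact h1.2
      · intro hy
        obtain ⟨i, _, rfl⟩ := Finset.mem_image.1 (ht hy)
        refine ⟨⟨i, Finset.mem_univ _, rfl⟩, ?_⟩
        rw [hx i v, hv, Finset.mem_filter]
        exact ⟨Finset.mem_univ _, hy⟩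
    have h1 := hsh.card_le_vcDim
    rw [Finset.card_image_of_injective _ hxinj, Finset.card_univ, Fintype.card_fin] at h1
    omega
  calc R.card = DD.card := hcard.symm
    _ ≤ (Fintype.card {c // c ∈ C} + 1) ^ DD.vcDim := card_class_le DD
    _ = (C.card + 1) ^ DD.vcDim := by rw [Fintype.card_coe]
    _ ≤ (C.card + 1) ^ (2 ^ (d + 1)) := Nat.pow_le_pow_right (Nat.succ_pos _) hvc

end Pool.Agent.MPaa62e0
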