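import Mathlib

set_option autoImplicit false

open Finset

namespace Pool.Agent.MPaa62e0

/-- Independent random choice (one hypothesis H k for every index k) and the union bound,
for probability vectors. -/
theorem select_aux {κ η τ : Type} [Fintype κ] [DecidableEq κ] [Fintype η] [DecidableEq η]
    (Ts : Finset τ) (ν : κ → η → ℝ) (hν0 : ∀ k h, 0 ≤ ν k h) (hν1 : ∀ k, ∑ h, ν k h = 1)
    (G : τ → κ → Finset η)
    (hu : ∑ T ∈ Ts, Real.exp (-(∑ k, ∑ h ∈ G T k, ν k h)) < 1) :
    ∃ H : κ → η, ∀ T ∈ Ts, ∃ k, H k ∈ G T k := by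
  classical
  by_contra hcon
  push Not at hcon
  have h1 : (1 : ℝ) = ∑ H : κ → η, ∏ k, ν k (H k) := by
    have h := Finset.prod_univ_sum (fun _ : κ => (univ : Finset η)) (fun k h => ν k h)
    rw [Fintype.piFinset_univ] at h
    rw [← h]
    rw [Finset.prod_congr rfl (fun k _ => hν1 k)]
    simp
  have hprod : ∀ H : κ → η, 0 ≤ ∏ k, ν k (H k) :=
    fun H => Finset.prod_nonneg fun k _ => hν0 k _
  have h2 : ∑ H : κ → η, ∏ k, ν k (H k)
      ≤ ∑ T ∈ Ts, ∑ H ∈ Fintype.piFinset (fun k => (G T k)ᶜ), ∏ k, ν k (H k) := by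
    calc ∑ H : κ → η, ∏ k, ν k (H k)
        ≤ ∑ H : κ → η, ∑ T ∈ Ts,
            (if H ∈ Fintype.piFinset (fun k => (G T k)ᶜ) then ∏ k, ν k (H k) else 0) := by
          refine Finset.sum_le_sum fun H _ => ?_
          obtain ⟨T, hT, hk⟩ := hcon H
          have hmem : H ∈ Fintype.piFinset (fun k => (G T k)ᶜ) := by
            rw [Fintype.mem_piFinset]
            intro k
            rw [Finset.mem_compl]
            exact hk k
          calc ∏ k, ν k (H k)
              = (if H ∈ Fintype.piFinset (fun k => (G T k)ᶜ) then ∏ k, ν k (H k) else 0) := by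
                rw [if_pos hmem]
            _ ≤ _ := by
                refine Finset.single_le_sum
                  (f := fun T => if H ∈ Fintype.piFinset (fun k => (G T k)ᶜ)
                    then ∏ k, ν k (H k) else 0) ?_ hT
                intro T' _
                split_ifs
                · exact hprod H
                · exact le_refl _
      _ = ∑ T ∈ Ts, ∑ H : κ → η,
            (if H ∈ Fintype.piFinset (fun k => (G T k)ᶜ) then ∏ k, ν k (H k) else 0) :=
          Finset.sum_comm
      _ = _ := by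
          refine Finset.sum_congr rfl fun T _ => ?_
          rw [← Finset.sum_filter]
          refine Finset.sum_congr ?_ fun _ _ => rfl
          ext H
          simp
  have h3 : ∀ T ∈ Ts, ∑ H ∈ Fintype.piFinset (fun k => (G T k)ᶜ), ∏ k, ν k (H k)
      ≤ Real.exp (-(∑ k, ∑ h ∈ G T k, ν k h)) := by
    intro T _
    rw [← Finset.prod_univ_sum (fun k => (G T k)ᶜ) (fun k h => ν k h)]
    rw [← Finset.sum_neg_distrib, Real.exp_sum]
    refine Finset.prod_le_prod (fun k _ => Finset.sum_nonneg fun h _ => hν0 k h) fun k _ => ?_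
    have h4 : ∑ h ∈ (G T k)ᶜ, ν k h = 1 - ∑ h ∈ G T k, ν k h := by
      have h5 := Finset.sum_compl_add_sum (G T k) (fun h => ν k h)
      rw [hν1 k] at h5
      linarith
    rw [h4]
    have h6 := Real.add_one_le_exp (-(∑ h ∈ G T k, ν k h))
    linarith
  have h4 := Finset.sum_le_sum h3
  linarith

/-- Independent random choice (one hypothesis H k for every index k) and the union bound. -/
theorem select {κ η τ : Type} [Fintype κ] [DecidableEq κ] [Fintype η] [DecidableEq η] [Nonempty η]
    (Ts : Finset τ) (μ : κ → η → ℝ) (hμ0 : ∀ k h, 0 ≤ μ k h) (hμ1 : ∀ k, ∑ h, μ k h ≤ 1)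
    (G : τ → κ → Finset η)
    (hu : ∑ T ∈ Ts, Real.exp (-(∑ k, ∑ h ∈ G T k, μ k h)) < 1) :
    ∃ H : κ → η, ∀ T ∈ Ts, ∃ k, H k ∈ G T k := by
  classical
  obtain ⟨h0⟩ := ‹Nonempty η›
  have hle : ∀ k h, μ k h ≤ μ k h + (if h = h0 then 1 - ∑ h', μ k h' else 0) := by
    intro k h
    split_ifs
    · have := hμ1 k
      linarith
    · linarith
  refine select_aux Ts (fun k h => μ k h + (if h = h0 then 1 - ∑ h', μ k h' else 0))
    (fun k h => le_trans (hμ0 k h) (hle k h)) (fun k => ?_) G ?_
  · rw [Finset.sum_add_distrib, Finset.sum_ite_eq' univ h0]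
    simp
  · refine lt_of_le_of_lt (Finset.sum_le_sum fun T _ => ?_) hu
    refine Real.exp_le_exp.mpr ?_
    refine neg_le_neg ?_
    exact Finset.sum_le_sum fun k _ => Finset.sum_le_sum fun h _ => hle k h

end Pool.Agent.MPaa62e0
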