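import Mathlib

set_option autoImplicit false

open Finset

namespace Pool.Agent.MPaa62e0

variable {X : Type} [Fintype X] [DecidableEq X]

/-- The union bound over all samples. -/
theorem sum_exp_lt (hX : 1 ≤ Fintype.card X) :
    ∑ T ∈ (Finset.univ : Finset (Finset X × Finset X)).filter
      (fun T => T.2 ⊆ T.1 ∧ T.1.Nonempty),
      Real.exp (-((T.1.card : ℝ) * Real.log (4 * Fintype.card X))) < 1 := by
  have hn : (1 : ℝ) ≤ (Fintype.card X : ℝ) := by exact_mod_cast hX
  set n : ℝ := (Fintype.card X : ℝ) with hndef
  have hpos : (0 : ℝ) < 4 * n := by linarith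
  have h1 : ∀ m : ℕ, Real.exp (-((m : ℝ) * Real.log (4 * n))) = (1 / (4 * n)) ^ m := by
    intro m
    rw [Real.exp_neg, mul_comm, Real.exp_mul, Real.exp_log hpos, Real.rpow_natCast, one_div,
      inv_pow]
  have h2 : ∑ T ∈ (Finset.univ : Finset (Finset X × Finset X)).filter
      (fun T => T.2 ⊆ T.1 ∧ T.1.Nonempty),
      Real.exp (-((T.1.card : ℝ) * Real.log (4 * n)))
      = ∑ A ∈ (Finset.univ : Finset (Finset X)).filter (fun A => A.Nonempty),
        (1 / (2 * n)) ^ A.card := by
    rw [Finset.sum_filter, ← Finset.univ_product_univ, Finset.sum_product, Finset.sum_filter]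
    apply Finset.sum_congr rfl
    intro A _
    by_cases hA : A.Nonempty
    · simp only [hA, and_true, if_true]
      rw [← Finset.sum_filter]
      have h3 : (Finset.univ : Finset (Finset X)).filter (fun B => B ⊆ A) = A.powerset := by
        ext B; simp
      rw [h3]
      simp only [h1]
      rw [Finset.sum_const, Finset.card_powerset, nsmul_eq_mul]
      push_cast
      rw [← mul_pow]
      congr 1
      field_simp
      norm_num
    · simp [hA]
  rw [h2]
  have h4 : ∑ A : Finset X, (1 / (2 * n)) ^ A.card = (1 / (2 * n) + 1) ^ (Fintype.card X) := by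
    have := Finset.sum_pow_mul_eq_add_pow (1 / (2 * n)) (1 : ℝ) (Finset.univ : Finset X)
    simp only [Finset.powerset_univ, one_pow, mul_one, Finset.card_univ] at this
    exact this
  have h5 : ∑ A ∈ (Finset.univ : Finset (Finset X)).filter (fun A => A.Nonempty),
        (1 / (2 * n)) ^ A.card + 1 = ∑ A : Finset X, (1 / (2 * n)) ^ A.card := by
    rw [← Finset.sum_filter_add_sum_filter_not Finset.univ (fun A : Finset X => A.Nonempty)]
    congr 1
    have : (Finset.univ : Finset (Finset X)).filter (fun A => ¬ A.Nonempty) = {∅} := by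
      ext B; simp [Finset.not_nonempty_iff_eq_empty]
    rw [this]; simp
  have h6 : (1 / (2 * n) + 1) ^ (Fintype.card X) ≤ Real.exp (1 / 2) := by
    calc (1 / (2 * n) + 1) ^ (Fintype.card X) ≤ (Real.exp (1 / (2 * n))) ^ (Fintype.card X) := by
          apply pow_le_pow_left₀ (by positivity) (Real.add_one_le_exp _)
      _ = Real.exp (1 / 2) := by
          rw [← Real.exp_nat_mul]
          congr 1
          rw [← hndef]
          field_simp
  have h7 : Real.exp (1 / 2) < 2 := by
    have h8 : Real.exp (1 / 2) * Real.exp (1 / 2) = Real.exp 1 := by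
      rw [← Real.exp_add]; norm_num
    have h9 := Real.exp_one_lt_d9
    have h10 := Real.exp_pos (1 / 2)
    nlinarith
  linarith

end Pool.Agent.MPaa62e0
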