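import Mathlib

set_option autoImplicit false

namespace Pool.Agent.MPaa62e0

theorem numB_exp (r : ℝ) (hr : 2 ^ 20 ≤ r) : 6 * r ^ 4 ≤ Real.exp (r / 896) := by
  have hr0 : (0 : ℝ) ≤ r := le_trans (by norm_num) hr
  have h1 := Real.pow_div_factorial_le_exp (r / 896) (by positivity) 12
  refine le_trans ?_ h1
  have h8 : ((2 : ℝ) ^ 20) ^ 8 ≤ r ^ 8 := pow_le_pow_left₀ (by norm_num) hr 8
  have h9 : (6 : ℝ) * 896 ^ 12 * 479001600 ≤ r ^ 8 := le_trans (by norm_num) h8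
  have hf : ((Nat.factorial 12 : ℕ) : ℝ) = 479001600 := by norm_num [Nat.factorial]
  rw [hf, div_pow, div_div, le_div_iff₀ (by positivity)]
  have h4 : (0 : ℝ) ≤ r ^ 4 := by positivity
  calc 6 * r ^ 4 * (896 ^ 12 * 479001600) = (6 * 896 ^ 12 * 479001600) * r ^ 4 := by ring
    _ ≤ r ^ 8 * r ^ 4 := mul_le_mul_of_nonneg_right h9 h4
    _ = r ^ 12 := by ring

/-- The block size k / 128 is enough for three rounds with ε = 1 / sqrt (48 κ). -/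
theorem numericB1 (K d P : ℕ) (a s : ℝ) (hK : 2 ^ 40 ≤ K) (hd : 1 ≤ d)
    (hs : 128 * s = K * (P + 1) * d) (ha : a ≤ (K * (P + 1)) * (K * (P + 1) * d)) (ha0 : d ≤ a) :
    (3 * a / d) ^ d * Real.exp (-(1 / Real.sqrt (48 * (K * (P + 1))) * s)) ≤ 1 / 2 := by
  have hKr : (2 : ℝ) ^ 40 ≤ (K : ℝ) := by exact_mod_cast hK
  have hP : (1 : ℝ) ≤ (P : ℝ) + 1 := by
    have : (0 : ℝ) ≤ (P : ℝ) := Nat.cast_nonneg P
    linarith
  obtain ⟨κ, hκ⟩ : ∃ κ : ℝ, κ = (K : ℝ) * ((P : ℝ) + 1) := ⟨_, rfl⟩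
  have hκ40 : (2 : ℝ) ^ 40 ≤ κ := by
    rw [hκ]
    calc (2 : ℝ) ^ 40 = 2 ^ 40 * 1 := by ring
      _ ≤ (K : ℝ) * ((P : ℝ) + 1) := mul_le_mul hKr hP (by norm_num) (by positivity)
  have hκ0 : (0 : ℝ) < κ := lt_of_lt_of_le (by norm_num) hκ40
  rw [← hκ] at hs ha ⊢
  have hdr : (1 : ℝ) ≤ (d : ℝ) := by exact_mod_cast hd
  have hd0 : (0 : ℝ) < (d : ℝ) := by linarith
  obtain ⟨r, hr⟩ : ∃ r : ℝ, r = Real.sqrt κ := ⟨_, rfl⟩
  have hr0 : 0 < r := by rw [hr]; exact Real.sqrt_pos.mpr hκ0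
  have hr2 : r ^ 2 = κ := by rw [hr]; exact Real.sq_sqrt hκ0.le
  have hr20 : (2 : ℝ) ^ 20 ≤ r := by
    rw [hr]
    apply Real.le_sqrt_of_sq_le
    calc ((2 : ℝ) ^ 20) ^ 2 = 2 ^ 40 := by norm_num
      _ ≤ κ := hκ40
  -- the base
  have hb : 3 * a / d ≤ 3 * r ^ 4 := by
    rw [div_le_iff₀ hd0]
    calc 3 * a ≤ 3 * (κ * (κ * d)) := by linarith
      _ = 3 * r ^ 4 * d := by rw [← hr2]; ring
  have hb0 : 0 ≤ 3 * a / d := by
    have : 0 ≤ a := by linarith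
    positivity
  -- the exponent
  have hsq : Real.sqrt (48 * κ) ≤ 7 * r := by
    rw [show (48 : ℝ) * κ = 48 * r ^ 2 by rw [hr2]]
    apply Real.sqrt_le_iff.mpr
    constructor
    · positivity
    · nlinarith [sq_nonneg r]
  have hsq0 : 0 < Real.sqrt (48 * κ) := Real.sqrt_pos.mpr (by positivity)
  have hsv : s = r ^ 2 * d / 128 := by rw [hr2]; linarith
  have he : r / 896 * d ≤ 1 / Real.sqrt (48 * κ) * s := by
    have h1 : 1 / (7 * r) ≤ 1 / Real.sqrt (48 * κ) := one_div_le_one_div_of_le hsq0 hsq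
    have hs0 : 0 ≤ s := by rw [hsv]; positivity
    calc r / 896 * d = 1 / (7 * r) * s := by
          rw [hsv]; field_simp; ring
      _ ≤ 1 / Real.sqrt (48 * κ) * s := mul_le_mul_of_nonneg_right h1 hs0
  have hexp : Real.exp (-(1 / Real.sqrt (48 * κ) * s)) ≤ (Real.exp (-(r / 896))) ^ d := by
    rw [← Real.exp_nat_mul]
    apply Real.exp_le_exp.mpr
    have : (d : ℝ) * -(r / 896) = -(r / 896 * d) := by ring
    rw [this]
    linarith
  have hfin : 3 * r ^ 4 * Real.exp (-(r / 896)) ≤ 1 / 2 := by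
    have h6 := numB_exp r hr20
    rw [Real.exp_neg]
    rw [← div_eq_mul_inv, div_le_iff₀ (Real.exp_pos _)]
    linarith
  calc (3 * a / d) ^ d * Real.exp (-(1 / Real.sqrt (48 * κ) * s))
      ≤ (3 * r ^ 4) ^ d * (Real.exp (-(r / 896))) ^ d :=
        mul_le_mul (pow_le_pow_left₀ hb0 hb d) hexp (Real.exp_pos _).le (by positivity)
    _ = (3 * r ^ 4 * Real.exp (-(r / 896))) ^ d := (mul_pow _ _ _).symm
    _ ≤ (1 / 2) ^ d := pow_le_pow_left₀ (by positivity) hfin d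
    _ ≤ 1 / 2 := by
        calc ((1 : ℝ) / 2) ^ d ≤ (1 / 2) ^ 1 := pow_le_pow_of_le_one (by norm_num) (by norm_num) hd
          _ = 1 / 2 := by norm_num

theorem numericB2 (K d P s : ℕ) (hK : 2 ^ 40 ≤ K) (hd : 1 ≤ d)
    (hs : 128 * s = K * (P + 1) * d) (a : ℝ) (ha : 4 * (K * (P + 1) * d) ≤ a)
    (ha' : a ≤ (K * (P + 1)) * (K * (P + 1) * d)) :
    ((2 : ℝ) ^ P + 2) ^ 2 * a ≤
      1 / (((K * (P + 1) * d : ℕ) : ℝ) ^ (4 * s)) * (1 / 2 * ((8 * s : ℕ) : ℝ) ^ s) ^ 4 *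
        (a / ((K * (P + 1) * d : ℕ) : ℝ)) ^ (K * (P + 1) * d - 20 * s) := by
  have hlow : 2 ^ 40 * (P + 1) * 1 ≤ K * (P + 1) * d :=
    Nat.mul_le_mul (Nat.mul_le_mul hK le_rfl) hd
  have hPs : P ≤ s := by
    have : 2 ^ 40 * (P + 1) * 1 ≤ 128 * s := by rw [hs]; exact hlow
    omega
  have hs1 : 1 ≤ s := by
    have : 2 ^ 40 * (P + 1) * 1 ≤ 128 * s := by rw [hs]; exact hlow
    omega
  have hsub : K * (P + 1) * d - 20 * s = 108 * s := by rw [← hs]; omega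
  have hak : 4 * ((K * (P + 1) * d : ℕ) : ℝ) ≤ a := by push_cast; exact ha
  rw [hsub, ← hs] at *
  clear ha ha'
  obtain ⟨y, hy⟩ : ∃ y : ℝ, y = ((8 * s : ℕ) : ℝ) := ⟨_, rfl⟩
  have hsr : (1 : ℝ) ≤ (s : ℝ) := by exact_mod_cast hs1
  have hy0 : 0 < y := by rw [hy]; push_cast; linarith
  have hk : ((128 * s : ℕ) : ℝ) = 16 * y := by rw [hy]; push_cast; ring
  rw [hk] at hak ⊢
  rw [← hy]
  obtain ⟨t, ht⟩ : ∃ t : ℝ, t = a / (16 * y) := ⟨_, rfl⟩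
  have hat : a = t * (16 * y) := by rw [ht]; field_simp
  rw [← ht]
  have ht4 : 4 ≤ t := by
    rw [ht, le_div_iff₀ (by positivity)]; exact hak
  have ht0 : 0 < t := by linarith
  -- simplify the right side
  have hR : 1 / (16 * y) ^ (4 * s) * (1 / 2 * y ^ s) ^ 4 = 1 / (16 * 16 ^ (4 * s)) := by
    rw [mul_pow, mul_pow, ← pow_mul, mul_comm s 4]
    have hy4 : y ^ (4 * s) ≠ 0 := pow_ne_zero _ hy0.ne'
    field_simp
    norm_num
  rw [hR]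
  have htp : t * 4 ^ (108 * s - 1) ≤ t ^ (108 * s) := by
    have h1 : 108 * s = (108 * s - 1) + 1 := by omega
    calc t * 4 ^ (108 * s - 1) ≤ t * t ^ (108 * s - 1) :=
          mul_le_mul_of_nonneg_left (pow_le_pow_left₀ (by norm_num) ht4 _) ht0.le
      _ = t ^ ((108 * s - 1) + 1) := by rw [pow_succ]; ring
      _ = t ^ (108 * s) := by rw [← h1]
  -- the key inequality
  have hss : (s : ℝ) ≤ 2 ^ s := by exact_mod_cast (Nat.lt_two_pow_self (n := s)).le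
  have hkey : 16 * 16 ^ (4 * s) * (((2 : ℝ) ^ P + 2) ^ 2 * (16 * y)) ≤ 4 ^ (108 * s - 1) := by
    have hP2 : (2 : ℝ) ^ P + 2 ≤ 2 ^ (s + 2) := by
      have h1 : (2 : ℝ) ^ P ≤ 2 ^ s := pow_le_pow_right₀ (by norm_num) hPs
      have h2 : (1 : ℝ) ≤ 2 ^ s := one_le_pow₀ (by norm_num)
      rw [pow_add]
      linarith
    have hP2' : ((2 : ℝ) ^ P + 2) ^ 2 ≤ (2 ^ (s + 2)) ^ 2 := pow_le_pow_left₀ (by positivity) hP2 2
    have hy2 : 16 * y ≤ 2 ^ (s + 7) := by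
      rw [← hk, pow_add]
      push_cast
      linarith
    calc 16 * 16 ^ (4 * s) * (((2 : ℝ) ^ P + 2) ^ 2 * (16 * y))
        ≤ 16 * 16 ^ (4 * s) * ((2 ^ (s + 2)) ^ 2 * 2 ^ (s + 7)) := by
          apply mul_le_mul_of_nonneg_left _ (by positivity)
          exact mul_le_mul hP2' hy2 (by positivity) (by positivity)
      _ = 2 ^ (19 * s + 15) := by
          rw [show (16 : ℝ) = 2 ^ 4 by norm_num, ← pow_mul, ← pow_mul, ← pow_add, ← pow_add, ← pow_add]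
          congr 1
          ring
      _ ≤ 2 ^ (2 * (108 * s - 1)) := pow_le_pow_right₀ (by norm_num) (by omega)
      _ = 4 ^ (108 * s - 1) := by rw [pow_mul]; norm_num
  have hpos : (0 : ℝ) < 16 * 16 ^ (4 * s) := by positivity
  rw [hat]
  calc ((2 : ℝ) ^ P + 2) ^ 2 * (t * (16 * y))
      = 1 / (16 * 16 ^ (4 * s)) * (t * (16 * 16 ^ (4 * s) * (((2 : ℝ) ^ P + 2) ^ 2 * (16 * y)))) := by
        field_simp
    _ ≤ 1 / (16 * 16 ^ (4 * s)) * (t * 4 ^ (108 * s - 1)) := by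
        apply mul_le_mul_of_nonneg_left _ (by positivity)
        exact mul_le_mul_of_nonneg_left hkey ht0.le
    _ ≤ 1 / (16 * 16 ^ (4 * s)) * t ^ (108 * s) :=
        mul_le_mul_of_nonneg_left htp (by positivity)

end Pool.Agent.MPaa62e0
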