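import Pool.Agent.Lib.MP_aa62e0_lc.Sauer

set_option autoImplicit false

open Finset
open scoped symmDiff

namespace Pool.Agent.MPaa62e0

variable {X : Type} [Fintype X] [DecidableEq X]

omit [Fintype X] in
/-- The number of traces of a class on `A`. -/
theorem net_traces (N : Finset (Finset X)) (d : ℕ) (hd : 1 ≤ d) (hN : N.vcDim ≤ d)
    (A : Finset X) (hdA : d ≤ A.card) :
    ((N.image (fun c => A ∩ c)).card : ℝ) ≤ (3 * (A.card : ℝ) / d) ^ d := by
  obtain ⟨N', hN'N, hinj, himg⟩ :=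
    Finset.exists_subset_injOn_image_eq_of_surjOn (f := fun c : Finset X => A ∩ c) N
      (N.image (fun c => A ∩ c)) (by
        intro t ht
        have ht' : t ∈ N.image (fun c => A ∩ c) := ht
        obtain ⟨c, hc, rfl⟩ := Finset.mem_image.1 ht'
        exact ⟨c, hc, rfl⟩)
  have hN'N' : N' ⊆ N := by
    intro c hc
    exact hN'N (by simpa using hc)
  have hcard : (N.image (fun c => A ∩ c)).card = N'.card := by
    rw [← himg]
    exact Finset.card_image_of_injOn hinj
  have h1 := card_le_sum_choose N' d (le_trans (Finset.vcDim_mono hN'N') hN)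
    (fun a : ↥A => (a : X)) (by
      intro c hc c' hc' hne
      by_contra hcon
      push Not at hcon
      apply hne
      apply hinj (by simpa using hc) (by simpa using hc')
      ext x
      constructor
      · intro hx
        obtain ⟨hxA, hxc⟩ := Finset.mem_inter.1 hx
        exact Finset.mem_inter.2 ⟨hxA, ((hcon ⟨x, hxA⟩).1 hxc)⟩
      · intro hx
        obtain ⟨hxA, hxc⟩ := Finset.mem_inter.1 hx
        exact Finset.mem_inter.2 ⟨hxA, ((hcon ⟨x, hxA⟩).2 hxc)⟩)
  have h2 := sum_choose_le (d := d) (m := A.card) hd hdA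
  rw [hcard]
  have h3 : ((N'.card : ℕ) : ℝ) ≤
      ((∑ k ∈ Finset.range (d + 1), (Fintype.card ↥A).choose k : ℕ) : ℝ) := by
    exact_mod_cast h1
  refine le_trans h3 ?_
  rw [Fintype.card_coe]
  push_cast
  exact h2

/-- At least half of the s-tuples of points of U are nets: every class member which agrees with B
on the tuple is wrong on at most ε |U| points of U. -/
theorem net (N : Finset (Finset X)) (d s : ℕ) (hd : 1 ≤ d) (hN : N.vcDim ≤ d)
    (A B U : Finset X) (hUA : U ⊆ A) (hdA : d ≤ A.card) (ε : ℝ) (hε0 : 0 < ε) (hε1 : ε ≤ 1)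
    (hs : (3 * (A.card : ℝ) / d) ^ d * Real.exp (-(ε * s)) ≤ 1 / 2) :
    1 / 2 * (U.card : ℝ) ^ s ≤ ((Finset.univ.filter (fun y : Fin s → X => (∀ i, y i ∈ U) ∧
      ∀ c ∈ N, (∀ i, (y i ∈ c ↔ y i ∈ B)) →
        ((U ∩ (c ∆ B)).card : ℝ) ≤ ε * U.card)).card : ℝ) := by
  classical
  set F := Finset.univ.filter (fun y : Fin s → X => (∀ i, y i ∈ U) ∧
      ∀ c ∈ N, (∀ i, (y i ∈ c ↔ y i ∈ B)) →
        ((U ∩ (c ∆ B)).card : ℝ) ≤ ε * U.card) with hF
  set T := (N.image (fun c => A ∩ c)).filter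
    (fun t => ε * (U.card : ℝ) < ((U ∩ (t ∆ B)).card : ℝ)) with hT
  let P : Finset (Fin s → X) := Fintype.piFinset (fun _ => U)
  let Bad : Finset X → Finset (Fin s → X) := fun t => Fintype.piFinset (fun _ => U \ (t ∆ B))
  have hPcard : P.card = U.card ^ s := by
    simp [P, Fintype.card_piFinset]
  have hBadcard : ∀ t, (Bad t).card = (U \ (t ∆ B)).card ^ s := by
    intro t
    simp [Bad, Fintype.card_piFinset]
  have htrace : ∀ c : Finset X, U ∩ ((A ∩ c) ∆ B) = U ∩ (c ∆ B) := by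
    intro c
    ext x
    simp only [Finset.mem_inter, Finset.mem_symmDiff]
    constructor
    · rintro ⟨hxU, h⟩
      have hxA := hUA hxU
      refine ⟨hxU, ?_⟩
      tauto
    · rintro ⟨hxU, h⟩
      have hxA := hUA hxU
      refine ⟨hxU, ?_⟩
      tauto
  have hcover : P ⊆ F ∪ T.biUnion Bad := by
    intro y hy
    have hyU : ∀ i, y i ∈ U := by
      intro i
      exact (Fintype.mem_piFinset.1 hy) i
    by_cases hyF : y ∈ F
    · exact Finset.mem_union_left _ hyF
    · apply Finset.mem_union_right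
      have : ¬ ((∀ i, y i ∈ U) ∧
        ∀ c ∈ N, (∀ i, (y i ∈ c ↔ y i ∈ B)) →
          ((U ∩ (c ∆ B)).card : ℝ) ≤ ε * U.card) := by
        intro h
        exact hyF (by rw [hF]; exact Finset.mem_filter.2 ⟨Finset.mem_univ _, h⟩)
      push Not at this
      obtain ⟨c, hc, hagree, hbig⟩ := this hyU
      rw [Finset.mem_biUnion]
      refine ⟨A ∩ c, ?_, ?_⟩
      · rw [hT]
        refine Finset.mem_filter.2 ⟨Finset.mem_image.2 ⟨c, hc, rfl⟩, ?_⟩
        rw [htrace]
        exact hbig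
      · refine Fintype.mem_piFinset.2 ?_
        intro i
        refine Finset.mem_sdiff.2 ⟨hyU i, ?_⟩
        intro hmem
        have hxA := hUA (hyU i)
        have h3 := hagree i
        rw [Finset.mem_symmDiff] at hmem
        simp only [Finset.mem_inter] at hmem
        tauto
  have hcard1 : (P.card : ℝ) ≤ F.card + ∑ t ∈ T, ((Bad t).card : ℝ) := by
    have h1 : P.card ≤ F.card + ∑ t ∈ T, (Bad t).card :=
      le_trans (Finset.card_le_card hcover)
        (le_trans (Finset.card_union_le _ _) (Nat.add_le_add_left Finset.card_biUnion_le _))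
    exact_mod_cast h1
  have hu0 : (0 : ℝ) ≤ U.card := Nat.cast_nonneg _
  have hexp : 1 - ε ≤ Real.exp (-ε) := by
    have := Real.add_one_le_exp (-ε)
    linarith
  have hBad : ∀ t ∈ T, ((Bad t).card : ℝ) ≤ (U.card : ℝ) ^ s * Real.exp (-(ε * s)) := by
    intro t ht
    rw [hBadcard]
    have h1 : ((U \ (t ∆ B)).card : ℝ) ≤ Real.exp (-ε) * U.card := by
      have h2 : (U \ (t ∆ B)).card + (U ∩ (t ∆ B)).card = U.card :=
        Finset.card_sdiff_add_card_inter _ _
      have h3 : ((U \ (t ∆ B)).card : ℝ) + ((U ∩ (t ∆ B)).card : ℝ) = U.card := by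
        exact_mod_cast h2
      have h4 := (Finset.mem_filter.1 ht).2
      have h5 : (1 - ε) * (U.card : ℝ) ≤ Real.exp (-ε) * U.card :=
        mul_le_mul_of_nonneg_right hexp hu0
      nlinarith
    have h6 : Real.exp (-(ε * s)) = Real.exp (-ε) ^ s := by
      rw [← Real.exp_nat_mul]
      ring_nf
    push_cast
    rw [h6]
    calc ((U \ (t ∆ B)).card : ℝ) ^ s ≤ (Real.exp (-ε) * U.card) ^ s :=
          pow_le_pow_left₀ (Nat.cast_nonneg _) h1 s
      _ = (U.card : ℝ) ^ s * Real.exp (-ε) ^ s := by rw [mul_pow, mul_comm]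
  have hsum : ∑ t ∈ T, ((Bad t).card : ℝ) ≤ 1 / 2 * (U.card : ℝ) ^ s := by
    have h1 : ∑ t ∈ T, ((Bad t).card : ℝ) ≤
        ∑ _t ∈ T, (U.card : ℝ) ^ s * Real.exp (-(ε * s)) := Finset.sum_le_sum hBad
    rw [Finset.sum_const, nsmul_eq_mul] at h1
    have h2 : (T.card : ℝ) ≤ (3 * (A.card : ℝ) / d) ^ d := by
      refine le_trans ?_ (net_traces N d hd hN A hdA)
      exact_mod_cast Finset.card_filter_le _ _
    have h3 : (0 : ℝ) ≤ (U.card : ℝ) ^ s := pow_nonneg hu0 s
    have h4 : (0 : ℝ) ≤ Real.exp (-(ε * s)) := (Real.exp_pos _).le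
    calc ∑ t ∈ T, ((Bad t).card : ℝ) ≤ T.card * ((U.card : ℝ) ^ s * Real.exp (-(ε * s))) := h1
      _ ≤ (3 * (A.card : ℝ) / d) ^ d * ((U.card : ℝ) ^ s * Real.exp (-(ε * s))) :=
          mul_le_mul_of_nonneg_right h2 (mul_nonneg h3 h4)
      _ = ((3 * (A.card : ℝ) / d) ^ d * Real.exp (-(ε * s))) * (U.card : ℝ) ^ s := by ring
      _ ≤ 1 / 2 * (U.card : ℝ) ^ s := mul_le_mul_of_nonneg_right hs h3
  have hP : (P.card : ℝ) = (U.card : ℝ) ^ s := by
    rw [hPcard]
    push_cast
    rfl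
  rw [hP] at hcard1
  linarith

end Pool.Agent.MPaa62e0
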