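import Pool.Agent.Lib.MP_aa62e0_lc.ThreeDefs
import Pool.Agent.Lib.MP_aa62e0_lc.Net

set_option autoImplicit false

open Finset
open scoped symmDiff

namespace Pool.Agent.MPaa62e0

variable {X : Type} [Fintype X] [DecidableEq X]

theorem three_learn (N : Finset (Finset X)) (A B : Finset X) (hAB : ∃ c ∈ N, B = A ∩ c)
    (W : Finset X) (hW : W ⊆ A) :
    learn N W (W ∩ B) ∈ N ∧ ∀ x ∈ W, (x ∈ learn N W (W ∩ B) ↔ x ∈ B) := by
  classical
  obtain ⟨c0, hc0, rfl⟩ := hAB
  have hex : ∃ c ∈ N, W ∩ c = W ∩ (A ∩ c0) := by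
    refine ⟨c0, hc0, ?_⟩
    rw [← Finset.inter_assoc, Finset.inter_eq_left.2 hW]
  have hl : learn N W (W ∩ (A ∩ c0)) = hex.choose := by
    unfold learn
    rw [dif_pos hex]
  have hs := hex.choose_spec
  rw [hl]
  refine ⟨hs.1, fun x hx => ?_⟩
  have := Finset.ext_iff.1 hs.2 x
  simp only [Finset.mem_inter, hx, true_and] at this
  simpa using this

theorem three_sum_ge {Z : Type} (F : Finset Z) (f : Z → ℝ) (m x : ℝ) (hx : 0 ≤ x)
    (hF : m ≤ (F.card : ℝ)) (hf : ∀ a ∈ F, x ≤ f a) : m * x ≤ ∑ a ∈ F, f a := by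
  have h := Finset.card_nsmul_le_sum F f x hf
  rw [nsmul_eq_mul] at h
  exact (mul_le_mul_of_nonneg_right hF hx).trans h

theorem three_count {Z : Type} [Fintype Z] [DecidableEq Z] (m : ℝ) (hm : 0 ≤ m)
    (G : Finset (Fin 4 → Z)) (F0 : Finset Z) (F1 : Z → Finset Z) (F2 : Z → Z → Finset Z)
    (F3 : Z → Z → Z → Finset Z) (h0 : m ≤ (F0.card : ℝ)) (h1 : ∀ a ∈ F0, m ≤ ((F1 a).card : ℝ))
    (h2 : ∀ a ∈ F0, ∀ b ∈ F1 a, m ≤ ((F2 a b).card : ℝ))
    (h3 : ∀ a ∈ F0, ∀ b ∈ F1 a, ∀ c ∈ F2 a b, m ≤ ((F3 a b c).card : ℝ))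
    (hG : ∀ y : Fin 4 → Z, y 0 ∈ F0 → y 1 ∈ F1 (y 0) → y 2 ∈ F2 (y 0) (y 1) →
      y 3 ∈ F3 (y 0) (y 1) (y 2) → y ∈ G) :
    m ^ 4 ≤ (G.card : ℝ) := by
  classical
  let S : Finset (Σ _ : Z, Σ _ : Z, Σ _ : Z, Z) :=
    F0.sigma fun a => (F1 a).sigma fun b => (F2 a b).sigma fun c => F3 a b c
  have hS : (S.card : ℝ) ≤ (G.card : ℝ) := by
    have : S.card ≤ G.card := by
      refine Finset.card_le_card_of_injOn
        (fun p => ![p.1, p.2.1, p.2.2.1, p.2.2.2]) ?_ ?_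
      · rintro ⟨a, b, c, e⟩ hp
        simp only [S, Finset.coe_sigma, Set.mem_sigma_iff, Finset.mem_coe, Finset.mem_sigma] at hp
        exact hG _ hp.1 hp.2.1 hp.2.2.1 hp.2.2.2
      · rintro ⟨a, b, c, e⟩ _ ⟨a', b', c', e'⟩ _ h
        have e0 := congrFun h 0
        have e1 := congrFun h 1
        have e2 := congrFun h 2
        have e3 := congrFun h 3
        simp at e0 e1 e2 e3
        subst e0 e1 e2 e3
        rfl
    exact_mod_cast this
  refine le_trans ?_ hS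
  have hc : (S.card : ℝ) = ∑ a ∈ F0, ∑ b ∈ F1 a, ∑ c ∈ F2 a b, ((F3 a b c).card : ℝ) := by
    simp only [S, Finset.card_sigma]
    push_cast
    rfl
  rw [hc]
  have : m ^ 4 = m * (m * (m * m)) := by ring
  rw [this]
  refine three_sum_ge F0 _ m _ (by positivity) h0 fun a ha => ?_
  refine three_sum_ge (F1 a) _ m _ (by positivity) (h1 a ha) fun b hb => ?_
  refine three_sum_ge (F2 a b) _ m _ hm (h2 a ha b hb) fun c hc => ?_
  exact h3 a ha b hb c hc

/-- The good tuples of a set `U`. -/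
noncomputable def threeNet (N : Finset (Finset X)) (B : Finset X) (ε : ℝ) (s : ℕ)
    (U : Finset X) : Finset (Fin s → X) :=
  open Classical in Finset.univ.filter (fun y : Fin s → X => (∀ i, y i ∈ U) ∧
    ∀ c ∈ N, (∀ i, (y i ∈ c ↔ y i ∈ B)) → ((U ∩ (c ∆ B)).card : ℝ) ≤ ε * U.card)

theorem three_sub1 (A B g1 g2 g3 : Finset X) :
    A ∩ (maj3 g1 g2 g3 ∆ B) ⊆ A ∩ (g1 ∆ B) ∪ (A ∩ (g1 ∆ g2)) := by
  intro x
  by_cases ha : x ∈ A <;> by_cases hb : x ∈ B <;> by_cases h1 : x ∈ g1 <;>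
    by_cases h2 : x ∈ g2 <;> by_cases h3 : x ∈ g3 <;>
    simp [maj3, Finset.mem_symmDiff, ha, hb, h1, h2, h3]

theorem three_sub2 (A B g1 g2 g3 : Finset X) :
    A ∩ (maj3 g1 g2 g3 ∆ B) ⊆ A ∩ (g1 ∆ B) ∪ ((A ∩ (g1 ∆ g2)) ∩ (g3 ∆ B)) := by
  intro x
  by_cases ha : x ∈ A <;> by_cases hb : x ∈ B <;> by_cases h1 : x ∈ g1 <;>
    by_cases h2 : x ∈ g2 <;> by_cases h3 : x ∈ g3 <;>
    simp [maj3, Finset.mem_symmDiff, ha, hb, h1, h2, h3]

theorem three_sub3 (A B g1 g2 g3 : Finset X) :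
    A ∩ (maj3 g1 g2 g3 ∆ B) ⊆ ((A ∩ (g1 ∆ B)) ∩ (g2 ∆ B)) ∪ (A ∩ (g1 ∆ g2)) := by
  intro x
  by_cases ha : x ∈ A <;> by_cases hb : x ∈ B <;> by_cases h1 : x ∈ g1 <;>
    by_cases h2 : x ∈ g2 <;> by_cases h3 : x ∈ g3 <;>
    simp [maj3, Finset.mem_symmDiff, ha, hb, h1, h2, h3]

theorem three_sub4 (A B g1 g2 g3 : Finset X) :
    A ∩ (maj3 g1 g2 g3 ∆ B) ⊆
      ((A ∩ (g1 ∆ B)) ∩ (g2 ∆ B)) ∪ ((A ∩ (g1 ∆ g2)) ∩ (g3 ∆ B)) := by
  intro x
  by_cases ha : x ∈ A <;> by_cases hb : x ∈ B <;> by_cases h1 : x ∈ g1 <;>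
    by_cases h2 : x ∈ g2 <;> by_cases h3 : x ∈ g3 <;>
    simp [maj3, Finset.mem_symmDiff, ha, hb, h1, h2, h3]

theorem three_sub5 (A B g1 g2 : Finset X) :
    A ∩ (g1 ∆ g2) ⊆ A ∩ (g1 ∆ B) ∪ A ∩ (g2 ∆ B) := by
  intro x
  by_cases ha : x ∈ A <;> by_cases hb : x ∈ B <;> by_cases h1 : x ∈ g1 <;>
    by_cases h2 : x ∈ g2 <;>
    simp [Finset.mem_symmDiff, ha, hb, h1, h2]

theorem three_sub6 (A B g1 g2 : Finset X) :
    A ∩ (g1 ∆ g2) ⊆ A ∩ (g1 ∆ B) ∪ (A \ (A ∩ (g1 ∆ B))) ∩ (g2 ∆ B) := by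
  intro x
  by_cases ha : x ∈ A <;> by_cases hb : x ∈ B <;> by_cases h1 : x ∈ g1 <;>
    by_cases h2 : x ∈ g2 <;>
    simp [Finset.mem_symmDiff, ha, hb, h1, h2]

/-- Three rounds of boosting. -/
theorem three (N : Finset (Finset X)) (d s u : ℕ) (hd : 1 ≤ d) (hN : N.vcDim ≤ d)
    (A B : Finset X) (hAB : ∃ c ∈ N, B = A ∩ c) (hdA : d ≤ A.card) (hu : 1 ≤ u)
    (ε : ℝ) (hε0 : 0 < ε) (hε1 : ε ≤ 1 / 2)
    (hs : (3 * (A.card : ℝ) / d) ^ d * Real.exp (-(ε * s)) ≤ 1 / 2)
    (h1 : 3 * ε ^ 2 * A.card ≤ u) (h2 : 2 * u ≤ A.card) :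
    (1 / 2 * (u : ℝ) ^ s) ^ 4 ≤ ((Finset.univ.filter (fun y : Fin 4 → Fin s → X =>
      (∀ a i, y a i ∈ A) ∧ (A ∩ (hyp3 N s y B ∆ B)).card ≤ 2 * u)).card : ℝ) := by
  classical
  -- the net property
  have hnet : ∀ U : Finset X, U ⊆ A → u ≤ U.card →
      1 / 2 * (u : ℝ) ^ s ≤ ((threeNet N B ε s U).card : ℝ) := by
    intro U hU hc
    have h := net N d s hd hN A B U hU hdA ε hε0 (by linarith) hs
    have h' : (1 : ℝ) / 2 * (u : ℝ) ^ s ≤ 1 / 2 * (U.card : ℝ) ^ s := by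
      have : (u : ℝ) ≤ U.card := by exact_mod_cast hc
      gcongr
    refine h'.trans (h.trans (le_of_eq ?_))
    unfold threeNet
    congr!
  have hall : 1 / 2 * (u : ℝ) ^ s ≤ ((Fintype.piFinset (fun _ : Fin s => A)).card : ℝ) := by
    rw [Fintype.card_piFinset, Finset.prod_const, Finset.card_univ, Fintype.card_fin]
    push_cast
    have : (u : ℝ) ≤ A.card := by
      have : u ≤ A.card := by omega
      exact_mod_cast this
    have h3 : (u : ℝ) ^ s ≤ (A.card : ℝ) ^ s := by gcongr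
    have h4 : (0 : ℝ) ≤ (u : ℝ) ^ s := by positivity
    linarith
  have hmem : ∀ (U : Finset X) (y : Fin s → X), y ∈ threeNet N B ε s U →
      (∀ i, y i ∈ U) ∧ ∀ c ∈ N, (∀ i, (y i ∈ c ↔ y i ∈ B)) →
        ((U ∩ (c ∆ B)).card : ℝ) ≤ ε * U.card := by
    intro U y hy
    simpa [threeNet] using hy
  -- hypotheses
  let H1 : (Fin s → X) → Finset X := fun a => learn N (univ.image a) (univ.image a ∩ B)
  let H2 : (Fin s → X) → (Fin s → X) → Finset X := fun b c =>
    learn N (univ.image b ∪ univ.image c) ((univ.image b ∪ univ.image c) ∩ B)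
  let E : (Fin s → X) → Finset X := fun a => A ∩ (H1 a ∆ B)
  let V : (Fin s → X) → (Fin s → X) → (Fin s → X) → Finset X := fun a b c => A ∩ (H1 a ∆ H2 b c)
  let F1 : (Fin s → X) → Finset (Fin s → X) := fun a =>
    if (E a).card < u then threeNet N B ε s A else threeNet N B ε s (E a)
  let F2 : (Fin s → X) → (Fin s → X) → Finset (Fin s → X) := fun a _ =>
    if (E a).card < u then Fintype.piFinset (fun _ : Fin s => A) else threeNet N B ε s (A \ E a)
  let F3 : (Fin s → X) → (Fin s → X) → (Fin s → X) → Finset (Fin s → X) := fun a b c =>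
    if (V a b c).card < u then Fintype.piFinset (fun _ : Fin s => A)
    else threeNet N B ε s (V a b c)
  have hEA : ∀ a, E a ⊆ A := fun a => Finset.inter_subset_left
  have hVA : ∀ a b c, V a b c ⊆ A := fun a b c => Finset.inter_subset_left
  have him : ∀ (U : Finset X) (y : Fin s → X), (∀ i, y i ∈ U) → univ.image y ⊆ U := by
    intro U y hy x hx
    obtain ⟨i, _, rfl⟩ := Finset.mem_image.1 hx
    exact hy i
  have hA0 : (0 : ℝ) ≤ A.card := by positivity
  have hu0 : (1 : ℝ) ≤ u := by exact_mod_cast hu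
  have h2' : 2 * (u : ℝ) ≤ A.card := by exact_mod_cast h2
  -- size of E
  have hE : ∀ a ∈ threeNet N B ε s A, ((E a).card : ℝ) ≤ ε * A.card := by
    intro a ha
    obtain ⟨hy, hc⟩ := hmem A a ha
    obtain ⟨hl1, hl2⟩ := three_learn N A B hAB (univ.image a) (him A a hy)
    exact hc _ hl1 fun i => hl2 _ (Finset.mem_image_of_mem _ (Finset.mem_univ i))
  refine three_count (1 / 2 * (u : ℝ) ^ s) (by positivity) _ (threeNet N B ε s A) F1 F2 F3
    (hnet A subset_rfl (by omega)) ?_ ?_ ?_ ?_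
  · intro a ha
    show _ ≤ ((F1 a).card : ℝ)
    by_cases hc : (E a).card < u
    · simp only [F1, if_pos hc]
      exact hnet A subset_rfl (by omega)
    · simp only [F1, if_neg hc]
      exact hnet (E a) (hEA a) (by omega)
  · intro a ha b _
    by_cases hc : (E a).card < u
    · simp only [F2, if_pos hc]
      exact hall
    · simp only [F2, if_neg hc]
      refine hnet (A \ E a) Finset.sdiff_subset ?_
      have e1 : ((E a).card : ℝ) ≤ ε * A.card := hE a ha
      have e2 : ε * (A.card : ℝ) ≤ 1 / 2 * A.card := by gcongr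
      have e3 : (A \ E a).card = A.card - (E a).card := Finset.card_sdiff_of_subset (hEA a)
      have e4 : (2 * (E a).card : ℝ) ≤ A.card := by linarith
      have e5 : 2 * (E a).card ≤ A.card := by exact_mod_cast e4
      omega
  · intro a ha b _ c _
    by_cases hc : (V a b c).card < u
    · simp only [F3, if_pos hc]
      exact hall
    · simp only [F3, if_neg hc]
      exact hnet _ (hVA a b c) (by omega)
  · intro y hy0 hy1 hy2 hy3
    have hb0 := hmem A _ hy0
    have hEy := hE _ hy0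
    have hy1A : ∀ i, y 1 i ∈ A := by
      intro i
      by_cases hc : (E (y 0)).card < u
      · simp only [F1, if_pos hc] at hy1
        exact (hmem A _ hy1).1 i
      · simp only [F1, if_neg hc] at hy1
        exact hEA _ ((hmem _ _ hy1).1 i)
    have hy2A : ∀ i, y 2 i ∈ A := by
      intro i
      by_cases hc : (E (y 0)).card < u
      · simp only [F2, if_pos hc, Fintype.mem_piFinset] at hy2
        exact hy2 i
      · simp only [F2, if_neg hc] at hy2
        exact (Finset.mem_sdiff.1 ((hmem _ _ hy2).1 i)).1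
    have hy3A : ∀ i, y 3 i ∈ A := by
      intro i
      by_cases hc : (V (y 0) (y 1) (y 2)).card < u
      · simp only [F3, if_pos hc, Fintype.mem_piFinset] at hy3
        exact hy3 i
      · simp only [F3, if_neg hc] at hy3
        exact hVA _ _ _ ((hmem _ _ hy3).1 i)
    have hW2 : univ.image (y 1) ∪ univ.image (y 2) ⊆ A :=
      Finset.union_subset (him A _ hy1A) (him A _ hy2A)
    obtain ⟨hl2N, hl2⟩ := three_learn N A B hAB _ hW2
    obtain ⟨hl3N, hl3⟩ := three_learn N A B hAB (univ.image (y 3)) (him A _ hy3A)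
    set g1 := H1 (y 0) with hg1
    set g2 := H2 (y 1) (y 2) with hg2
    set g3 := learn N (univ.image (y 3)) (univ.image (y 3) ∩ B) with hg3
    have hl2a : ∀ i, (y 1 i ∈ g2 ↔ y 1 i ∈ B) := fun i =>
      hl2 _ (Finset.mem_union_left _ (Finset.mem_image_of_mem _ (Finset.mem_univ i)))
    have hl2b : ∀ i, (y 2 i ∈ g2 ↔ y 2 i ∈ B) := fun i =>
      hl2 _ (Finset.mem_union_right _ (Finset.mem_image_of_mem _ (Finset.mem_univ i)))
    have hl3a : ∀ i, (y 3 i ∈ g3 ↔ y 3 i ∈ B) := fun i =>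
      hl3 _ (Finset.mem_image_of_mem _ (Finset.mem_univ i))
    rw [Finset.mem_filter]
    refine ⟨Finset.mem_univ _, ?_, ?_⟩
    · intro a i
      fin_cases a
      · exact hb0.1 i
      · exact hy1A i
      · exact hy2A i
      · exact hy3A i
    · have hhyp : hyp3 N s y B = maj3 g1 g2 g3 := rfl
      rw [hhyp]
      -- all error sets
      have hVdef : V (y 0) (y 1) (y 2) = A ∩ (g1 ∆ g2) := rfl
      have hEdef : E (y 0) = A ∩ (g1 ∆ B) := rfl
      have hsub1 := three_sub1 A B g1 g2 g3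
      have hsub2 := three_sub2 A B g1 g2 g3
      have hsub3 := three_sub3 A B g1 g2 g3
      have hsub4 := three_sub4 A B g1 g2 g3
      -- size of V
      have hV : ((A ∩ (g1 ∆ g2)).card : ℝ) ≤ 2 * (ε * A.card) := by
        by_cases hc : (E (y 0)).card < u
        · simp only [F1, if_pos hc] at hy1
          have e1 := (hmem A _ hy1).2 g2 hl2N hl2a
          have hs' := three_sub5 A B g1 g2
          have e2 : ((A ∩ (g1 ∆ g2)).card : ℝ) ≤
              ((A ∩ (g1 ∆ B)).card : ℝ) + ((A ∩ (g2 ∆ B)).card : ℝ) := by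
            exact_mod_cast (Finset.card_le_card hs').trans (Finset.card_union_le _ _)
          rw [hEdef] at hEy
          linarith
        · simp only [F2, if_neg hc] at hy2
          have e1 := (hmem _ _ hy2).2 g2 hl2N hl2b
          have hs' : A ∩ (g1 ∆ g2) ⊆ A ∩ (g1 ∆ B) ∪ (A \ E (y 0)) ∩ (g2 ∆ B) :=
            three_sub6 A B g1 g2
          have e2 : ((A ∩ (g1 ∆ g2)).card : ℝ) ≤
              ((A ∩ (g1 ∆ B)).card : ℝ) + (((A \ E (y 0)) ∩ (g2 ∆ B)).card : ℝ) := by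
            exact_mod_cast (Finset.card_le_card hs').trans (Finset.card_union_le _ _)
          have e3 : ((A \ E (y 0)).card : ℝ) ≤ A.card := by
            exact_mod_cast Finset.card_le_card Finset.sdiff_subset
          have e4 : ε * ((A \ E (y 0)).card : ℝ) ≤ ε * A.card := by gcongr
          rw [hEdef] at hEy
          linarith
      have hεA : ε * (ε * A.card) ≤ u / 3 := by nlinarith
      -- third hypothesis
      have hT : u ≤ (V (y 0) (y 1) (y 2)).card →
          (((A ∩ (g1 ∆ g2)) ∩ (g3 ∆ B)).card : ℝ) ≤ 2 * (u / 3) := by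
        intro hc
        have hc' : ¬ (V (y 0) (y 1) (y 2)).card < u := by omega
        simp only [F3, if_neg hc'] at hy3
        have e1 := (hmem _ _ hy3).2 g3 hl3N hl3a
        rw [hVdef] at e1
        have e2 : ε * ((A ∩ (g1 ∆ g2)).card : ℝ) ≤ ε * (2 * (ε * A.card)) := by gcongr
        linarith
      have key : ((A ∩ (maj3 g1 g2 g3 ∆ B)).card : ℝ) ≤ 2 * u := by
        by_cases hc : (E (y 0)).card < u
        · rw [hEdef] at hc
          have hc1 : ((A ∩ (g1 ∆ B)).card : ℝ) < u := by exact_mod_cast hc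
          by_cases hv : (V (y 0) (y 1) (y 2)).card < u
          · rw [hVdef] at hv
            have hv1 : ((A ∩ (g1 ∆ g2)).card : ℝ) < u := by exact_mod_cast hv
            have e2 : ((A ∩ (maj3 g1 g2 g3 ∆ B)).card : ℝ) ≤
                ((A ∩ (g1 ∆ B)).card : ℝ) + ((A ∩ (g1 ∆ g2)).card : ℝ) := by
              exact_mod_cast (Finset.card_le_card hsub1).trans (Finset.card_union_le _ _)
            linarith
          · have e1 := hT (by omega)
            have e2 : ((A ∩ (maj3 g1 g2 g3 ∆ B)).card : ℝ) ≤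
                ((A ∩ (g1 ∆ B)).card : ℝ) + (((A ∩ (g1 ∆ g2)) ∩ (g3 ∆ B)).card : ℝ) := by
              exact_mod_cast (Finset.card_le_card hsub2).trans (Finset.card_union_le _ _)
            linarith
        · simp only [F1, if_neg hc] at hy1
          have e0 := (hmem _ _ hy1).2 g2 hl2N hl2a
          have e0' : ε * ((E (y 0)).card : ℝ) ≤ ε * (ε * A.card) := by gcongr
          rw [hEdef] at e0 e0'
          by_cases hv : (V (y 0) (y 1) (y 2)).card < u
          · rw [hVdef] at hv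
            have hv1 : ((A ∩ (g1 ∆ g2)).card : ℝ) < u := by exact_mod_cast hv
            have e2 : ((A ∩ (maj3 g1 g2 g3 ∆ B)).card : ℝ) ≤
                (((A ∩ (g1 ∆ B)) ∩ (g2 ∆ B)).card : ℝ) + ((A ∩ (g1 ∆ g2)).card : ℝ) := by
              exact_mod_cast (Finset.card_le_card hsub3).trans (Finset.card_union_le _ _)
            linarith
          · have e1 := hT (by omega)
            have e2 : ((A ∩ (maj3 g1 g2 g3 ∆ B)).card : ℝ) ≤
                (((A ∩ (g1 ∆ B)) ∩ (g2 ∆ B)).card : ℝ) +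
                  (((A ∩ (g1 ∆ g2)) ∩ (g3 ∆ B)).card : ℝ) := by
              exact_mod_cast (Finset.card_le_card hsub4).trans (Finset.card_union_le _ _)
            linarith
      exact_mod_cast key

end Pool.Agent.MPaa62e0
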