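import Pool.Agent.Lib.MP_aa62e0_lc.ScoreGe
import Pool.Agent.Lib.MP_aa62e0_lc.Three
import Pool.Agent.Lib.MP_aa62e0_lc.NumericB

set_option autoImplicit false

open Finset
open scoped symmDiff

namespace Pool.Agent.MPaa62e0

variable {X : Type} [Fintype X] [DecidableEq X]

/-- The support of a four-block advice. -/
def zoneB_supp (s : ℕ) (y : Fin 4 → Fin s → X) : Finset X :=
  (Finset.univ : Finset (Fin 4)).biUnion (fun a => (Finset.univ : Finset (Fin s)).image (y a))

omit [Fintype X] in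
theorem zoneB_mem_supp {s : ℕ} {y : Fin 4 → Fin s → X} {x : X} :
    x ∈ zoneB_supp s y ↔ ∃ a i, y a i = x := by
  simp [zoneB_supp]

omit [Fintype X] in
theorem zoneB_supp_subset {s : ℕ} {y : Fin 4 → Fin s → X} {S : Finset X} :
    zoneB_supp s y ⊆ S ↔ ∀ a i, y a i ∈ S := by
  constructor
  · intro h a i
    exact h (zoneB_mem_supp.2 ⟨a, i, rfl⟩)
  · intro h x hx
    obtain ⟨a, i, rfl⟩ := zoneB_mem_supp.1 hx
    exact h a i

omit [Fintype X] in
theorem zoneB_card_supp (s : ℕ) (y : Fin 4 → Fin s → X) : (zoneB_supp s y).card ≤ 4 * s := by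
  unfold zoneB_supp
  refine Finset.card_biUnion_le.trans ?_
  refine (Finset.sum_le_card_nsmul _ _ s (fun a _ => ?_)).trans ?_
  · exact Finset.card_image_le.trans (by simp)
  · simp

theorem zoneB_count (s : ℕ) (S : Finset X) :
    (Finset.univ.filter (fun y : Fin 4 → Fin s → X => zoneB_supp s y ⊆ S)).card =
      S.card ^ (4 * s) := by
  have h1 : (Finset.univ.filter (fun y : Fin 4 → Fin s → X => zoneB_supp s y ⊆ S)) =
      Fintype.piFinset (fun _ : Fin 4 => Fintype.piFinset (fun _ : Fin s => S)) := by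
    ext y
    simp [zoneB_supp_subset, Fintype.mem_piFinset]
  rw [h1, Fintype.card_piFinset]
  simp only [Fintype.card_piFinset, Finset.prod_const, Finset.card_univ, Fintype.card_fin]
  rw [← pow_mul, mul_comm]

theorem zoneB_hyp3 (C : Finset (Finset X)) (s : ℕ) (y : Fin 4 → Fin s → X) (S B : Finset X)
    (h : zoneB_supp s y ⊆ S) : hyp3 C s y (S ∩ B) = hyp3 C s y B := by
  have h1 : ∀ a : Fin 4, (Finset.univ.image (y a)) ⊆ S := by
    intro a x hx
    rw [Finset.mem_image] at hx
    obtain ⟨i, _, rfl⟩ := hx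
    exact zoneB_supp_subset.1 h a i
  have h2 : ∀ W : Finset X, W ⊆ S → W ∩ (S ∩ B) = W ∩ B := by
    intro W hW
    rw [← Finset.inter_assoc, Finset.inter_eq_left.2 hW]
  unfold hyp3
  rw [h2 _ (h1 0), h2 _ (Finset.union_subset (h1 1) (h1 2)), h2 _ (h1 3)]

/-- Small samples: three rounds of boosting. -/
theorem zoneB (K d P : ℕ) (hK : 2 ^ 40 ≤ K) (hK' : 128 ∣ K) (hd : 1 ≤ d) (C : Finset (Finset X))
    (hC : C.vcDim ≤ d) :
    ∃ μ : Finset X → Finset X → Finset X → ℝ, SubProb μ ∧
      ∀ A B : Finset X, (∃ c ∈ C, B = A ∩ c) → 4 * (K * (P + 1) * d) ≤ A.card →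
        A.card ≤ (K * (P + 1)) * (K * (P + 1) * d) →
        ((2 : ℝ) ^ P + 2) ^ 2 * A.card ≤ score (K * (P + 1) * d) A B μ := by
  classical
  obtain ⟨K', hK'⟩ := hK'
  obtain ⟨s, hsdef⟩ : ∃ s : ℕ, s = K' * (P + 1) * d := ⟨_, rfl⟩
  have hs : 128 * s = K * (P + 1) * d := by rw [hsdef, hK']; ring
  obtain ⟨k, hk⟩ : ∃ k : ℕ, k = K * (P + 1) * d := ⟨_, rfl⟩
  have hK1 : 1 ≤ K := le_trans Nat.one_le_two_pow hK
  have hκ1 : 1 ≤ K * (P + 1) := Nat.mul_pos hK1 (Nat.succ_pos P)
  have hdk : d ≤ k := by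
    rw [hk]
    exact Nat.le_mul_of_pos_left d hκ1
  have hs1 : 1 ≤ s := by omega
  have hkpos : (0 : ℝ) < (k : ℝ) := by
    have : 1 ≤ k := le_trans hd hdk
    exact_mod_cast this
  obtain ⟨w, hw⟩ : ∃ w : ℝ, w = 1 / ((k : ℝ) ^ (4 * s)) := ⟨_, rfl⟩
  have hw0 : 0 ≤ w := by rw [hw]; positivity
  refine ⟨fun S V h => if S.card = k then
      w * ((Finset.univ.filter (fun y : Fin 4 → Fin s → X => zoneB_supp s y ⊆ S ∧
        h ∈ ({hyp3 C s y V} : Finset (Finset X)))).card : ℝ) else 0, ?_, ?_⟩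
  · refine subProb_of k 1 w hw0 (zoneB_supp s) (fun y V => {hyp3 C s y V}) (fun y V => by simp) ?_
    intro S hS
    rw [zoneB_count, hS, hw]
    push_cast
    rw [mul_one, one_div, inv_mul_cancel₀]
    positivity
  · intro A B hAB h4 hA
    rw [← hk] at h4
    have hkA : k ≤ A.card := by omega
    have hge := score_ge (Y := Fin 4 → Fin s → X) k (20 * s) (by omega) A B hkA
      (fun S V h => if S.card = k then
        w * ((Finset.univ.filter (fun y : Fin 4 → Fin s → X => zoneB_supp s y ⊆ S ∧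
          h ∈ ({hyp3 C s y V} : Finset (Finset X)))).card : ℝ) else 0) w hw0
      (zoneB_supp s) (fun y V => {hyp3 C s y V})
      (fun S V h hS => by simp only [hS, if_true])
      (Finset.univ.filter (fun y : Fin 4 → Fin s → X =>
        (∀ a i, y a i ∈ A) ∧ (A ∩ (hyp3 C s y B ∆ B)).card ≤ 2 * (8 * s)))
      (fun y => zoneB_supp s y ∪ (A ∩ (hyp3 C s y B ∆ B)))
      (by
        intro y hy
        rw [Finset.mem_filter] at hy
        exact Finset.union_subset (zoneB_supp_subset.2 hy.2.1) Finset.inter_subset_left)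
      (by
        intro y hy
        rw [Finset.mem_filter] at hy
        refine (Finset.card_union_le _ _).trans ?_
        have := zoneB_card_supp s y
        have := hy.2.2
        omega)
      (by
        intro y hy S hZ hS
        have h1 : zoneB_supp s y ⊆ S := Finset.subset_union_left.trans hZ
        refine ⟨h1, hyp3 C s y (S ∩ B), by simp, ?_⟩
        rw [zoneB_hyp3 C s y S B h1]
        exact Finset.subset_union_right.trans hZ)
    rw [← hk]
    refine le_trans ?_ hge
    -- the number of good advices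
    have hKr : (1 : ℝ) ≤ (K : ℝ) := by exact_mod_cast hK1
    have hκr : (1 : ℝ) ≤ (K : ℝ) * ((P : ℝ) + 1) := by exact_mod_cast hκ1
    have hκ0 : (0 : ℝ) < (K : ℝ) * ((P : ℝ) + 1) := lt_of_lt_of_le one_pos hκr
    have hsr : 128 * (s : ℝ) = K * (P + 1) * d := by exact_mod_cast hs
    have hAr : (A.card : ℝ) ≤ (K * (P + 1)) * (K * (P + 1) * d) := by exact_mod_cast hA
    have hdA : d ≤ A.card := hdk.trans hkA
    have hsq : (1 / Real.sqrt (48 * (K * (P + 1)))) ^ 2 = 1 / (48 * ((K : ℝ) * (P + 1))) := by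
      rw [div_pow, one_pow, Real.sq_sqrt (by positivity)]
    have hthree := three C d s (8 * s) hd hC A B hAB hdA (by omega)
      (1 / Real.sqrt (48 * (K * (P + 1)))) (by positivity)
      (by
        rw [div_le_div_iff₀ (by positivity) (by norm_num)]
        rw [one_mul, one_mul]
        refine Real.le_sqrt_of_sq_le ?_
        nlinarith)
      (numericB1 K d P (A.card : ℝ) (s : ℝ) hK hd hsr hAr (by exact_mod_cast hdA))
      (by
        rw [hsq]
        push_cast
        rw [mul_one_div, div_mul_eq_mul_div, div_le_iff₀ (by positivity)]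
        calc 3 * (A.card : ℝ) ≤ 3 * ((K * (P + 1)) * (K * (P + 1) * d)) := by linarith
          _ = 3 * ((K * (P + 1)) * (128 * s)) := by rw [hsr]
          _ = 8 * s * (48 * (K * (P + 1))) := by ring)
      (by omega)
    have hB2 := numericB2 K d P s hK hd hs (A.card : ℝ) (by
        have : ((4 * k : ℕ) : ℝ) ≤ (A.card : ℝ) := by exact_mod_cast h4
        rw [hk] at this
        push_cast at this
        linarith) hAr
    refine le_trans hB2 ?_
    rw [← hk, ← hw]
    refine mul_le_mul_of_nonneg_right ?_ (by positivity)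
    exact mul_le_mul_of_nonneg_left hthree hw0

end Pool.Agent.MPaa62e0
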