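import Pool.Agent.Lib.MP_aa62e0_lc.ZoneA
import Pool.Agent.Lib.MP_aa62e0_lc.ZoneB
import Pool.Agent.Lib.MP_aa62e0_lc.Select
import Pool.Agent.Lib.MP_aa62e0_lc.UnionB

set_option autoImplicit false

open Finset
open scoped symmDiff

namespace Pool.Agent.MPaa62e0

variable {X : Type} [Fintype X] [DecidableEq X]

theorem score_add (k : ℕ) (A B : Finset X) (μ ν : Finset X → Finset X → Finset X → ℝ) :
    score k A B (fun S V h => μ S V h + ν S V h) = score k A B μ + score k A B ν := by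
  simp only [score, Finset.sum_add_distrib]

theorem score_smul (k : ℕ) (A B : Finset X) (r : ℝ) (μ : Finset X → Finset X → Finset X → ℝ) :
    score k A B (fun S V h => r * μ S V h) = r * score k A B μ := by
  simp only [score, Finset.mul_sum]

theorem score_sum {τ : Type} (s : Finset τ) (k : ℕ) (A B : Finset X)
    (μ : τ → Finset X → Finset X → Finset X → ℝ) :
    score k A B (fun S V h => ∑ x ∈ s, μ x S V h) = ∑ x ∈ s, score k A B (μ x) := by
  simp only [score]
  rw [Finset.sum_comm]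
  refine Finset.sum_congr rfl fun S _ => ?_
  rw [Finset.sum_comm]

theorem score_nonneg (k : ℕ) (A B : Finset X) (μ : Finset X → Finset X → Finset X → ℝ)
    (hμ : ∀ S V h, 0 ≤ μ S V h) : 0 ≤ score k A B μ :=
  Finset.sum_nonneg fun _ _ => Finset.sum_nonneg fun _ _ => hμ _ _ _

open Classical in
/-- Hypotheses which are good for the sample T at the labelled set SV. -/
noncomputable def goodH (k : ℕ) (T SV : Finset X × Finset X) : Finset (Finset X) :=
  if SV.1 ∈ T.1.powersetCard k ∧ SV.2 = SV.1 ∩ T.2 then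
    Finset.univ.filter (fun h : Finset X => T.1 ∩ (h ∆ T.2) ⊆ SV.1) else ∅

theorem mem_goodH (k : ℕ) (T SV : Finset X × Finset X) (h : Finset X) (hh : h ∈ goodH k T SV) :
    SV.1 ∈ T.1.powersetCard k ∧ SV.2 = SV.1 ∩ T.2 ∧ T.1 ∩ (h ∆ T.2) ⊆ SV.1 := by
  by_cases hc : SV.1 ∈ T.1.powersetCard k ∧ SV.2 = SV.1 ∩ T.2
  · rw [goodH, if_pos hc] at hh
    exact ⟨hc.1, hc.2, (Finset.mem_filter.1 hh).2⟩
  · rw [goodH, if_neg hc] at hh
    exact absurd hh (Finset.notMem_empty _)

theorem sum_goodH (k : ℕ) (μ : Finset X → Finset X → Finset X → ℝ) (T : Finset X × Finset X) :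
    ∑ SV : Finset X × Finset X, ∑ h ∈ goodH k T SV, μ SV.1 SV.2 h = score k T.1 T.2 μ := by
  rw [Fintype.sum_prod_type, score]
  have h1 : ∀ S : Finset X, ∑ V : Finset X, ∑ h ∈ goodH k T (S, V), μ (S, V).1 (S, V).2 h =
      if S ∈ T.1.powersetCard k then
        ∑ h ∈ Finset.univ.filter (fun h : Finset X => T.1 ∩ (h ∆ T.2) ⊆ S), μ S (S ∩ T.2) h
      else 0 := by
    intro S
    rw [Finset.sum_eq_single (S ∩ T.2)]
    · by_cases hS : S ∈ T.1.powersetCard k
      · rw [goodH, if_pos ⟨hS, rfl⟩, if_pos hS]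
      · rw [goodH, if_neg (fun h => hS h.1), if_neg hS, Finset.sum_empty]
    · intro V _ hV
      rw [goodH, if_neg (fun h => hV h.2), Finset.sum_empty]
    · intro h
      exact absurd (Finset.mem_univ _) h
  rw [Finset.sum_congr rfl fun S _ => h1 S, ← Finset.sum_filter]
  refine Finset.sum_congr ?_ fun _ _ => rfl
  ext S
  simp

open Classical in
/-- The samples of size at least 4 k. -/
noncomputable def bigSamples (k : ℕ) (C : Finset (Finset X)) : Finset (Finset X × Finset X) :=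
  Finset.univ.filter (fun T => (∃ c ∈ C, T.2 = T.1 ∩ c) ∧ 4 * k ≤ T.1.card)

theorem mem_bigSamples (k : ℕ) (C : Finset (Finset X)) (T : Finset X × Finset X) :
    T ∈ bigSamples k C ↔ (∃ c ∈ C, T.2 = T.1 ∩ c) ∧ 4 * k ≤ T.1.card := by
  rw [bigSamples, Finset.mem_filter]
  exact and_iff_right (Finset.mem_univ _)

theorem sum_bigSamples (k : ℕ) (hk0 : 1 ≤ k) (C : Finset (Finset X)) (hX : 1 ≤ Fintype.card X)
    (μ : Finset X → Finset X → Finset X → ℝ)
    (hscore : ∀ A B : Finset X, (∃ c ∈ C, B = A ∩ c) → 4 * k ≤ A.card →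
        (A.card : ℝ) * Real.log (4 * Fintype.card X) ≤ score k A B μ) :
    ∑ T ∈ bigSamples k C, Real.exp (-(∑ SV : Finset X × Finset X,
      ∑ h ∈ goodH k T SV, μ SV.1 SV.2 h)) < 1 := by
  refine lt_of_le_of_lt ?_ (sum_exp_lt (X := X) hX)
  have hsub : bigSamples k C ⊆ (Finset.univ : Finset (Finset X × Finset X)).filter
      (fun T => T.2 ⊆ T.1 ∧ T.1.Nonempty) := by
    intro T hT
    rw [mem_bigSamples] at hT
    rw [Finset.mem_filter]
    obtain ⟨⟨c, _, hc⟩, hT2⟩ := hT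
    refine ⟨Finset.mem_univ _, ?_, ?_⟩
    · rw [hc]
      exact Finset.inter_subset_left
    · rw [← Finset.card_pos]
      omega
  refine le_trans ?_ (Finset.sum_le_sum_of_subset_of_nonneg hsub
    fun _ _ _ => (Real.exp_pos _).le)
  refine Finset.sum_le_sum fun T hT => ?_
  rw [mem_bigSamples] at hT
  rw [sum_goodH k μ T]
  exact Real.exp_le_exp.2 (neg_le_neg (hscore T.1 T.2 hT.1 hT.2))

/-- One decoding function. -/
theorem exists_H_of (k : ℕ) (hk0 : 1 ≤ k) (C : Finset (Finset X)) (hX : 1 ≤ Fintype.card X)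
    (μ : Finset X → Finset X → Finset X → ℝ) (hμ : SubProb μ)
    (hscore : ∀ A B : Finset X, (∃ c ∈ C, B = A ∩ c) → 4 * k ≤ A.card →
        (A.card : ℝ) * Real.log (4 * Fintype.card X) ≤ score k A B μ) :
    ∃ H : Finset X → Finset X → Finset X, ∀ A B : Finset X, (∃ c ∈ C, B = A ∩ c) →
      4 * k ≤ A.card →
      ∃ S ∈ A.powersetCard k, A ∩ (H S (S ∩ B) ∆ B) ⊆ S := by
  obtain ⟨H, hH⟩ := select (κ := Finset X × Finset X) (η := Finset X)
    (τ := Finset X × Finset X) (bigSamples k C) (fun SV h => μ SV.1 SV.2 h)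
    (fun SV h => hμ.1 _ _ _) (fun SV => hμ.2 _ _) (goodH k)
    (sum_bigSamples k hk0 C hX μ hscore)
  refine ⟨fun S V => H (S, V), fun A B hAB hA => ?_⟩
  obtain ⟨⟨S, V⟩, hSV⟩ := hH (A, B) ((mem_bigSamples k C (A, B)).2 ⟨hAB, hA⟩)
  obtain ⟨h1, h2, h3⟩ := mem_goodH k (A, B) (S, V) _ hSV
  refine ⟨S, h1, ?_⟩
  have h2' : V = S ∩ B := h2
  rw [← h2']
  exact h3

end Pool.Agent.MPaa62e0
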