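import Mathlib

set_option autoImplicit false

namespace Pool.Agent.MPaa62e0

/-- As `numericA`, with the larger factor 2 ^ (12 (P + 1) d). -/
theorem numericAS (K d x P : ℕ) (hK : 2 ^ 40 ≤ K) (hd : 1 ≤ d)
    (h : (K * (P + 1)) * (K * (P + 1) * d) ≤ 4 * d * 2 ^ x) :
    2 * ((2 : ℝ) ^ (12 * (P + 1) * d) * (4 * d * 2 ^ x)) ≤
      (d : ℝ) ^ (4 * d * P) * (1 / 2) ^ P *
        ((2 * d * 2 ^ x : ℝ) / ((K * (P + 1) * d : ℕ) : ℝ)) ^ (K * (P + 1) * d - 8 * d * P) /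
        (((K * (P + 1) * d : ℕ) : ℝ) ^ (4 * d * P) * 2 ^ (2 * d * (2 * x + 7))) := by
  have hd0 : (0 : ℝ) < d := by exact_mod_cast hd
  have hκ1 : 2 ^ 40 ≤ K * (P + 1) := hK.trans (Nat.le_mul_of_pos_right K (Nat.succ_pos P))
  obtain ⟨κ, hκ⟩ : ∃ κ : ℝ, κ = ((K * (P + 1) : ℕ) : ℝ) := ⟨_, rfl⟩
  have hκ2 : (2 : ℝ) ^ 40 ≤ κ := by
    rw [hκ]
    exact_mod_cast hκ1
  have hκ0 : 0 < κ := lt_of_lt_of_le (by positivity) hκ2
  have hcast : ((K * (P + 1) * d : ℕ) : ℝ) = κ * d := by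
    rw [hκ, Nat.cast_mul (K * (P + 1)) d]
  obtain ⟨T, hT⟩ : ∃ T : ℝ, T = (2 * d * 2 ^ x : ℝ) / ((K * (P + 1) * d : ℕ) : ℝ) := ⟨_, rfl⟩
  have hTκ : T * κ = 2 * 2 ^ x := by
    rw [hT, hcast]
    field_simp
  have h1 : κ * κ ≤ 4 * 2 ^ x := by
    have h2 : (((K * (P + 1)) * (K * (P + 1) * d) : ℕ) : ℝ) ≤ ((4 * d * 2 ^ x : ℕ) : ℝ) := by
      exact_mod_cast h
    rw [Nat.cast_mul, hcast, ← hκ] at h2
    have h3 : (κ * κ) * d ≤ (4 * 2 ^ x) * d := by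
      calc (κ * κ) * d = κ * (κ * d) := by ring
        _ ≤ ((4 * d * 2 ^ x : ℕ) : ℝ) := h2
        _ = (4 * 2 ^ x) * d := by push_cast; ring
    exact le_of_mul_le_mul_right h3 hd0
  have h2 : κ ≤ 2 * T := by
    have h3 : κ * κ ≤ (2 * T) * κ := by
      calc κ * κ ≤ 4 * 2 ^ x := h1
        _ = 2 * (T * κ) := by rw [hTκ]; ring
        _ = (2 * T) * κ := by ring
    exact le_of_mul_le_mul_right h3 hκ0
  have hT1 : (2 : ℝ) ^ 39 ≤ T := by
    have : (2 : ℝ) ^ 40 ≤ 2 * T := hκ2.trans h2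
    have e : (2 : ℝ) ^ 40 = 2 * 2 ^ 39 := by norm_num
    rw [e] at this
    linarith
  have hT2 : (2 : ℝ) ≤ T := le_trans (by norm_num) hT1
  have hT0 : 0 < T := by linarith
  have hT3 : 1 ≤ T := by linarith
  have hx : (2 : ℝ) ^ x ≤ T ^ 2 := by
    have h3 : T * κ ≤ T * (2 * T) := mul_le_mul_of_nonneg_left h2 hT0.le
    rw [hTκ] at h3
    nlinarith
  have hκT : κ ≤ T ^ 2 := by nlinarith
  have hdd : (d : ℝ) ≤ 2 ^ d := by exact_mod_cast Nat.lt_two_pow_self.le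
  have key : 2 * ((2 : ℝ) ^ (12 * (P + 1) * d) * (4 * d * 2 ^ x)) *
      (κ ^ (4 * d * P) * 2 ^ (2 * d * (2 * x + 7))) * 2 ^ P ≤
      T ^ (K * (P + 1) * d - 8 * d * P) := by
    have e1 : 2 * ((2 : ℝ) ^ (12 * (P + 1) * d) * (4 * d * 2 ^ x)) *
        (κ ^ (4 * d * P) * 2 ^ (2 * d * (2 * x + 7))) * 2 ^ P =
        ((2 : ℝ) ^ (12 * (P + 1) * d + 3 + 14 * d + P) * d) * ((2 : ℝ) ^ x) ^ (4 * d + 1) *
          κ ^ (4 * d * P) := by
      rw [← pow_mul (2 : ℝ) x (4 * d + 1)]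
      ring
    have e2 : ((2 : ℝ) ^ (12 * (P + 1) * d + 3 + 14 * d + P) * d) ≤ T ^ ((P + 1) * d) := by
      calc ((2 : ℝ) ^ (12 * (P + 1) * d + 3 + 14 * d + P) * d)
          ≤ (2 : ℝ) ^ (12 * (P + 1) * d + 3 + 14 * d + P) * 2 ^ d :=
            mul_le_mul_of_nonneg_left hdd (by positivity)
        _ = (2 : ℝ) ^ (12 * (P + 1) * d + 3 + 14 * d + P + d) := by rw [← pow_add]
        _ ≤ (2 : ℝ) ^ (39 * ((P + 1) * d)) := by
            refine pow_le_pow_right₀ (by norm_num) ?_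
            have h5 : P ≤ P * d := Nat.le_mul_of_pos_right P hd
            nlinarith
        _ = ((2 : ℝ) ^ 39) ^ ((P + 1) * d) := by rw [pow_mul]
        _ ≤ T ^ ((P + 1) * d) := pow_le_pow_left₀ (by positivity) hT1 _
    have e3 : ((2 : ℝ) ^ x) ^ (4 * d + 1) ≤ T ^ (2 * (4 * d + 1)) := by
      rw [pow_mul T 2]
      exact pow_le_pow_left₀ (by positivity) hx _
    have e4 : κ ^ (4 * d * P) ≤ T ^ (2 * (4 * d * P)) := by
      rw [pow_mul T 2]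
      exact pow_le_pow_left₀ hκ0.le hκT _
    rw [e1]
    calc ((2 : ℝ) ^ (12 * (P + 1) * d + 3 + 14 * d + P) * d) * ((2 : ℝ) ^ x) ^ (4 * d + 1) *
          κ ^ (4 * d * P)
        ≤ T ^ ((P + 1) * d) * T ^ (2 * (4 * d + 1)) * T ^ (2 * (4 * d * P)) := by
          refine mul_le_mul (mul_le_mul e2 e3 (by positivity) (by positivity)) e4
            (by positivity) (by positivity)
      _ = T ^ ((P + 1) * d + 2 * (4 * d + 1) + 2 * (4 * d * P)) := by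
          rw [← pow_add, ← pow_add]
      _ ≤ T ^ (K * (P + 1) * d - 8 * d * P) := by
          refine pow_le_pow_right₀ hT3 ?_
          have h6 : 2 ^ 40 * ((P + 1) * d) ≤ K * ((P + 1) * d) := Nat.mul_le_mul_right _ hK
          have h7 : K * (P + 1) * d = K * ((P + 1) * d) := by ring
          have h8 : 8 * d * P + ((P + 1) * d + 2 * (4 * d + 1) + 2 * (4 * d * P)) ≤
              2 ^ 40 * ((P + 1) * d) := by
            have h9 : 8 * d * P + ((P + 1) * d + 2 * (4 * d + 1) + 2 * (4 * d * P)) =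
                17 * (d * P) + 9 * d + 2 := by ring
            have h10 : 2 ^ 40 * ((P + 1) * d) = 2 ^ 40 * (d * P) + 2 ^ 40 * d := by ring
            rw [h9, h10]
            have : (2 : ℕ) ^ 40 = 1099511627776 := by norm_num
            rw [this]
            generalize d * P = y
            omega
          rw [h7]
          omega
  rw [← hT, hcast, le_div_iff₀ (by positivity), mul_pow]
  have h2P : (2 : ℝ) ^ P * (1 / 2) ^ P = 1 := by
    rw [← mul_pow]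
    norm_num
  calc 2 * ((2 : ℝ) ^ (12 * (P + 1) * d) * (4 * d * 2 ^ x)) *
        (κ ^ (4 * d * P) * (d : ℝ) ^ (4 * d * P) * 2 ^ (2 * d * (2 * x + 7)))
      = (2 * ((2 : ℝ) ^ (12 * (P + 1) * d) * (4 * d * 2 ^ x)) *
        (κ ^ (4 * d * P) * 2 ^ (2 * d * (2 * x + 7))) * (2 ^ P * (1 / 2) ^ P)) *
          (d : ℝ) ^ (4 * d * P) := by rw [h2P]; ring
    _ = (2 * ((2 : ℝ) ^ (12 * (P + 1) * d) * (4 * d * 2 ^ x)) *
        (κ ^ (4 * d * P) * 2 ^ (2 * d * (2 * x + 7))) * 2 ^ P) *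
          ((1 / 2) ^ P * (d : ℝ) ^ (4 * d * P)) := by ring
    _ ≤ T ^ (K * (P + 1) * d - 8 * d * P) * ((1 / 2) ^ P * (d : ℝ) ^ (4 * d * P)) :=
        mul_le_mul_of_nonneg_right key (by positivity)
    _ = (d : ℝ) ^ (4 * d * P) * (1 / 2) ^ P * T ^ (K * (P + 1) * d - 8 * d * P) := by ring

end Pool.Agent.MPaa62e0
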