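import Pool.Agent.Lib.MP_aa62e0_lc.ZoneA
import Pool.Agent.Lib.MP_aa62e0_lc.NumericAS

set_option autoImplicit false

open Finset
open scoped symmDiff

namespace Pool.Agent.MPaa62e0

variable {X : Type} [Fintype X] [DecidableEq X]

/-- Large samples: one family of sub-probability distributions which is good for every sample. -/
theorem zoneAS (K d x P : ℕ) (hK : 2 ^ 40 ≤ K) (hd : 1 ≤ d) (C : Finset (Finset X))
    (hC : C.vcDim ≤ d) (hcard : C.card ≤ 2 ^ (d * 2 ^ P)) :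
    ∃ μ : Finset X → Finset X → Finset X → ℝ, SubProb μ ∧
      ∀ A B : Finset X, (∃ c ∈ C, B = A ∩ c) → 2 * d * 2 ^ x ≤ A.card → A.card ≤ 4 * d * 2 ^ x →
        (K * (P + 1)) * (K * (P + 1) * d) ≤ A.card →
        (2 : ℝ) ^ (12 * (P + 1) * d) * A.card ≤ score (K * (P + 1) * d) A B μ := by
  classical
  let ι : Type := {T : Finset X × Finset X // (∃ c ∈ C, T.2 = T.1 ∩ c) ∧
    2 * d * 2 ^ x ≤ T.1.card ∧ T.1.card ≤ 4 * d * 2 ^ x ∧
    (K * (P + 1)) * (K * (P + 1) * d) ≤ T.1.card}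
  have hK8 : 8 ≤ K := le_trans (by norm_num) hK
  have hκ : 8 ≤ K * (P + 1) := by nlinarith
  have hk1 : 8 ≤ K * (P + 1) * d := by nlinarith
  have hk : 8 * d * P ≤ K * (P + 1) * d := by
    have h1 : 8 * P ≤ K * (P + 1) := Nat.mul_le_mul hK8 (Nat.le_succ P)
    calc 8 * d * P = 8 * P * d := by ring
      _ ≤ K * (P + 1) * d := Nat.mul_le_mul_right d h1
  rcases isEmpty_or_nonempty ι with hι | hι
  · refine ⟨fun _ _ _ => 0, ⟨fun _ _ _ => le_rfl, fun _ _ => by simp⟩, ?_⟩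
    intro A B h1 h2 h3 h4
    exact hι.elim ⟨(A, B), h1, h2, h3, h4⟩
  · obtain ⟨i0⟩ := hι
    have hnum := numericAS K d x P hK hd (i0.2.2.2.2.trans i0.2.2.2.1)
    have hpos : (0 : ℝ) < (2 : ℝ) ^ (12 * (P + 1) * d) * (4 * d * 2 ^ x) := by
      have : (0 : ℝ) < d := by exact_mod_cast hd
      positivity
    have h4d : 4 * d ≤ (K * (P + 1)) * (K * (P + 1) * d) := by
      calc 4 * d ≤ 8 * (8 * d) := by omega
        _ ≤ (K * (P + 1)) * (K * (P + 1) * d) :=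
          Nat.mul_le_mul hκ (Nat.mul_le_mul_right d hκ)
    have hA3 : ∀ i : ι, 4 * d ≤ i.1.1.card := fun i => h4d.trans i.2.2.2.2
    have hkA : ∀ i : ι, K * (P + 1) * d ≤ i.1.1.card := fun i =>
      le_trans (Nat.le_mul_of_pos_left _ (by omega)) i.2.2.2.2
    obtain ⟨μ, hμ, h⟩ := minimax {μ : Finset X → Finset X → Finset X → ℝ | SubProb μ}
      zoneA_convex (zoneA_lin (K * (P + 1) * d) (fun i : ι => i.1.1) (fun i : ι => i.1.2)) _
      (fun q hq => by
        obtain ⟨μ, h1, h2⟩ := zoneA_pre d x P (K * (P + 1) * d) hd C hC hcard hk (by omega)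
          (fun i : ι => i.1.1) (fun i : ι => i.1.2) (fun i => i.2.1) (fun i => i.2.2.1)
          (fun i => i.2.2.2.1) hA3 hkA q hq
        exact ⟨μ, h1, h2⟩)
      ((2 : ℝ) ^ (12 * (P + 1) * d) * (4 * d * 2 ^ x)) (by linarith)
    refine ⟨μ, hμ, fun A B h1 h2 h3 h4 => ?_⟩
    have h5 := h ⟨(A, B), h1, h2, h3, h4⟩
    refine le_trans ?_ h5.le
    refine mul_le_mul_of_nonneg_left ?_ (by positivity)
    exact_mod_cast h3

end Pool.Agent.MPaa62e0
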