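import Pool.Agent.Lib.MP_aa62e0_lc.NumericB

set_option autoImplicit false

namespace Pool.Agent.MPaa62e0

/-- As `numericB2`, with the larger factor 2 ^ (12 (P + 1) d). -/
theorem numericBS (K d P s : ℕ) (hK : 2 ^ 40 ≤ K) (hd : 1 ≤ d)
    (hs : 128 * s = K * (P + 1) * d) (a : ℝ) (ha : 4 * (K * (P + 1) * d) ≤ a)
    (ha' : a ≤ (K * (P + 1)) * (K * (P + 1) * d)) :
    (2 : ℝ) ^ (12 * (P + 1) * d) * a ≤
      1 / (((K * (P + 1) * d : ℕ) : ℝ) ^ (4 * s)) * (1 / 2 * ((8 * s : ℕ) : ℝ) ^ s) ^ 4 *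
        (a / ((K * (P + 1) * d : ℕ) : ℝ)) ^ (K * (P + 1) * d - 20 * s) := by
  have hlow : 2 ^ 40 * (P + 1) * 1 ≤ K * (P + 1) * d :=
    Nat.mul_le_mul (Nat.mul_le_mul hK le_rfl) hd
  have hPs : 12 * (P + 1) * d ≤ s := by
    have h1 : 2 ^ 40 * ((P + 1) * d) ≤ 128 * s := by
      rw [hs, mul_assoc K]
      exact Nat.mul_le_mul hK le_rfl
    have h2 : 12 * (P + 1) * d = 12 * ((P + 1) * d) := by ring
    omega
  have hs1 : 1 ≤ s := by
    have : 2 ^ 40 * (P + 1) * 1 ≤ 128 * s := by rw [hs]; exact hlow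
    omega
  have hsub : K * (P + 1) * d - 20 * s = 108 * s := by rw [← hs]; omega
  have hak : 4 * ((K * (P + 1) * d : ℕ) : ℝ) ≤ a := by push_cast; exact ha
  rw [hsub, ← hs] at *
  clear ha ha'
  obtain ⟨y, hy⟩ : ∃ y : ℝ, y = ((8 * s : ℕ) : ℝ) := ⟨_, rfl⟩
  have hsr : (1 : ℝ) ≤ (s : ℝ) := by exact_mod_cast hs1
  have hy0 : 0 < y := by rw [hy]; push_cast; linarith
  have hk : ((128 * s : ℕ) : ℝ) = 16 * y := by rw [hy]; push_cast; ring
  rw [hk] at hak ⊢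
  rw [← hy]
  obtain ⟨t, ht⟩ : ∃ t : ℝ, t = a / (16 * y) := ⟨_, rfl⟩
  have hat : a = t * (16 * y) := by rw [ht]; field_simp
  rw [← ht]
  have ht4 : 4 ≤ t := by
    rw [ht, le_div_iff₀ (by positivity)]; exact hak
  have ht0 : 0 < t := by linarith
  -- simplify the right side
  have hR : 1 / (16 * y) ^ (4 * s) * (1 / 2 * y ^ s) ^ 4 = 1 / (16 * 16 ^ (4 * s)) := by
    rw [mul_pow, mul_pow, ← pow_mul, mul_comm s 4]
    have hy4 : y ^ (4 * s) ≠ 0 := pow_ne_zero _ hy0.ne'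
    field_simp
    norm_num
  rw [hR]
  have htp : t * 4 ^ (108 * s - 1) ≤ t ^ (108 * s) := by
    have h1 : 108 * s = (108 * s - 1) + 1 := by omega
    calc t * 4 ^ (108 * s - 1) ≤ t * t ^ (108 * s - 1) :=
          mul_le_mul_of_nonneg_left (pow_le_pow_left₀ (by norm_num) ht4 _) ht0.le
      _ = t ^ ((108 * s - 1) + 1) := by rw [pow_succ]; ring
      _ = t ^ (108 * s) := by rw [← h1]
  -- the key inequality
  have hss : (s : ℝ) ≤ 2 ^ s := by exact_mod_cast (Nat.lt_two_pow_self (n := s)).le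
  have hkey : 16 * 16 ^ (4 * s) * ((2 : ℝ) ^ (12 * (P + 1) * d) * (16 * y)) ≤
      4 ^ (108 * s - 1) := by
    have hP2' : (2 : ℝ) ^ (12 * (P + 1) * d) ≤ 2 ^ s := pow_le_pow_right₀ (by norm_num) hPs
    have hy2 : 16 * y ≤ 2 ^ (s + 7) := by
      rw [← hk, pow_add]
      push_cast
      linarith
    calc 16 * 16 ^ (4 * s) * ((2 : ℝ) ^ (12 * (P + 1) * d) * (16 * y))
        ≤ 16 * 16 ^ (4 * s) * (2 ^ s * 2 ^ (s + 7)) := by
          apply mul_le_mul_of_nonneg_left _ (by positivity)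
          exact mul_le_mul hP2' hy2 (by positivity) (by positivity)
      _ = 2 ^ (18 * s + 11) := by
          rw [show (16 : ℝ) = 2 ^ 4 by norm_num, ← pow_mul, ← pow_add, ← pow_add, ← pow_add]
          congr 1
          ring
      _ ≤ 2 ^ (2 * (108 * s - 1)) := pow_le_pow_right₀ (by norm_num) (by omega)
      _ = 4 ^ (108 * s - 1) := by rw [pow_mul]; norm_num
  have hpos : (0 : ℝ) < 16 * 16 ^ (4 * s) := by positivity
  rw [hat]
  calc (2 : ℝ) ^ (12 * (P + 1) * d) * (t * (16 * y))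
      = 1 / (16 * 16 ^ (4 * s)) *
          (t * (16 * 16 ^ (4 * s) * ((2 : ℝ) ^ (12 * (P + 1) * d) * (16 * y)))) := by
        field_simp
    _ ≤ 1 / (16 * 16 ^ (4 * s)) * (t * 4 ^ (108 * s - 1)) := by
        apply mul_le_mul_of_nonneg_left _ (by positivity)
        exact mul_le_mul_of_nonneg_left hkey ht0.le
    _ ≤ 1 / (16 * 16 ^ (4 * s)) * t ^ (108 * s) :=
        mul_le_mul_of_nonneg_left htp (by positivity)

end Pool.Agent.MPaa62e0
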