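import Pool.Agent.Lib.MP_aa62e0_lc.Main
import Pool.Agent.Lib.MP_aa62e0_lc.ZoneAS
import Pool.Agent.Lib.MP_aa62e0_lc.ZoneBS

set_option autoImplicit false

open Finset
open scoped symmDiff

namespace Pool.Agent.MPaa62e0

variable {X : Type} [Fintype X] [DecidableEq X]

/-- The random decoder exists (large and small samples together); the class has at most
2 ^ (d 2 ^ P) members and the domain at most 2 ^ (2 ^ (2 d + P + 2)) points. -/
theorem exists_decoderS (K d P : ℕ) (hK : 2 ^ 40 ≤ K) (hK' : 128 ∣ K) (hd : 1 ≤ d)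
    (C : Finset (Finset X)) (hC : C.vcDim ≤ d) (hcard : C.card ≤ 2 ^ (d * 2 ^ P))
    (hn : Fintype.card X ≤ 2 ^ 2 ^ (2 * d + P + 2)) (hX : 1 ≤ Fintype.card X) :
    ∃ μ : Finset X → Finset X → Finset X → ℝ, SubProb μ ∧
      ∀ A B : Finset X, (∃ c ∈ C, B = A ∩ c) → 4 * (K * (P + 1) * d) ≤ A.card →
        (A.card : ℝ) * Real.log (4 * Fintype.card X) ≤ score (K * (P + 1) * d) A B μ := by
  classical
  obtain ⟨μB, hB1, hB2⟩ := zoneBS K d P hK hK' hd C hC
  choose μA hA1 hA2 using fun x : ℕ => zoneAS K d x P hK hd C hC hcard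
  set n := Fintype.card X with hndef
  set Z := Nat.log 2 n + 1 with hZ
  obtain ⟨m, hm⟩ : ∃ m : ℕ, m = 2 * d + P + 2 := ⟨_, rfl⟩
  rw [← hm] at hn
  have hm4 : 4 ≤ m := by omega
  have h2m : 16 ≤ 2 ^ m := by
    calc 16 = 2 ^ 4 := by norm_num
      _ ≤ 2 ^ m := Nat.pow_le_pow_right (by norm_num) hm4
  have hZ2 : Z + 1 ≤ 2 ^ (m + 1) := by
    have h2 : Nat.log 2 n ≤ 2 ^ m := by
      have h3 := Nat.log_mono_right (b := 2) hn
      rwa [Nat.log_pow (by norm_num)] at h3
    rw [pow_succ]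
    omega
  have hlog : Real.log (4 * n) ≤ 2 ^ (m + 1) := by
    have h1 : (n : ℝ) ≤ 2 ^ 2 ^ m := by
      exact_mod_cast hn
    have hn0 : (0 : ℝ) < n := by exact_mod_cast hX
    have h2 : Real.log (4 * n) ≤ Real.log ((2 : ℝ) ^ (2 + 2 ^ m)) := by
      apply Real.log_le_log (by positivity)
      rw [pow_add]
      nlinarith
    rw [Real.log_pow] at h2
    have h3 : Real.log 2 ≤ 1 := by
      have := Real.log_two_lt_d9
      linarith
    have h16 : (16 : ℝ) ≤ 2 ^ m := by exact_mod_cast h2m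
    calc Real.log (4 * n) ≤ ((2 + 2 ^ m : ℕ) : ℝ) * Real.log 2 := h2
      _ ≤ ((2 + 2 ^ m : ℕ) : ℝ) * 1 := by gcongr
      _ = 2 ^ m + 2 := by push_cast; ring
      _ ≤ 2 ^ (m + 1) := by rw [pow_succ]; linarith
  refine ⟨fun S V h => (1 / (Z + 1 : ℝ)) * (μB S V h + ∑ x ∈ Finset.range Z, μA x S V h),
    ⟨?_, ?_⟩, ?_⟩
  · intro S V h
    have h1 := hB1.1 S V h
    have h2 : 0 ≤ ∑ x ∈ Finset.range Z, μA x S V h :=
      Finset.sum_nonneg fun x _ => (hA1 x).1 S V h
    positivity
  · intro S V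
    rw [← Finset.mul_sum, Finset.sum_add_distrib, Finset.sum_comm]
    have h1 : ∑ x ∈ Finset.range Z, ∑ h, μA x S V h ≤ ∑ x ∈ Finset.range Z, (1 : ℝ) :=
      Finset.sum_le_sum fun x _ => (hA1 x).2 S V
    have h2 := hB1.2 S V
    rw [Finset.sum_const, Finset.card_range, nsmul_eq_mul, mul_one] at h1
    have h3 : (0 : ℝ) < Z + 1 := by positivity
    rw [one_div, inv_mul_le_iff₀ h3]
    linarith
  · intro A B hAB hA
    rw [score_smul, score_add, score_sum]
    have hZpos : (0 : ℝ) < Z + 1 := by positivity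
    have key : (2 : ℝ) ^ (12 * (P + 1) * d) * A.card ≤ score (K * (P + 1) * d) A B μB +
        ∑ x ∈ Finset.range Z, score (K * (P + 1) * d) A B (μA x) := by
      by_cases hsmall : A.card ≤ (K * (P + 1)) * (K * (P + 1) * d)
      · have h1 := hB2 A B hAB hA hsmall
        have h2 : 0 ≤ ∑ x ∈ Finset.range Z, score (K * (P + 1) * d) A B (μA x) :=
          Finset.sum_nonneg fun x _ => score_nonneg _ _ _ _ (hA1 x).1
        linarith
      · push Not at hsmall
        have hAn : A.card ≤ n := Finset.card_le_univ A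
        have hd2 : 2 * d ≤ A.card := by
          have : 1 * d ≤ K * (P + 1) * d := by
            apply Nat.mul_le_mul_right
            have : 1 ≤ K := le_trans (by norm_num) hK
            nlinarith
          omega
        obtain ⟨x, hx1, hx2⟩ : ∃ x, 2 ^ x ≤ A.card / (2 * d) ∧ A.card / (2 * d) < 2 ^ (x + 1) := by
          refine ⟨Nat.log 2 (A.card / (2 * d)), ?_, ?_⟩
          · apply Nat.pow_log_le_self
            have : 1 ≤ A.card / (2 * d) := by
              rw [Nat.le_div_iff_mul_le (by omega)]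
              omega
            omega
          · exact Nat.lt_pow_succ_log_self (by omega) _
        have hxa : 2 * d * 2 ^ x ≤ A.card := by
          have := Nat.mul_le_mul_left (2 * d) hx1
          have h3 := Nat.mul_div_le A.card (2 * d)
          omega
        have hxb : A.card ≤ 4 * d * 2 ^ x := by
          have h4 : A.card / (2 * d) + 1 ≤ 2 ^ (x + 1) := hx2
          have h5 : A.card < 2 * d * (A.card / (2 * d) + 1) := Nat.lt_mul_div_succ _ (by omega)
          have h6 := Nat.mul_le_mul_left (2 * d) h4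
          rw [pow_succ] at h6
          nlinarith
        have hxZ : x < Z := by
          have h3 : 2 ^ x ≤ n := by
            calc 2 ^ x = 1 * 2 ^ x := by ring
              _ ≤ 2 * d * 2 ^ x := Nat.mul_le_mul_right _ (by omega)
              _ ≤ n := le_trans hxa hAn
          have := Nat.le_log_of_pow_le (by omega) h3
          omega
        have h1 := hA2 x A B hAB hxa hxb hsmall.le
        have h2 : score (K * (P + 1) * d) A B (μA x) ≤
            ∑ x ∈ Finset.range Z, score (K * (P + 1) * d) A B (μA x) :=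
          Finset.single_le_sum (f := fun x => score (K * (P + 1) * d) A B (μA x))
            (fun x _ => score_nonneg _ _ _ _ (hA1 x).1) (Finset.mem_range.2 hxZ)
        have h3 := score_nonneg (K * (P + 1) * d) A B μB hB1.1
        linarith
    rw [one_div, le_inv_mul_iff₀ hZpos]
    refine le_trans ?_ key
    have hZ3 : (Z : ℝ) + 1 ≤ 2 ^ (m + 1) := by exact_mod_cast hZ2
    have hA0 : (0 : ℝ) ≤ A.card := by positivity
    have hl0 : 0 ≤ Real.log (4 * n) := by
      apply Real.log_nonneg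
      have : (1 : ℝ) ≤ n := by exact_mod_cast hX
      linarith
    have hexp : (2 : ℝ) ^ (m + 1) * 2 ^ (m + 1) ≤ 2 ^ (12 * (P + 1) * d) := by
      rw [← pow_add]
      apply pow_le_pow_right₀ (by norm_num)
      rw [hm]
      nlinarith
    calc ((Z : ℝ) + 1) * (A.card * Real.log (4 * n))
        ≤ 2 ^ (m + 1) * (A.card * 2 ^ (m + 1)) := by gcongr
      _ = 2 ^ (m + 1) * 2 ^ (m + 1) * A.card := by ring
      _ ≤ 2 ^ (12 * (P + 1) * d) * A.card := mul_le_mul_of_nonneg_right hexp hA0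

theorem exists_HS (K d P : ℕ) (hK : 2 ^ 40 ≤ K) (hK' : 128 ∣ K) (hd : 1 ≤ d)
    (C : Finset (Finset X)) (hC : C.vcDim ≤ d) (hcard : C.card ≤ 2 ^ (d * 2 ^ P))
    (hn : Fintype.card X ≤ 2 ^ 2 ^ (2 * d + P + 2)) :
    ∃ H : Finset X → Finset X → Finset X, ∀ A B : Finset X, (∃ c ∈ C, B = A ∩ c) →
      4 * (K * (P + 1) * d) ≤ A.card →
      ∃ S ∈ A.powersetCard (K * (P + 1) * d), A ∩ (H S (S ∩ B) ∆ B) ⊆ S := by
  have hk0 : 1 ≤ K * (P + 1) * d := by
    have h0 : 1 ≤ K := le_trans (Nat.one_le_two_pow) hK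
    exact Nat.mul_pos (Nat.mul_pos h0 (Nat.succ_pos P)) hd
  by_cases hX : 1 ≤ Fintype.card X
  · obtain ⟨μ, hμ, hscore⟩ := exists_decoderS K d P hK hK' hd C hC hcard hn hX
    exact exists_H_of (K * (P + 1) * d) hk0 C hX μ hμ hscore
  · refine ⟨fun _ _ => ∅, fun A B _ hA => ?_⟩
    have := Finset.card_le_univ A
    exfalso
    generalize K * (P + 1) * d = k at *
    omega

end Pool.Agent.MPaa62e0
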