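import Pool.Agent.Lib.MP_aa62e0_lc.Main
import Pool.Agent.Lib.MP_aa62e0_lc.ZoneAT

set_option autoImplicit false

open Finset
open scoped symmDiff

namespace Pool.Agent.MPaa62e0

variable {X : Type} [Fintype X] [DecidableEq X]

open Classical in
/-- The samples of size at least m. -/
noncomputable def bigSamplesT (m : ℕ) (C : Finset (Finset X)) : Finset (Finset X × Finset X) :=
  Finset.univ.filter (fun T => (∃ c ∈ C, T.2 = T.1 ∩ c) ∧ m ≤ T.1.card)

theorem mem_bigSamplesT (m : ℕ) (C : Finset (Finset X)) (T : Finset X × Finset X) :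
    T ∈ bigSamplesT m C ↔ (∃ c ∈ C, T.2 = T.1 ∩ c) ∧ m ≤ T.1.card := by
  rw [bigSamplesT, Finset.mem_filter]
  exact and_iff_right (Finset.mem_univ _)

/-- One decoding function for all samples of size at least m. -/
theorem exists_H_ofT (k m : ℕ) (hm : 1 ≤ m) (C : Finset (Finset X)) (hX : 1 ≤ Fintype.card X)
    (μ : Finset X → Finset X → Finset X → ℝ) (hμ : SubProb μ)
    (hscore : ∀ A B : Finset X, (∃ c ∈ C, B = A ∩ c) → m ≤ A.card →
        (A.card : ℝ) * Real.log (4 * Fintype.card X) ≤ score k A B μ) :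
    ∃ H : Finset X → Finset X → Finset X, ∀ A B : Finset X, (∃ c ∈ C, B = A ∩ c) →
      m ≤ A.card →
      ∃ S ∈ A.powersetCard k, A ∩ (H S (S ∩ B) ∆ B) ⊆ S := by
  have hsum : ∑ T ∈ bigSamplesT m C, Real.exp (-(∑ SV : Finset X × Finset X,
      ∑ h ∈ goodH k T SV, μ SV.1 SV.2 h)) < 1 := by
    refine lt_of_le_of_lt ?_ (sum_exp_lt (X := X) hX)
    have hsub : bigSamplesT m C ⊆ (Finset.univ : Finset (Finset X × Finset X)).filter
        (fun T => T.2 ⊆ T.1 ∧ T.1.Nonempty) := by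
      intro T hT
      rw [mem_bigSamplesT] at hT
      rw [Finset.mem_filter]
      obtain ⟨⟨c, _, hc⟩, hT2⟩ := hT
      refine ⟨Finset.mem_univ _, ?_, ?_⟩
      · rw [hc]
        exact Finset.inter_subset_left
      · rw [← Finset.card_pos]
        omega
    refine le_trans ?_ (Finset.sum_le_sum_of_subset_of_nonneg hsub
      fun _ _ _ => (Real.exp_pos _).le)
    refine Finset.sum_le_sum fun T hT => ?_
    rw [mem_bigSamplesT] at hT
    rw [sum_goodH k μ T]
    exact Real.exp_le_exp.2 (neg_le_neg (hscore T.1 T.2 hT.1 hT.2))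
  obtain ⟨H, hH⟩ := select (κ := Finset X × Finset X) (η := Finset X)
    (τ := Finset X × Finset X) (bigSamplesT m C) (fun SV h => μ SV.1 SV.2 h)
    (fun SV h => hμ.1 _ _ _) (fun SV => hμ.2 _ _) (goodH k) hsum
  refine ⟨fun S V => H (S, V), fun A B hAB hA => ?_⟩
  obtain ⟨⟨S, V⟩, hSV⟩ := hH (A, B) ((mem_bigSamplesT m C (A, B)).2 ⟨hAB, hA⟩)
  obtain ⟨h1, h2, h3⟩ := mem_goodH k (A, B) (S, V) _ hSV
  refine ⟨S, h1, ?_⟩
  have h2' : V = S ∩ B := h2
  rw [← h2']
  exact h3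

/-- The random decoder for the samples with at least 2 d 2 ^ x0 points; the class has at most
2 ^ (2 d (2 x0 + 7) 2 ^ P) members. -/
theorem exists_decoderT (K d P x0 : ℕ) (hK : 2 ^ 40 ≤ K) (hd : 1 ≤ d)
    (C : Finset (Finset X)) (hC : C.vcDim ≤ d)
    (hcard : C.card ≤ 2 ^ (2 * d * (2 * x0 + 7) * 2 ^ P))
    (hn : Fintype.card X ≤ 2 ^ ((2 * d * (2 * x0 + 7) * 2 ^ P + 1) * 2 ^ (d + 1)))
    (hX : 1 ≤ Fintype.card X) :
    ∃ μ : Finset X → Finset X → Finset X → ℝ, SubProb μ ∧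
      ∀ A B : Finset X, (∃ c ∈ C, B = A ∩ c) → 2 * d * 2 ^ x0 ≤ A.card →
        (K * (P + 1)) * (K * (P + 1) * d) ≤ A.card →
        (A.card : ℝ) * Real.log (4 * Fintype.card X) ≤ score (K * (P + 1) * d) A B μ := by
  classical
  have hA : ∀ x : ℕ, ∃ μ : Finset X → Finset X → Finset X → ℝ, SubProb μ ∧ (x0 ≤ x →
      ∀ A B : Finset X, (∃ c ∈ C, B = A ∩ c) → 2 * d * 2 ^ x ≤ A.card → A.card ≤ 4 * d * 2 ^ x →
        (K * (P + 1)) * (K * (P + 1) * d) ≤ A.card →
        (2 : ℝ) ^ (12 * (P + 1) * d) * (2 * x + 7) ^ 2 * A.card ≤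
          score (K * (P + 1) * d) A B μ) := by
    intro x
    by_cases hx : x0 ≤ x
    · obtain ⟨μ, h1, h2⟩ := zoneAT K d x P hK hd C hC (hcard.trans
        (Nat.pow_le_pow_right (by norm_num) (by gcongr)))
      exact ⟨μ, h1, fun _ => h2⟩
    · exact ⟨fun _ _ _ => 0, ⟨fun _ _ _ => le_rfl, fun _ _ => by simp⟩, fun h => absurd h hx⟩
  choose μA hA1 hA2 using hA
  set n := Fintype.card X with hndef
  set Z := Nat.log 2 n + 1 with hZ
  obtain ⟨E, hE⟩ : ∃ E : ℕ, E = (2 * d * (2 * x0 + 7) * 2 ^ P + 1) * 2 ^ (d + 1) := ⟨_, rfl⟩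
  rw [← hE] at hn
  have hE2 : E + 2 ≤ 2 ^ (6 * (P + 1) * d) * (2 * x0 + 7) := by
    have h4 : d + 1 ≤ 2 ^ d := Nat.lt_two_pow_self
    have h5 : 1 ≤ 2 ^ P := Nat.one_le_two_pow
    have h6 : 1 ≤ 2 * x0 + 7 := by omega
    have h7 : 2 ≤ 2 ^ (d + 1) := by
      calc 2 = 2 ^ 1 := by norm_num
        _ ≤ 2 ^ (d + 1) := Nat.pow_le_pow_right (by norm_num) (by omega)
    obtain ⟨w, hw⟩ : ∃ w : ℕ, w = 2 * x0 + 7 := ⟨_, rfl⟩
    rw [← hw] at hE h6 ⊢
    have h8 : 2 * d * w * 2 ^ P + 2 ≤ w * (2 * 2 ^ (d + P)) := by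
      have h9 : 1 ≤ w * 2 ^ P := Nat.mul_pos h6 h5
      calc 2 * d * w * 2 ^ P + 2 ≤ 2 * d * w * 2 ^ P + 2 * (w * 2 ^ P) := by omega
        _ = w * (2 * ((d + 1) * 2 ^ P)) := by ring
        _ ≤ w * (2 * (2 ^ d * 2 ^ P)) := by gcongr
        _ = w * (2 * 2 ^ (d + P)) := by rw [pow_add]
    calc E + 2 ≤ (2 * d * w * 2 ^ P + 1) * 2 ^ (d + 1) + 1 * 2 ^ (d + 1) := by omega
      _ = (2 * d * w * 2 ^ P + 2) * 2 ^ (d + 1) := by ring
      _ ≤ (w * (2 * 2 ^ (d + P))) * 2 ^ (d + 1) := Nat.mul_le_mul_right _ h8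
      _ = 2 ^ (2 * d + P + 2) * w := by ring
      _ ≤ 2 ^ (6 * (P + 1) * d) * w := by
          apply Nat.mul_le_mul_right
          apply Nat.pow_le_pow_right (by norm_num)
          nlinarith
  have hZ2 : Z + 1 ≤ E + 2 := by
    have h2 : Nat.log 2 n ≤ E := by
      have h3 := Nat.log_mono_right (b := 2) hn
      rwa [Nat.log_pow (by norm_num)] at h3
    omega
  have hlog : Real.log (4 * n) ≤ E + 2 := by
    have h1 : (n : ℝ) ≤ 2 ^ E := by exact_mod_cast hn
    have hn0 : (0 : ℝ) < n := by exact_mod_cast hX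
    have h2 : Real.log (4 * n) ≤ Real.log ((2 : ℝ) ^ (2 + E)) := by
      apply Real.log_le_log (by positivity)
      rw [pow_add]
      nlinarith
    rw [Real.log_pow] at h2
    have h3 : Real.log 2 ≤ 1 := by
      have := Real.log_two_lt_d9
      linarith
    calc Real.log (4 * n) ≤ ((2 + E : ℕ) : ℝ) * Real.log 2 := h2
      _ ≤ ((2 + E : ℕ) : ℝ) * 1 := by gcongr
      _ = E + 2 := by push_cast; ring
  refine ⟨fun S V h => (1 / (Z + 1 : ℝ)) * (∑ x ∈ Finset.range Z, μA x S V h),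
    ⟨?_, ?_⟩, ?_⟩
  · intro S V h
    have h2 : 0 ≤ ∑ x ∈ Finset.range Z, μA x S V h :=
      Finset.sum_nonneg fun x _ => (hA1 x).1 S V h
    positivity
  · intro S V
    rw [← Finset.mul_sum, Finset.sum_comm]
    have h1 : ∑ x ∈ Finset.range Z, ∑ h, μA x S V h ≤ ∑ x ∈ Finset.range Z, (1 : ℝ) :=
      Finset.sum_le_sum fun x _ => (hA1 x).2 S V
    rw [Finset.sum_const, Finset.card_range, nsmul_eq_mul, mul_one] at h1
    have h3 : (0 : ℝ) < Z + 1 := by positivity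
    rw [one_div, inv_mul_le_iff₀ h3]
    linarith
  · intro A B hAB hAx hAk
    rw [score_smul, score_sum]
    have hZpos : (0 : ℝ) < Z + 1 := by positivity
    have key : (2 : ℝ) ^ (12 * (P + 1) * d) * (2 * x0 + 7) ^ 2 * A.card ≤
        ∑ x ∈ Finset.range Z, score (K * (P + 1) * d) A B (μA x) := by
      have hAn : A.card ≤ n := Finset.card_le_univ A
      have hd2 : 2 * d ≤ A.card := le_trans (Nat.le_mul_of_pos_right _ (by positivity)) hAx
      obtain ⟨x, hx1, hx2⟩ : ∃ x, 2 ^ x ≤ A.card / (2 * d) ∧ A.card / (2 * d) < 2 ^ (x + 1) := by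
        refine ⟨Nat.log 2 (A.card / (2 * d)), ?_, ?_⟩
        · apply Nat.pow_log_le_self
          have : 1 ≤ A.card / (2 * d) := by
            rw [Nat.le_div_iff_mul_le (by omega)]
            omega
          omega
        · exact Nat.lt_pow_succ_log_self (by omega) _
      have hxa : 2 * d * 2 ^ x ≤ A.card := by
        have := Nat.mul_le_mul_left (2 * d) hx1
        have h3 := Nat.mul_div_le A.card (2 * d)
        omega
      have hxb : A.card ≤ 4 * d * 2 ^ x := by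
        have h4 : A.card / (2 * d) + 1 ≤ 2 ^ (x + 1) := hx2
        have h5 : A.card < 2 * d * (A.card / (2 * d) + 1) := Nat.lt_mul_div_succ _ (by omega)
        have h6 := Nat.mul_le_mul_left (2 * d) h4
        rw [pow_succ] at h6
        nlinarith
      have hx0 : x0 ≤ x := by
        have h3 : 2 ^ x0 ≤ A.card / (2 * d) := by
          rw [Nat.le_div_iff_mul_le (by omega)]
          rw [mul_comm]
          exact hAx
        have h4 : 2 ^ x0 < 2 ^ (x + 1) := lt_of_le_of_lt h3 hx2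
        have h5 := (Nat.pow_lt_pow_iff_right (by norm_num : 1 < 2)).1 h4
        omega
      have hxZ : x < Z := by
        have h3 : 2 ^ x ≤ n := by
          calc 2 ^ x = 1 * 2 ^ x := by ring
            _ ≤ 2 * d * 2 ^ x := Nat.mul_le_mul_right _ (by omega)
            _ ≤ n := le_trans hxa hAn
        have := Nat.le_log_of_pow_le (by omega) h3
        omega
      have h1 := hA2 x hx0 A B hAB hxa hxb hAk
      have h2 : score (K * (P + 1) * d) A B (μA x) ≤
          ∑ x ∈ Finset.range Z, score (K * (P + 1) * d) A B (μA x) :=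
        Finset.single_le_sum (f := fun x => score (K * (P + 1) * d) A B (μA x))
          (fun x _ => score_nonneg _ _ _ _ (hA1 x).1) (Finset.mem_range.2 hxZ)
      refine le_trans ?_ (le_trans h1 h2)
      have hx0r : (x0 : ℝ) ≤ x := by exact_mod_cast hx0
      gcongr
    rw [one_div, le_inv_mul_iff₀ hZpos]
    refine le_trans ?_ key
    have hZ3 : (Z : ℝ) + 1 ≤ E + 2 := by exact_mod_cast hZ2
    have hA0 : (0 : ℝ) ≤ A.card := by positivity
    have hl0 : 0 ≤ Real.log (4 * n) := by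
      apply Real.log_nonneg
      have : (1 : ℝ) ≤ n := by exact_mod_cast hX
      linarith
    have hE3 : (E : ℝ) + 2 ≤ 2 ^ (6 * (P + 1) * d) * (2 * x0 + 7) := by exact_mod_cast hE2
    have hE0 : (0 : ℝ) ≤ (E : ℝ) + 2 := by positivity
    calc ((Z : ℝ) + 1) * (A.card * Real.log (4 * n))
        ≤ (E + 2) * (A.card * (E + 2)) := by gcongr
      _ = ((E : ℝ) + 2) ^ 2 * A.card := by ring
      _ ≤ ((2 : ℝ) ^ (6 * (P + 1) * d) * (2 * x0 + 7)) ^ 2 * A.card := by gcongr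
      _ = (2 : ℝ) ^ (12 * (P + 1) * d) * (2 * x0 + 7) ^ 2 * A.card := by
          rw [mul_pow, ← pow_mul]
          congr 3
          ring

theorem exists_HT (K d P x0 : ℕ) (hK : 2 ^ 40 ≤ K) (hd : 1 ≤ d)
    (C : Finset (Finset X)) (hC : C.vcDim ≤ d)
    (hcard : C.card ≤ 2 ^ (2 * d * (2 * x0 + 7) * 2 ^ P))
    (hn : Fintype.card X ≤ 2 ^ ((2 * d * (2 * x0 + 7) * 2 ^ P + 1) * 2 ^ (d + 1))) :
    ∃ H : Finset X → Finset X → Finset X, ∀ A B : Finset X, (∃ c ∈ C, B = A ∩ c) →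
      2 * d * 2 ^ x0 ≤ A.card → (K * (P + 1)) * (K * (P + 1) * d) ≤ A.card →
      ∃ S ∈ A.powersetCard (K * (P + 1) * d), A ∩ (H S (S ∩ B) ∆ B) ⊆ S := by
  by_cases hX : 1 ≤ Fintype.card X
  · obtain ⟨μ, hμ, hscore⟩ := exists_decoderT K d P x0 hK hd C hC hcard hn hX
    have hm : 1 ≤ max (2 * d * 2 ^ x0) ((K * (P + 1)) * (K * (P + 1) * d)) := by
      refine le_max_of_le_left ?_
      have : 1 ≤ 2 ^ x0 := Nat.one_le_two_pow
      nlinarith
    obtain ⟨H, hH⟩ := exists_H_ofT (K * (P + 1) * d) _ hm C hX μ hμ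
      (fun A B h1 h2 => hscore A B h1 (le_trans (le_max_left _ _) h2)
        (le_trans (le_max_right _ _) h2))
    exact ⟨H, fun A B h1 h2 h3 => hH A B h1 (max_le h2 h3)⟩
  · refine ⟨fun _ _ => ∅, fun A B _ hA _ => ?_⟩
    have h1 := Finset.card_le_univ A
    have h2 : 1 ≤ 2 ^ x0 := Nat.one_le_two_pow
    exfalso
    have h3 : 1 ≤ A.card := le_trans (by nlinarith) hA
    omega

end Pool.Agent.MPaa62e0
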