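import Mathlib

set_option autoImplicit false

open Finset

namespace Pool.Agent.MPaa62e0

/-- Minimax for a linear map on a convex set. -/
theorem minimax {ι : Type} [Fintype ι] {E : Type} [AddCommGroup E] [Module ℝ E]
    (M : Set E) (hM : Convex ℝ M) (u : E →ₗ[ℝ] (ι → ℝ)) (s : ℝ)
    (h : ∀ q : ι → ℝ, (∀ i, 0 ≤ q i) → ∃ m ∈ M, s * ∑ i, q i ≤ ∑ i, q i * u m i)
    (s' : ℝ) (hs : s' < s) : ∃ m ∈ M, ∀ i, s' < u m i := by
  classical
  by_contra hno
  push Not at hno
  set T : Set (ι → ℝ) := Set.univ.pi (fun _ => Set.Ioi s') with hT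
  have hTo : IsOpen T := isOpen_set_pi Set.finite_univ (fun _ _ => isOpen_Ioi)
  have hTc : Convex ℝ T := convex_pi (fun _ _ => convex_Ioi _)
  have hSc : Convex ℝ (u '' M) := hM.linear_image u
  have hdisj : Disjoint T (u '' M) := by
    rw [Set.disjoint_left]
    rintro v hv ⟨m, hm, rfl⟩
    obtain ⟨i, hi⟩ := hno m hm
    exact absurd (hv i (Set.mem_univ i)) (not_lt.2 hi)
  obtain ⟨f, r, hf1, hf2⟩ := geometric_hahn_banach_open hTc hTo hSc hdisj
  set c : ι → ℝ := fun i => f (Pi.single i 1) with hc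
  have hfv : ∀ v : ι → ℝ, f v = ∑ i, v i * c i := by
    intro v
    have hv : v = ∑ i, v i • (Pi.single i (1 : ℝ) : ι → ℝ) := by
      ext j
      simp [Finset.sum_apply, Pi.single_apply]
    conv_lhs => rw [hv]
    rw [map_sum]
    refine Finset.sum_congr rfl fun i _ => ?_
    rw [map_smul, smul_eq_mul]
  have hmem : ∀ v : ι → ℝ, (∀ i, s' < v i) → f v < r := fun v hv =>
    hf1 v (fun i _ => hv i)
  have hc0 : ∀ i, c i ≤ 0 := by
    intro i
    by_contra hci
    push Not at hci
    have key : ∀ t : ℝ, 0 ≤ t → (s' + 1) * ∑ j, c j + t * c i < r := by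
      intro t ht
      have h1 := hmem (fun j => s' + 1 + (if j = i then t else 0)) (by
        intro j
        by_cases hj : j = i
        · simp only [hj, if_true]; linarith
        · simp only [hj, if_false]; linarith)
      rw [hfv] at h1
      have h2 : ∑ j, (s' + 1 + (if j = i then t else 0)) * c j
          = (s' + 1) * ∑ j, c j + t * c i := by
        rw [Finset.mul_sum]
        have : ∑ j, (s' + 1 + (if j = i then t else 0)) * c j
            = ∑ j, (s' + 1) * c j + ∑ j, (if j = i then t * c j else 0) := by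
          rw [← Finset.sum_add_distrib]
          refine Finset.sum_congr rfl fun j _ => ?_
          split_ifs <;> ring
        rw [this]
        simp
      linarith [h1, h2]
    have h1 := key (max 0 ((r - (s' + 1) * ∑ j, c j) / c i)) (le_max_left _ _)
    have h2 : (r - (s' + 1) * ∑ j, c j) ≤ max 0 ((r - (s' + 1) * ∑ j, c j) / c i) * c i := by
      have := mul_le_mul_of_nonneg_right (le_max_right 0 ((r - (s' + 1) * ∑ j, c j) / c i)) hci.le
      rwa [div_mul_cancel₀ _ hci.ne'] at this
    linarith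
  have hsum : ∑ j, c j ≤ 0 := Finset.sum_nonpos fun j _ => hc0 j
  have hlim : s' * ∑ j, c j ≤ r := by
    by_contra hlt
    push Not at hlt
    set P := -∑ j, c j with hP
    have hP0 : 0 ≤ P := by linarith
    set D := s' * ∑ j, c j - r with hD
    have hD0 : 0 < D := by linarith
    set ε := D / (P + 1) with hε
    have hε0 : 0 < ε := div_pos hD0 (by linarith)
    have h1 := hmem (fun _ => s' + ε) (fun _ => by linarith)
    rw [hfv, ← Finset.mul_sum] at h1
    have h2 : ε * P ≤ D := by
      rw [hε, div_mul_eq_mul_div, div_le_iff₀ (by linarith)]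
      nlinarith
    nlinarith
  obtain ⟨m, hm, hmg⟩ := h (fun i => - c i) (fun i => by have := hc0 i; linarith)
  have h3 : r ≤ f (u m) := hf2 _ ⟨m, hm, rfl⟩
  rw [hfv] at h3
  have e1 : ∑ i, -c i = -∑ i, c i := by rw [Finset.sum_neg_distrib]
  have e2 : ∑ i, -c i * u m i = -∑ i, u m i * c i := by
    rw [← Finset.sum_neg_distrib]
    exact Finset.sum_congr rfl fun i _ => by ring
  simp only [e1, e2] at hmg
  have h4 : (s - s') * (-∑ i, c i) ≤ 0 := by nlinarith
  have h5 : ∑ i, c i = 0 := by
    have : (-∑ i, c i) ≤ 0 := by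
      by_contra hh
      push Not at hh
      have := mul_pos (sub_pos.2 hs) hh
      linarith
    linarith
  have h6 : ∀ i, c i = 0 := by
    intro i
    have h7 := (Finset.sum_eq_zero_iff_of_nonpos (fun j _ => hc0 j)).1 h5
    exact h7 i (Finset.mem_univ i)
  have h8 : ∑ i, u m i * c i = 0 := Finset.sum_eq_zero fun i _ => by rw [h6 i, mul_zero]
  have h9 := hmem (fun _ => s' + 1) (fun _ => by linarith)
  rw [hfv] at h9
  have h10 : ∑ i, (s' + 1) * c i = 0 := Finset.sum_eq_zero fun i _ => by rw [h6 i, mul_zero]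
  rw [h10] at h9
  rw [h8] at h3
  linarith

end Pool.Agent.MPaa62e0
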