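import Mathlib

set_option autoImplicit false

open Finset
open scoped symmDiff

namespace Pool.Agent.MPaa62e0

variable {X : Type} [Fintype X] [DecidableEq X]

/-- The weight of `i`, spread over the informative points. -/
noncomputable def splitW {ι : Type} (e : ℕ) (A c : ι → Finset X) (R : Finset X → Finset X)
    (q : ι → ℝ) (i : ι) : ℝ :=
  if e ≤ (A i ∩ R (c i)).card then q i / ((A i ∩ R (c i)).card : ℝ) else 0

/-- The weight of the members with `c i = f` at the point `y`. -/
noncomputable def splitP {ι : Type} [Fintype ι] (e : ℕ) (A c : ι → Finset X)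
    (R : Finset X → Finset X) (q : ι → ℝ) (f : Finset X) (y : X) : ℝ :=
  ∑ i, if c i = f then (if y ∈ A i ∩ R f then splitW e A c R q i else 0) else 0

section

variable {ι : Type} [Fintype ι] {e : ℕ} {A c : ι → Finset X} {R : Finset X → Finset X}
  {q : ι → ℝ}

theorem splitW_nonneg (hq : ∀ i, 0 ≤ q i) (i : ι) : 0 ≤ splitW e A c R q i := by
  unfold splitW
  split_ifs
  · exact div_nonneg (hq i) (Nat.cast_nonneg _)
  · exact le_refl 0

theorem splitW_mul_le (he : 1 ≤ e) (hq : ∀ i, 0 ≤ q i) (i : ι) :
    (e : ℝ) * splitW e A c R q i ≤ q i := by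
  unfold splitW
  split_ifs with h
  · have h1 : (0 : ℝ) < ((A i ∩ R (c i)).card : ℝ) := by
      exact_mod_cast lt_of_lt_of_le he h
    rw [mul_div_assoc', div_le_iff₀ h1, mul_comm]
    exact mul_le_mul_of_nonneg_left (by exact_mod_cast h) (hq i)
  · rw [mul_zero]
    exact hq i

theorem splitW_mul_card (he : 1 ≤ e) (i : ι) :
    splitW e A c R q i * ((A i ∩ R (c i)).card : ℝ) =
      if e ≤ (A i ∩ R (c i)).card then q i else 0 := by
  unfold splitW
  split_ifs with h
  · have h1 : (0 : ℝ) < ((A i ∩ R (c i)).card : ℝ) := by
      exact_mod_cast lt_of_lt_of_le he h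
    rw [div_mul_cancel₀ _ h1.ne']
  · rw [zero_mul]

theorem splitP_sum (S : Finset (Finset X)) (y : X) :
    ∑ f ∈ S, splitP e A c R q f y =
      ∑ i, if c i ∈ S then (if y ∈ A i ∩ R (c i) then splitW e A c R q i else 0) else 0 := by
  unfold splitP
  rw [Finset.sum_comm]
  refine Finset.sum_congr rfl fun i _ => ?_
  rw [Finset.sum_ite_eq]

theorem splitP_nonneg (hq : ∀ i, 0 ≤ q i) (f : Finset X) (y : X) :
    0 ≤ splitP e A c R q f y := by
  unfold splitP
  refine Finset.sum_nonneg fun i _ => ?_
  split_ifs
  · exact splitW_nonneg hq i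
  · exact le_refl 0
  · exact le_refl 0

theorem splitP_eq_zero {f : Finset X} {y : X} (hy : y ∉ R f) : splitP e A c R q f y = 0 := by
  unfold splitP
  refine Finset.sum_eq_zero fun i _ => ?_
  rw [if_neg (fun h => hy (Finset.mem_inter.1 h).2), ite_self]

/-- The number of points, counted with an indicator. -/
theorem split_sum_ite (S : Finset X) (r : ℝ) :
    (∑ y : X, if y ∈ S then r else 0) = r * (S.card : ℝ) := by
  rw [← Finset.sum_filter, Finset.filter_mem_eq_inter, Finset.univ_inter, Finset.sum_const,
    nsmul_eq_mul, mul_comm]

end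

/-- One informative point: if for half of the weight the region R (c i) contains at least e points
of A i, while every region R f has small mass on average, then after announcing one point y the
class can be restricted to M y, which is smaller by the factor 2 ^ g. -/
theorem split {ι : Type} [Fintype ι]
    (N : Finset (Finset X)) (g e : ℕ) (he : 1 ≤ e) (A c : ι → Finset X)
    (R : Finset X → Finset X)
    (q : ι → ℝ) (hq : ∀ i, 0 ≤ q i) (hc : ∀ i, q i ≠ 0 → c i ∈ N)
    (hcov : ∀ f ∈ N, ∑ i, q i * ((A i ∩ R f).card : ℝ) ≤ e * (∑ i, q i) / 2 ^ (g + 2))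
    (hun : (∑ i, q i) / 2 ≤
      ∑ i ∈ Finset.univ.filter (fun i => e ≤ (A i ∩ R (c i)).card), q i) :
    ∃ M : X → Finset (Finset X), (∀ y, M y ⊆ N) ∧ (∀ y, (M y).card * 2 ^ g ≤ N.card) ∧
      (e : ℝ) / 4 * ∑ i, q i ≤ ∑ y : X, ∑ i, if (y ∈ A i ∧ c i ∈ M y) then q i else 0 := by
  rcases N.eq_empty_or_nonempty with hN | hN
  · refine ⟨fun _ => ∅, fun y => Finset.empty_subset _, fun y => by simp, ?_⟩
    have h0 : ∀ i, q i = 0 := by
      intro i
      by_contra h
      have := hc i h
      rw [hN] at this
      exact absurd this (Finset.notMem_empty _)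
    have h1 : ∑ i, q i = 0 := Finset.sum_eq_zero fun i _ => h0 i
    rw [h1, mul_zero]
    refine Finset.sum_nonneg fun y _ => Finset.sum_nonneg fun i _ => ?_
    split_ifs
    · exact hq i
    · exact le_refl 0
  · classical
    set Q : ℝ := ∑ i, q i with hQ
    have hQ0 : 0 ≤ Q := Finset.sum_nonneg fun i _ => hq i
    have he0 : (0 : ℝ) < e := by exact_mod_cast he
    set W : ι → ℝ := splitW e A c R q with hW
    set p : Finset X → X → ℝ := splitP e A c R q with hp
    set P : X → ℝ := fun y => ∑ f ∈ N, p f y with hP
    have hN0 : (0 : ℝ) < (N.card : ℝ) := by exact_mod_cast hN.card_pos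
    have h2g : (0 : ℝ) < 2 ^ g := by positivity
    set θ : ℝ := 2 ^ g / (N.card : ℝ) with hθ
    have hθ0 : 0 < θ := div_pos h2g hN0
    have hP0 : ∀ y, 0 ≤ P y := fun y => Finset.sum_nonneg fun f _ => splitP_nonneg hq f y
    set M : X → Finset (Finset X) := fun y => N.filter fun f => 0 < P y ∧ θ * P y ≤ p f y with hM
    have hMN : ∀ y, M y ⊆ N := fun y => Finset.filter_subset _ _
    have hpP : ∀ f ∈ N, ∀ y, p f y ≤ P y := fun f hf y =>
      Finset.single_le_sum (f := fun f => p f y) (fun f _ => splitP_nonneg hq f y) hf
    refine ⟨M, hMN, fun y => ?_, ?_⟩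
    · -- the size of `M y`
      by_cases h : 0 < P y
      · have h1 : ((M y).card : ℝ) * (θ * P y) ≤ P y := by
          calc ((M y).card : ℝ) * (θ * P y) = ∑ f ∈ M y, θ * P y := by
                rw [Finset.sum_const, nsmul_eq_mul]
            _ ≤ ∑ f ∈ M y, p f y := by
                refine Finset.sum_le_sum fun f hf => ?_
                exact (Finset.mem_filter.1 hf).2.2
            _ ≤ ∑ f ∈ N, p f y :=
                Finset.sum_le_sum_of_subset_of_nonneg (hMN y) fun f _ _ => splitP_nonneg hq f y
        have h2 : ((M y).card : ℝ) * θ ≤ 1 := by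
          by_contra h3
          push Not at h3
          have h4 : P y < ((M y).card : ℝ) * θ * P y := by
            calc P y = 1 * P y := (one_mul _).symm
              _ < ((M y).card : ℝ) * θ * P y := mul_lt_mul_of_pos_right h3 h
          rw [mul_assoc] at h4
          exact absurd h1 (not_le.2 h4)
        have h3 : ((M y).card : ℝ) * 2 ^ g ≤ (N.card : ℝ) := by
          rw [hθ, mul_div_assoc', div_le_one hN0] at h2
          exact h2
        exact_mod_cast h3
      · have h1 : M y = ∅ := by
          rw [hM]
          exact Finset.filter_eq_empty_iff.2 fun f _ h2 => h h2.1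
        rw [h1]
        simp
    · -- the total
      have htot : Q / 2 ≤ ∑ y, P y := by
        have h1 : ∑ y, P y = ∑ i, if c i ∈ N then
            (if e ≤ (A i ∩ R (c i)).card then q i else 0) else 0 := by
          have h2 : ∀ y, P y = ∑ i, if c i ∈ N then
              (if y ∈ A i ∩ R (c i) then W i else 0) else 0 := fun y => splitP_sum N y
          simp_rw [h2]
          rw [Finset.sum_comm]
          refine Finset.sum_congr rfl fun i _ => ?_
          split_ifs with h3 h4
          · rw [split_sum_ite, hW, splitW_mul_card he, if_pos h4]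
          · rw [split_sum_ite, hW, splitW_mul_card he, if_neg h4]
          · exact Finset.sum_eq_zero fun _ _ => rfl
        rw [h1]
        refine hun.trans (le_of_eq ?_)
        rw [Finset.sum_filter]
        refine Finset.sum_congr rfl fun i _ => ?_
        by_cases h3 : c i ∈ N
        · rw [if_pos h3]
        · have h4 : q i = 0 := by
            by_contra h5
            exact h3 (hc i h5)
          rw [if_neg h3, h4, ite_self]
      -- the bad part
      have hbad : ∑ y, ∑ f ∈ N \ M y, p f y ≤ Q / 4 := by
        have h1 : ∀ y, ∑ f ∈ N \ M y, p f y ≤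
            ∑ f ∈ N, if y ∈ R f then θ * P y else 0 := by
          intro y
          have h2 : ∀ f ∈ N, (0 : ℝ) ≤ if y ∈ R f then θ * P y else 0 := by
            intro f _
            split_ifs
            · exact mul_nonneg hθ0.le (hP0 y)
            · exact le_refl 0
          refine (Finset.sum_le_sum fun f hf => ?_).trans
            (Finset.sum_le_sum_of_subset_of_nonneg Finset.sdiff_subset fun f hf _ => h2 f hf)
          rw [Finset.mem_sdiff] at hf
          by_cases h3 : y ∈ R f
          · rw [if_pos h3]
            by_cases h4 : 0 < P y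
            · by_contra h5
              push Not at h5
              exact hf.2 (Finset.mem_filter.2 ⟨hf.1, h4, h5.le⟩)
            · have h5 : P y = 0 := le_antisymm (not_lt.1 h4) (hP0 y)
              rw [h5, mul_zero]
              rw [← h5]
              exact hpP f hf.1 y
          · rw [if_neg h3]
            exact le_of_eq (splitP_eq_zero h3)
        have h3 : ∀ f ∈ N, (∑ y, if y ∈ R f then P y else 0) ≤ Q / 2 ^ (g + 2) := by
          intro f hf
          have h4 : (∑ y, if y ∈ R f then P y else 0) ≤
              ∑ i, W i * ((A i ∩ R f).card : ℝ) := by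
            have h5 : ∀ y, (if y ∈ R f then P y else 0) ≤
                ∑ i, if y ∈ A i ∩ R f then W i else 0 := by
              intro y
              split_ifs with h6
              · have h7 : P y = ∑ i, if c i ∈ N then
                    (if y ∈ A i ∩ R (c i) then W i else 0) else 0 := splitP_sum N y
                rw [h7]
                refine Finset.sum_le_sum fun i _ => ?_
                have h8 : 0 ≤ W i := splitW_nonneg hq i
                by_cases h9 : y ∈ A i
                · have h10 : y ∈ A i ∩ R f := Finset.mem_inter.2 ⟨h9, h6⟩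
                  rw [if_pos h10]
                  split_ifs <;> first | exact le_refl _ | exact h8
                · have h10 : y ∉ A i ∩ R (c i) := fun h => h9 (Finset.mem_inter.1 h).1
                  rw [if_neg h10, ite_self]
                  split_ifs <;> first | exact le_refl _ | exact h8
              · refine Finset.sum_nonneg fun i _ => ?_
                have h8 : 0 ≤ W i := splitW_nonneg hq i
                split_ifs <;> first | exact le_refl _ | exact h8
            refine (Finset.sum_le_sum fun y _ => h5 y).trans (le_of_eq ?_)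
            rw [Finset.sum_comm]
            exact Finset.sum_congr rfl fun i _ => split_sum_ite _ _
          have h5 : (e : ℝ) * ∑ i, W i * ((A i ∩ R f).card : ℝ) ≤
              ∑ i, q i * ((A i ∩ R f).card : ℝ) := by
            rw [Finset.mul_sum]
            refine Finset.sum_le_sum fun i _ => ?_
            rw [← mul_assoc]
            exact mul_le_mul_of_nonneg_right (splitW_mul_le he hq i) (Nat.cast_nonneg _)
          have h6 := h5.trans (hcov f hf)
          rw [mul_div_assoc] at h6
          exact h4.trans (le_of_mul_le_mul_left h6 he0)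
        calc ∑ y, ∑ f ∈ N \ M y, p f y
            ≤ ∑ y, ∑ f ∈ N, (if y ∈ R f then θ * P y else 0) :=
              Finset.sum_le_sum fun y _ => h1 y
          _ = ∑ f ∈ N, θ * ∑ y, (if y ∈ R f then P y else 0) := by
              rw [Finset.sum_comm]
              refine Finset.sum_congr rfl fun f _ => ?_
              rw [Finset.mul_sum]
              refine Finset.sum_congr rfl fun y _ => ?_
              rw [mul_ite, mul_zero]
          _ ≤ ∑ _f ∈ N, θ * (Q / 2 ^ (g + 2)) :=
              Finset.sum_le_sum fun f hf => mul_le_mul_of_nonneg_left (h3 f hf) hθ0.le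
          _ = Q / 4 := by
              rw [Finset.sum_const, nsmul_eq_mul, hθ, pow_add]
              field_simp
              norm_num
      -- the good part
      have hgood : Q / 4 ≤ ∑ y, ∑ f ∈ M y, p f y := by
        have h1 : ∑ y, P y = ∑ y, ∑ f ∈ N \ M y, p f y + ∑ y, ∑ f ∈ M y, p f y := by
          rw [← Finset.sum_add_distrib]
          refine Finset.sum_congr rfl fun y _ => ?_
          exact (Finset.sum_sdiff (hMN y)).symm
        rw [h1] at htot
        linarith
      have hfin : (e : ℝ) * ∑ y, ∑ f ∈ M y, p f y ≤
          ∑ y : X, ∑ i, if (y ∈ A i ∧ c i ∈ M y) then q i else 0 := by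
        rw [Finset.mul_sum]
        refine Finset.sum_le_sum fun y _ => ?_
        have h1 : ∑ f ∈ M y, p f y = ∑ i, if c i ∈ M y then
            (if y ∈ A i ∩ R (c i) then W i else 0) else 0 := splitP_sum (M y) y
        rw [h1, Finset.mul_sum]
        refine Finset.sum_le_sum fun i _ => ?_
        by_cases h2 : c i ∈ M y
        · by_cases h3 : y ∈ A i ∩ R (c i)
          · rw [if_pos h2, if_pos h3, if_pos ⟨(Finset.mem_inter.1 h3).1, h2⟩]
            exact splitW_mul_le he hq i
          · rw [if_pos h2, if_neg h3, mul_zero]
            split_ifs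
            · exact hq i
            · exact le_refl 0
        · rw [if_neg h2, mul_zero]
          split_ifs
          · exact hq i
          · exact le_refl 0
      calc (e : ℝ) / 4 * Q = e * (Q / 4) := by ring
        _ ≤ e * ∑ y, ∑ f ∈ M y, p f y := mul_le_mul_of_nonneg_left hgood he0.le
        _ ≤ _ := hfin

end Pool.Agent.MPaa62e0
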