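import Pool.Agent.Lib.MP_aa62e0_lc.Cover
import Pool.Agent.Lib.MP_aa62e0_lc.Split

set_option autoImplicit false

open Finset
open scoped symmDiff

namespace Pool.Agent.MPaa62e0

variable {X : Type} [Fintype X] [DecidableEq X]

theorem Phase_swap {ι : Type} [Fintype ι] (A : ι → Finset X) (q : ι → ℝ) (S : Finset X) :
    ∑ y ∈ S, ∑ i, (if y ∈ A i then q i else 0) = ∑ i, q i * ((A i ∩ S).card : ℝ) := by
  rw [Finset.sum_comm]
  refine Finset.sum_congr rfl fun i _ => ?_
  rw [← Finset.sum_filter, Finset.sum_const, nsmul_eq_mul, mul_comm]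
  congr 2
  congr 1
  ext y
  simp only [Finset.mem_filter, Finset.mem_inter]
  exact and_comm

theorem Phase_card_cons {t : ℕ} (P : (Fin (t + 1) → X) → Prop) [DecidablePred P] :
    (Finset.univ.filter P).card =
      ∑ y0 : X, (Finset.univ.filter fun y' : Fin t → X => P (Fin.cons y0 y')).card := by
  have h : ∀ y0 : X, (Finset.univ.filter fun y' : Fin t → X => P (Fin.cons y0 y')).card =
      ∑ y' : Fin t → X, if P (Fin.cons y0 y') then 1 else 0 := fun y0 => by
    rw [Finset.card_filter]
  rw [Finset.card_filter, Finset.sum_congr rfl fun y0 _ => h y0]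
  rw [← Fintype.sum_prod_type' (f := fun (y0 : X) (y' : Fin t → X) =>
    if P (Fin.cons y0 y') then 1 else 0)]
  exact (Fintype.sum_equiv (Fin.consEquiv fun _ : Fin (t + 1) => X) _ _ fun y => rfl).symm

/-- One phase: t informative points reduce a class with 2 ^ (2 d b + t (b - x - 2)) members to one
with 2 ^ (2 d b) members, up to at most e errors on every sample. -/
theorem phase {ι : Type} [Fintype ι]
    (d b x e : ℕ) (hd : 1 ≤ d) (hb : 7 ≤ b) (hx : x + 2 ≤ b) (he : 1 ≤ e)
    (A c : ι → Finset X) (hA1 : ∀ i, e ≤ (A i).card) (hA2 : ∀ i, (A i).card ≤ e * 2 ^ x) (t : ℕ) :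
    ∀ (N : Finset (Finset X)), N.vcDim ≤ d → N.card ≤ 2 ^ (2 * d * b + t * (b - x - 2)) →
    ∀ (q : ι → ℝ), (∀ i, 0 ≤ q i) → (∀ i, q i ≠ 0 → c i ∈ N) →
    ∃ D : (Fin t → X) → Finset (Finset X), (∀ y, D y ⊆ N) ∧ (∀ y, (D y).card ≤ 2 ^ (2 * d * b)) ∧
      ((e : ℝ) / 4) ^ t * (1 / 2) * ∑ i, q i ≤
        ∑ i, q i * ((Finset.univ.filter (fun y : Fin t → X =>
          (∀ s, y s ∈ A i) ∧ ∃ h ∈ D y, ((A i) ∩ (h ∆ c i)).card ≤ e)).card : ℝ) := by
  classical
  induction t with
  | zero =>
    intro N hN hcard q hq hqN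
    refine ⟨fun _ => N, fun _ => subset_rfl, fun _ => by simpa using hcard, ?_⟩
    rw [pow_zero, one_mul]
    have h1 : ∑ i, q i ≤ ∑ i, q i * ((Finset.univ.filter (fun y : Fin 0 → X =>
          (∀ s, y s ∈ A i) ∧ ∃ h ∈ N, ((A i) ∩ (h ∆ c i)).card ≤ e)).card : ℝ) := by
      refine Finset.sum_le_sum fun i _ => ?_
      by_cases hi : q i = 0
      · rw [hi, zero_mul]
      · have h2 : (1 : ℝ) ≤ ((Finset.univ.filter (fun y : Fin 0 → X =>
          (∀ s, y s ∈ A i) ∧ ∃ h ∈ N, ((A i) ∩ (h ∆ c i)).card ≤ e)).card : ℝ) := by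
          have : 0 < (Finset.univ.filter (fun y : Fin 0 → X =>
            (∀ s, y s ∈ A i) ∧ ∃ h ∈ N, ((A i) ∩ (h ∆ c i)).card ≤ e)).card := by
            rw [Finset.card_pos]
            refine ⟨Fin.elim0, ?_⟩
            rw [Finset.mem_filter]
            refine ⟨Finset.mem_univ _, fun s => s.elim0, c i, hqN i hi, ?_⟩
            rw [symmDiff_self]
            simp
          exact_mod_cast this
        calc q i = q i * 1 := (mul_one _).symm
          _ ≤ _ := mul_le_mul_of_nonneg_left h2 (hq i)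
    have h2 : 0 ≤ ∑ i, q i := Finset.sum_nonneg fun i _ => hq i
    linarith
  | succ t ih =>
    intro N hN hcard q hq hqN
    set Q : ℝ := ∑ i, q i with hQ
    have hQ0 : 0 ≤ Q := Finset.sum_nonneg fun i _ => hq i
    obtain ⟨g, hg⟩ : ∃ g, b = g + 2 + x := ⟨b - x - 2, by omega⟩
    have hg' : b - x - 2 = g := by omega
    rw [hg'] at hcard ih
    -- the cover
    obtain ⟨N', hN', hN'card, hN'cov⟩ := cover N d b hd hb hN
      (fun y => ∑ i, if y ∈ A i then q i else 0)
      (fun y => Finset.sum_nonneg fun i _ => by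
        split_ifs
        · exact hq i
        · exact le_rfl)
      (e * 2 ^ x * Q) (by
        rw [Phase_swap A q Finset.univ, hQ, Finset.mul_sum]
        refine Finset.sum_le_sum fun i _ => ?_
        rw [Finset.inter_univ, mul_comm]
        refine mul_le_mul_of_nonneg_right ?_ (hq i)
        exact_mod_cast hA2 i)
    choose! π hπ1 hπ2 using hN'cov
    let R : Finset X → Finset X := fun f => f ∆ π f
    have hcov : ∀ f ∈ N, ∑ i, q i * ((A i ∩ R f).card : ℝ) ≤ e * Q / 2 ^ (g + 2) := by
      intro f hf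
      have h1 := hπ2 f hf
      rw [Phase_swap A q (f ∆ π f)] at h1
      refine h1.trans (le_of_eq ?_)
      rw [hg, pow_add 2 (g + 2) x]
      have h2 : (2 : ℝ) ^ x ≠ 0 := by positivity
      field_simp
    by_cases hcase : Q / 2 ≤ ∑ i ∈ Finset.univ.filter (fun i => e ≤ (A i ∩ R (c i)).card), q i
    · -- an informative point
      obtain ⟨M, hM1, hM2, hM3⟩ := split N g e he A c R q hq hqN hcov hcase
      have hMcard : ∀ y, (M y).card ≤ 2 ^ (2 * d * b + t * g) := by
        intro y
        have h1 := (hM2 y).trans hcard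
        have e1 : 2 * d * b + (t + 1) * g = 2 * d * b + t * g + g := by ring
        rw [e1, pow_add 2 (2 * d * b + t * g) g] at h1
        exact Nat.le_of_mul_le_mul_right h1 (by positivity)
      have hIH := fun y0 : X => ih (M y0) ((Finset.vcDim_mono (hM1 y0)).trans hN) (hMcard y0)
        (fun i => if (y0 ∈ A i ∧ c i ∈ M y0) then q i else 0)
        (fun i => by
          split_ifs
          · exact hq i
          · exact le_rfl)
        (fun i hi => by
          by_contra hcon
          apply hi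
          rw [if_neg]
          exact fun h => hcon h.2)
      choose D hD1 hD2 hD3 using hIH
      refine ⟨fun y => D (y 0) (Fin.tail y), fun y => (hD1 _ _).trans (hM1 _),
        fun y => hD2 _ _, ?_⟩
      have e1 : ∀ i, ((Finset.univ.filter (fun y : Fin (t + 1) → X =>
          (∀ s, y s ∈ A i) ∧ ∃ h ∈ D (y 0) (Fin.tail y), ((A i) ∩ (h ∆ c i)).card ≤ e)).card : ℝ) =
          ∑ y0 : X, ((Finset.univ.filter (fun y : Fin t → X =>
            (y0 ∈ A i ∧ ∀ s, y s ∈ A i) ∧ ∃ h ∈ D y0 y, ((A i) ∩ (h ∆ c i)).card ≤ e)).card : ℝ) := by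
        intro i
        rw [Phase_card_cons, Nat.cast_sum]
        refine Finset.sum_congr rfl fun y0 _ => ?_
        congr 2
        ext y
        simp only [Finset.mem_filter, Finset.mem_univ, true_and, Fin.forall_fin_succ,
          Fin.cons_zero, Fin.cons_succ, Fin.tail_cons]
      have e2 : ∑ y0 : X, ∑ i, (if (y0 ∈ A i ∧ c i ∈ M y0) then q i else 0) *
          ((Finset.univ.filter (fun y : Fin t → X =>
          (∀ s, y s ∈ A i) ∧ ∃ h ∈ D y0 y, ((A i) ∩ (h ∆ c i)).card ≤ e)).card : ℝ) ≤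
          ∑ i, q i * ((Finset.univ.filter (fun y : Fin (t + 1) → X =>
          (∀ s, y s ∈ A i) ∧ ∃ h ∈ D (y 0) (Fin.tail y),
            ((A i) ∩ (h ∆ c i)).card ≤ e)).card : ℝ) := by
        rw [Finset.sum_comm]
        refine Finset.sum_le_sum fun i _ => ?_
        rw [e1 i, Finset.mul_sum]
        refine Finset.sum_le_sum fun y0 _ => ?_
        split_ifs with h
        · refine mul_le_mul_of_nonneg_left ?_ (hq i)
          have : (Finset.univ.filter (fun y : Fin t → X =>
              (∀ s, y s ∈ A i) ∧ ∃ h ∈ D y0 y, ((A i) ∩ (h ∆ c i)).card ≤ e)).card ≤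
              (Finset.univ.filter (fun y : Fin t → X =>
              (y0 ∈ A i ∧ ∀ s, y s ∈ A i) ∧
                ∃ h ∈ D y0 y, ((A i) ∩ (h ∆ c i)).card ≤ e)).card := by
            refine Finset.card_le_card ?_
            intro y hy
            rw [Finset.mem_filter] at hy ⊢
            exact ⟨Finset.mem_univ _, ⟨h.1, hy.2.1⟩, hy.2.2⟩
          exact_mod_cast this
        · rw [zero_mul]
          exact mul_nonneg (hq i) (Nat.cast_nonneg _)
      refine le_trans ?_ e2
      refine le_trans ?_ (Finset.sum_le_sum fun y0 _ => hD3 y0)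
      rw [← Finset.mul_sum]
      have h3 : 0 ≤ ((e : ℝ) / 4) ^ t * (1 / 2) := by positivity
      calc ((e : ℝ) / 4) ^ (t + 1) * (1 / 2) * Q
          = ((e : ℝ) / 4) ^ t * (1 / 2) * ((e : ℝ) / 4 * Q) := by ring
        _ ≤ _ := mul_le_mul_of_nonneg_left hM3 h3
    · -- the cover is good enough
      push Not at hcase
      refine ⟨fun _ => N', fun _ => hN', fun _ => hN'card, ?_⟩
      have h1 : ∑ i ∈ Finset.univ.filter (fun i => ¬ e ≤ (A i ∩ R (c i)).card), q i ≥ Q / 2 := by
        have := Finset.sum_filter_add_sum_filter_not Finset.univ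
          (fun i => e ≤ (A i ∩ R (c i)).card) q
        linarith
      have h2 : ∀ i ∈ Finset.univ.filter (fun i => ¬ e ≤ (A i ∩ R (c i)).card),
          q i * (e : ℝ) ^ (t + 1) ≤ q i * ((Finset.univ.filter (fun y : Fin (t + 1) → X =>
          (∀ s, y s ∈ A i) ∧ ∃ h ∈ N', ((A i) ∩ (h ∆ c i)).card ≤ e)).card : ℝ) := by
        intro i hi
        rw [Finset.mem_filter] at hi
        by_cases hqi : q i = 0
        · rw [hqi, zero_mul, zero_mul]
        refine mul_le_mul_of_nonneg_left ?_ (hq i)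
        have hcN := hqN i hqi
        have h3 : (Fintype.piFinset fun _ : Fin (t + 1) => A i) ⊆
            Finset.univ.filter (fun y : Fin (t + 1) → X =>
              (∀ s, y s ∈ A i) ∧ ∃ h ∈ N', ((A i) ∩ (h ∆ c i)).card ≤ e) := by
          intro y hy
          rw [Fintype.mem_piFinset] at hy
          rw [Finset.mem_filter]
          refine ⟨Finset.mem_univ _, hy, π (c i), hπ1 _ hcN, ?_⟩
          have h4 := hi.2
          push Not at h4
          rw [symmDiff_comm]
          exact h4.le
        have h4 := Finset.card_le_card h3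
        rw [Fintype.card_piFinset_const] at h4
        have h5 : e ^ (t + 1) ≤ (A i).card ^ (t + 1) := Nat.pow_le_pow_left (hA1 i) _
        exact_mod_cast h5.trans h4
      have h3 : (Q / 2) * (e : ℝ) ^ (t + 1) ≤
          ∑ i, q i * ((Finset.univ.filter (fun y : Fin (t + 1) → X =>
          (∀ s, y s ∈ A i) ∧ ∃ h ∈ N', ((A i) ∩ (h ∆ c i)).card ≤ e)).card : ℝ) := by
        calc (Q / 2) * (e : ℝ) ^ (t + 1)
            ≤ (∑ i ∈ Finset.univ.filter (fun i => ¬ e ≤ (A i ∩ R (c i)).card), q i) *
                (e : ℝ) ^ (t + 1) := mul_le_mul_of_nonneg_right h1 (by positivity)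
          _ = ∑ i ∈ Finset.univ.filter (fun i => ¬ e ≤ (A i ∩ R (c i)).card),
                q i * (e : ℝ) ^ (t + 1) := by rw [Finset.sum_mul]
          _ ≤ _ := Finset.sum_le_sum h2
          _ ≤ _ := Finset.sum_le_sum_of_subset_of_nonneg (Finset.filter_subset _ _)
              fun i _ _ => mul_nonneg (hq i) (Nat.cast_nonneg _)
      refine le_trans ?_ h3
      have h4 : ((e : ℝ) / 4) ^ (t + 1) ≤ (e : ℝ) ^ (t + 1) := by
        refine pow_le_pow_left₀ (by positivity) ?_ _
        have : (0 : ℝ) ≤ e := Nat.cast_nonneg _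
        linarith
      nlinarith

end Pool.Agent.MPaa62e0
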