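import Mathlib

set_option autoImplicit false

open Finset

namespace Pool.Agent.MPaa62e0

/-- The VC dimension does not grow when a class is pulled back along a map. -/
theorem vcDim_pullback {X Y : Type} [DecidableEq X] [Fintype Y] [DecidableEq Y] (f : Y → X)
    (C : Finset (Finset X)) :
    (C.image (fun c => Finset.univ.filter (fun q : Y => f q ∈ c))).vcDim ≤ C.vcDim := by
  classical
  unfold Finset.vcDim
  refine Finset.sup_le ?_
  intro s hs
  rw [Finset.mem_shatterer] at hs
  have hinj : Set.InjOn f (s : Set Y) := by
    intro i hi j hj hij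
    by_contra hne
    obtain ⟨t, ht, hst⟩ := hs.exists_inter_eq_singleton (a := i) (by simpa using hi)
    rw [Finset.mem_image] at ht
    obtain ⟨c, _, rfl⟩ := ht
    have hi' : i ∈ s ∩ Finset.univ.filter (fun q : Y => f q ∈ c) := by rw [hst]; simp
    have hzi : f i ∈ c := by
      have := (Finset.mem_inter.1 hi').2
      simpa using this
    have hj' : j ∈ s ∩ Finset.univ.filter (fun q : Y => f q ∈ c) := by
      refine Finset.mem_inter.2 ⟨by simpa using hj, ?_⟩
      simp only [Finset.mem_filter, Finset.mem_univ, true_and]
      rw [← hij]; exact hzi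
    rw [hst, Finset.mem_singleton] at hj'
    exact hne hj'.symm
  have hsh : C.Shatters (s.image f) := by
    intro t ht
    set r : Finset Y := s.filter (fun i => f i ∈ t) with hr
    obtain ⟨u, hu, hsu⟩ := hs (t := r) (Finset.filter_subset _ _)
    rw [Finset.mem_image] at hu
    obtain ⟨c, hc, rfl⟩ := hu
    refine ⟨c, hc, ?_⟩
    ext x
    constructor
    · intro hx
      rw [Finset.mem_inter, Finset.mem_image] at hx
      obtain ⟨⟨i, hi, rfl⟩, hxc⟩ := hx
      have : i ∈ s ∩ Finset.univ.filter (fun q : Y => f q ∈ c) := by
        refine Finset.mem_inter.2 ⟨hi, ?_⟩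
        simp only [Finset.mem_filter, Finset.mem_univ, true_and]
        exact hxc
      rw [hsu, hr, Finset.mem_filter] at this
      exact this.2
    · intro hx
      obtain ⟨i, hi, rfl⟩ := Finset.mem_image.1 (ht hx)
      have : i ∈ s ∩ Finset.univ.filter (fun q : Y => f q ∈ c) := by
        rw [hsu, hr, Finset.mem_filter]; exact ⟨hi, hx⟩
      have h2 := (Finset.mem_inter.1 this).2
      simp only [Finset.mem_filter, Finset.mem_univ, true_and] at h2
      exact Finset.mem_inter.2 ⟨Finset.mem_image_of_mem f hi, h2⟩
  have hcard : (s.image f).card = s.card := Finset.card_image_of_injOn hinj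
  have h1 : (s.image f).card ≤ C.shatterer.sup Finset.card :=
    Finset.le_sup (f := Finset.card) (Finset.mem_shatterer.2 hsh)
  omega

end Pool.Agent.MPaa62e0
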