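/-
MP_aa62e0_lc: advice bits can be written in the labels of additional points of the sample
(linear version: a scheme with u points and b bits of advice gives a scheme with u + 3 b + 4
points and no advice).
-/
import Mathlib

set_option autoImplicit false
set_option linter.unusedSectionVars false

namespace Pool.Agent.MPaa62e0.Roles

section lists

variable {X : Type} [LinearOrder X]

/-- strictly sorted lists of labelled points -/
def Srt (A : List (X × Bool)) : Prop := A.Pairwise (fun p q => p.1 < q.1)

/-- the last points of the maximal runs of equal labels -/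
def kl : List (X × Bool) → List (X × Bool)
  | [] => []
  | [a] => [a]
  | a :: b :: l => if a.2 = b.2 then kl (b :: l) else a :: kl (b :: l)

theorem kl_sublist : ∀ A : List (X × Bool), (kl A).Sublist A
  | [] => by simp [kl]
  | [a] => by simp [kl]
  | a :: b :: l => by
    have ih := kl_sublist (b :: l)
    rw [kl]
    split_ifs
    · exact ih.trans (List.sublist_cons_self _ _)
    · exact ih.cons_cons a

theorem kl_head : ∀ (a : X × Bool) (l : List (X × Bool)),
    ∃ c t, kl (a :: l) = c :: t ∧ c.2 = a.2
  | a, [] => ⟨a, [], by simp [kl], rfl⟩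
  | a, b :: l => by
    rw [kl]
    split_ifs with h
    · obtain ⟨c, t, h1, h2⟩ := kl_head b l
      exact ⟨c, t, h1, by rw [h2, h]⟩
    · exact ⟨a, _, rfl, rfl⟩

theorem kl_alt : ∀ A : List (X × Bool), ∀ p1 p2 t, kl A = p1 :: p2 :: t → p1.2 ≠ p2.2
  | [] => by simp [kl]
  | [a] => by simp [kl]
  | a :: b :: l => by
    intro p1 p2 t h
    rw [kl] at h
    split_ifs at h with hab
    · exact kl_alt (b :: l) p1 p2 t h
    · obtain ⟨c, s, h1, h2⟩ := kl_head b l
      rw [h1] at h
      simp only [List.cons.injEq] at h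
      rw [← h.1, ← h.2.1, h2]
      exact hab

/-- label of the first point of K at or above x -/
def near (K : List (X × Bool)) (x : X) : Bool :=
  match K.find? (fun p => decide (x ≤ p.1)) with
  | some q => q.2
  | none => false

theorem near_kl : ∀ A : List (X × Bool), Srt A → ∀ p ∈ A, near (kl A) p.1 = p.2
  | [] => by simp
  | [a] => by
    intro _ p hp
    rw [List.mem_singleton] at hp
    subst hp
    simp [kl, near]
  | a :: b :: l => by
    intro hs p hp
    have hs' : Srt (b :: l) := (List.pairwise_cons.1 hs).2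
    have ha : ∀ q ∈ b :: l, a.1 < q.1 := (List.pairwise_cons.1 hs).1
    have ih := near_kl (b :: l) hs'
    rw [kl]
    split_ifs with hab
    · rcases List.mem_cons.1 hp with rfl | hp
      · obtain ⟨c, t, h1, h2⟩ := kl_head b l
        have hc : c ∈ b :: l := (kl_sublist (b :: l)).subset (by rw [h1]; simp)
        have : p.1 ≤ c.1 := (ha c hc).le
        rw [h1, near, List.find?_cons_of_pos (by simpa using this)]
        rw [hab, ← h2]
      · exact ih p hp
    · rcases List.mem_cons.1 hp with rfl | hp
      · rw [near, List.find?_cons_of_pos (by simp)]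
      · have : ¬ p.1 ≤ a.1 := not_le.2 (ha p hp)
        have h3 := ih p hp
        rw [near] at h3 ⊢
        rw [List.find?_cons_of_neg (by simpa using this)]
        exact h3

/-- the first run of a nonempty sample -/
theorem peel : ∀ (l : List (X × Bool)) (a : X × Bool), Srt (a :: l) →
    ∃ r A1 t, a :: l = (a :: r) ++ A1 ∧ (∀ p ∈ a :: r, p.2 = a.2) ∧ t ∈ a :: r ∧
      (∀ p ∈ a :: r, p.1 ≤ t.1) ∧ (∀ a1 l1, A1 = a1 :: l1 → a1.2 ≠ a.2) ∧
      (kl (a :: l)).length = (kl A1).length + 1
  | [], a => by
    intro _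
    refine ⟨[], [], a, by simp, by simp, by simp, by simp, by simp, by simp [kl]⟩
  | b :: l, a => by
    intro hs
    have hs' : Srt (b :: l) := (List.pairwise_cons.1 hs).2
    have ha : ∀ q ∈ b :: l, a.1 < q.1 := (List.pairwise_cons.1 hs).1
    by_cases hab : a.2 = b.2
    · obtain ⟨r, A1, t, h1, h2, h3, h4, h5, h6⟩ := peel l b hs'
      refine ⟨b :: r, A1, t, by rw [h1]; simp, ?_, List.mem_cons_of_mem _ h3, ?_, ?_, ?_⟩
      · intro p hp
        rcases List.mem_cons.1 hp with rfl | hp
        · rfl
        · rw [h2 p hp, hab]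
      · intro p hp
        rcases List.mem_cons.1 hp with rfl | hp
        · exact (ha t (by rw [h1]; exact List.mem_append_left _ h3)).le
        · exact h4 p hp
      · intro a1 l1 h
        rw [hab]
        exact h5 a1 l1 h
      · rw [kl, if_pos hab]
        exact h6
    · refine ⟨[], b :: l, a, by simp, by simp, by simp, by simp, ?_, ?_⟩
      · intro a1 l1 h
        simp only [List.cons.injEq] at h
        rw [← h.1]
        exact fun h' => hab h'.symm
      · rw [kl, if_neg hab]
        simp

/-- The decoder for n windows of three runs. -/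
def D (F : List Bool → List (X × Bool) → X → Bool) :
    ℕ → List Bool → List (X × Bool) → X → Bool
  | 0, bits, K, x =>
    match K with
    | [] => false
    | t :: rest => if x ≤ t.1 then t.2 else F bits rest x
  | n + 1, bits, K, x =>
    match K with
    | [] => false
    | [_] => false
    | p1 :: p2 :: K' =>
      if x ≤ p1.1 then p1.2 else if x < p2.1 then !p1.2 else if x = p2.1 then p2.2 else
        if (K'.takeWhile (fun q => q.2 == p1.2)).any (fun q => decide (x ≤ q.1)) then p1.2 else
        D F n (bits ++ [p2.2 == p1.2]) (K'.dropWhile (fun q => q.2 == p1.2)) x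

theorem takeWhile_append_stop {α : Type} (f : α → Bool) :
    ∀ (T : List α) (c : α) (s : List α), (∀ q ∈ T, f q = true) → f c = false →
      (T ++ c :: s).takeWhile f = T ∧ (T ++ c :: s).dropWhile f = c :: s
  | [], c, s, _, hc => by simp [hc]
  | q :: T, c, s, hT, hc => by
    have h1 := takeWhile_append_stop f T c s (fun q' hq' => hT q' (List.mem_cons_of_mem _ hq')) hc
    have h2 := hT q (by simp)
    simp only [List.cons_append, List.takeWhile_cons, List.dropWhile_cons, h2, if_true]
    exact ⟨by rw [h1.1], h1.2⟩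

theorem bool_eq_of_ne {a b c : Bool} (h1 : b ≠ a) (h2 : c ≠ b) : c = a := by
  cases a <;> cases b <;> cases c <;> simp_all

/-- Encoding n bits with the first 3 n + 1 runs of the sample. -/
theorem enc : ∀ (n : ℕ) (a : X × Bool) (l : List (X × Bool)), Srt (a :: l) →
    3 * n + 1 ≤ (kl (a :: l)).length →
    ∃ R A', a :: l = R ++ A' ∧ ∀ w : List Bool, w.length = n →
      ∃ c K, (c :: K).Sublist R ∧ (c :: K).length ≤ 3 * n + 1 ∧ c.2 = a.2 ∧
        (∀ w', w = true :: w' → ∃ p2 t, K = p2 :: t ∧ c.2 = p2.2) ∧
        ∀ (F : List Bool → List (X × Bool) → X → Bool) (bits : List Bool)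
          (rest : List (X × Bool)),
          (∀ p ∈ R, D F n bits (c :: K ++ rest) p.1 = p.2) ∧
          ∀ p ∈ A', D F n bits (c :: K ++ rest) p.1 = F (bits ++ w) rest p.1
  | 0, a, l => by
    intro hs _
    obtain ⟨r, A1, t, h1, h2, h3, h4, _, _⟩ := peel l a hs
    refine ⟨a :: r, A1, h1, ?_⟩
    intro w hw
    have hw' : w = [] := List.length_eq_zero_iff.1 hw
    subst hw'
    refine ⟨t, [], List.singleton_sublist.2 h3, by simp, h2 t h3, by simp, ?_⟩
    intro F bits rest
    refine ⟨fun p hp => ?_, fun p hp => ?_⟩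
    · simp only [List.cons_append, List.nil_append, D]
      rw [if_pos (h4 p hp), h2 t h3, h2 p hp]
    · have hs2 : Srt ((a :: r) ++ A1) := by rw [← h1]; exact hs
      have h5 : t.1 < p.1 := (List.pairwise_append.1 hs2).2.2 t h3 p hp
      simp only [List.cons_append, List.nil_append, D, List.append_nil]
      rw [if_neg (not_le.2 h5)]
  | n + 1, a, l => by
    intro hs hlen
    obtain ⟨r1, A1, t1, e1, l1, m1, b1, s1, k1⟩ := peel l a hs
    have hs1 : Srt ((a :: r1) ++ A1) := by rw [← e1]; exact hs
    have hA1 : Srt A1 := (List.pairwise_append.1 hs1).2.1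
    have x1 := (List.pairwise_append.1 hs1).2.2
    cases A1 with
    | nil => simp [kl] at k1; omega
    | cons a1 A1 =>
    obtain ⟨r2, A2, t2, e2, l2, m2, b2, s2, k2⟩ := peel A1 a1 hA1
    have hs2 : Srt ((a1 :: r2) ++ A2) := by rw [← e2]; exact hA1
    have hA2 : Srt A2 := (List.pairwise_append.1 hs2).2.1
    have x2 := (List.pairwise_append.1 hs2).2.2
    cases A2 with
    | nil => simp [kl] at k2; omega
    | cons a2 A2 =>
    obtain ⟨r3, A3, t3, e3, l3, m3, b3, s3, k3⟩ := peel A2 a2 hA2
    have hs3 : Srt ((a2 :: r3) ++ A3) := by rw [← e3]; exact hA2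
    have hA3 : Srt A3 := (List.pairwise_append.1 hs3).2.1
    have x3 := (List.pairwise_append.1 hs3).2.2
    cases A3 with
    | nil => simp [kl] at k3; omega
    | cons a3 A3 =>
    obtain ⟨R, A', e4, hK⟩ := enc n a3 A3 hA3 (by omega)
    have y1 : a1.2 ≠ a.2 := s1 a1 A1 rfl
    have y2 : a2.2 = a.2 := bool_eq_of_ne y1 (s2 a2 A2 rfl)
    have y3 : a3.2 ≠ a.2 := by rw [← y2]; exact s3 a3 A3 rfl
    refine ⟨(a :: r1) ++ (a1 :: r2) ++ (a2 :: r3) ++ R, A', ?_, ?_⟩
    · rw [e1, e2, e3, e4]
      simp
    intro w hw
    cases w with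
    | nil => simp at hw
    | cons β w =>
    have hw' : w.length = n := by simpa using hw
    obtain ⟨c, K, c1, c2, c3, c4, c5⟩ := hK w hw'
    -- comparisons
    have q12 : ∀ p ∈ a1 :: r2, t1.1 < p.1 := fun p hp => x1 t1 m1 p (by
      rw [e2]; exact List.mem_append_left _ hp)
    have q13 : ∀ p ∈ a2 :: r3, t1.1 < p.1 := fun p hp => x1 t1 m1 p (by
      rw [e2, e3]; exact List.mem_append_right _ (List.mem_append_left _ hp))
    have q23 : ∀ q ∈ a1 :: r2, ∀ p ∈ a2 :: r3, q.1 < p.1 := fun q hq p hp => x2 q hq p (by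
      rw [e3]; exact List.mem_append_left _ hp)
    have q34 : ∀ q ∈ a2 :: r3, ∀ p ∈ a3 :: A3, q.1 < p.1 := fun q hq p hp => x3 q hq p hp
    have q24 : ∀ q ∈ a1 :: r2, ∀ p ∈ a3 :: A3, q.1 < p.1 := fun q hq p hp => x2 q hq p (by
      rw [e3]; exact List.mem_append_right _ hp)
    have q14 : ∀ p ∈ a3 :: A3, t1.1 < p.1 := fun p hp => x1 t1 m1 p (by
      rw [e2, e3]; exact List.mem_append_right _ (List.mem_append_right _ hp))
    have hny : ∀ p ∈ a1 :: r2, (!t1.2) = p.2 := by
      intro p hp
      rw [l2 p hp, l1 t1 m1]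
      revert y1
      cases a.2 <;> cases a1.2 <;> simp
    have ht1 : t1.2 = a.2 := l1 t1 m1
    have ht3 : t3.2 = a.2 := by rw [l3 t3 m3, y2]
    have hcne : c.2 ≠ a.2 := by rw [c3]; exact y3
    -- the window
    obtain ⟨p2, T, hsub, hTlen, hTlab, hbit, hr2, hr3, hp24⟩ : ∃ (p2 : X × Bool)
        (T : List (X × Bool)),
        (t1 :: p2 :: T).Sublist ((a :: r1) ++ (a1 :: r2) ++ (a2 :: r3)) ∧ T.length ≤ 1 ∧
        (∀ q ∈ T, q.2 = a.2 ∧ ∀ p ∈ a3 :: A3, q.1 < p.1) ∧ (p2.2 == t1.2) = β ∧
        (∀ p ∈ a1 :: r2, p.1 < p2.1 ∨ (p.1 = p2.1 ∧ p2.2 = p.2)) ∧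
        (∀ p ∈ a2 :: r3, (p.1 = p2.1 ∧ p2.2 = p.2) ∨
          (p2.1 < p.1 ∧ ∃ q ∈ T, p.1 ≤ q.1)) ∧
        (∀ p ∈ a3 :: A3, p2.1 < p.1) := by
      cases β with
      | false =>
        refine ⟨t2, [t3], ?_, by simp, ?_, ?_, ?_, ?_, ?_⟩
        · have h1 : [t1].Sublist (a :: r1) := List.singleton_sublist.2 m1
          have h2 : [t2].Sublist (a1 :: r2) := List.singleton_sublist.2 m2
          have h3 : [t3].Sublist (a2 :: r3) := List.singleton_sublist.2 m3
          exact (h1.append h2).append h3
        · intro q hq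
          rw [List.mem_singleton] at hq
          subst hq
          exact ⟨ht3, fun p hp => q34 q m3 p hp⟩
        · rw [l2 t2 m2, ht1]
          simpa using y1
        · intro p hp
          rcases lt_or_eq_of_le (b2 p hp) with h | h
          · exact Or.inl h
          · exact Or.inr ⟨h, by rw [l2 t2 m2, l2 p hp]⟩
        · intro p hp
          exact Or.inr ⟨q23 t2 m2 p hp, t3, by simp, b3 p hp⟩
        · exact fun p hp => q24 t2 m2 p hp
      | true =>
        have ha2 : a2 ∈ a2 :: r3 := List.mem_cons_self
        by_cases h32 : t3 = a2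
        · refine ⟨a2, [], ?_, by simp, by simp, ?_, ?_, ?_, ?_⟩
          · have h1 : [t1].Sublist (a :: r1) := List.singleton_sublist.2 m1
            have h3 : [a2].Sublist (a2 :: r3) := List.singleton_sublist.2 ha2
            exact (h1.append (List.nil_sublist (a1 :: r2))).append h3
          · rw [y2, ht1]
            simp
          · intro p hp
            exact Or.inl (q23 p hp a2 ha2)
          · intro p hp
            left
            have h4 : p.1 ≤ a2.1 := by rw [← h32]; exact b3 p hp
            rcases List.mem_cons.1 hp with rfl | hp'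
            · exact ⟨rfl, rfl⟩
            · exact absurd ((List.pairwise_cons.1 (List.pairwise_append.1 hs3).1).1 p hp')
                (not_lt.2 h4)
          · exact fun p hp => q34 a2 ha2 p hp
        · have h3r : t3 ∈ r3 := by
            rcases List.mem_cons.1 m3 with h | h
            · exact absurd h h32
            · exact h
          refine ⟨a2, [t3], ?_, by simp, ?_, ?_, ?_, ?_, ?_⟩
          · have h1 : [t1].Sublist (a :: r1) := List.singleton_sublist.2 m1
            have h3 : [a2, t3].Sublist (a2 :: r3) :=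
              (List.singleton_sublist.2 h3r).cons_cons a2
            exact (h1.append (List.nil_sublist (a1 :: r2))).append h3
          · intro q hq
            rw [List.mem_singleton] at hq
            subst hq
            exact ⟨ht3, fun p hp => q34 q m3 p hp⟩
          · rw [y2, ht1]
            simp
          · intro p hp
            exact Or.inl (q23 p hp a2 ha2)
          · intro p hp
            rcases List.mem_cons.1 hp with rfl | hp'
            · exact Or.inl ⟨rfl, rfl⟩
            · exact Or.inr ⟨(List.pairwise_cons.1 (List.pairwise_append.1 hs3).1).1 p hp', t3,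
                by simp, b3 p hp⟩
          · exact fun p hp => q34 a2 ha2 p hp
    refine ⟨t1, p2 :: (T ++ c :: K), ?_, ?_, ht1, ?_, ?_⟩
    · have := hsub.append c1
      simpa using this
    · simp only [List.length_cons, List.length_append] at c2 ⊢
      omega
    · intro w' hw'
      simp only [List.cons.injEq] at hw'
      refine ⟨p2, T ++ c :: K, rfl, ?_⟩
      rw [hw'.1] at hbit
      exact (eq_of_beq hbit).symm
    intro F bits rest
    have htw := takeWhile_append_stop (fun q : X × Bool => q.2 == t1.2) T c (K ++ rest)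
      (fun q hq => by rw [(hTlab q hq).1, ht1]; simp)
      (by rw [ht1]; simpa using hcne)
    have hD : ∀ x, D F (n + 1) bits (t1 :: p2 :: (T ++ c :: K) ++ rest) x =
        if x ≤ t1.1 then t1.2 else if x < p2.1 then !t1.2 else if x = p2.1 then p2.2 else
        if T.any (fun q => decide (x ≤ q.1)) then t1.2 else
        D F n (bits ++ [β]) (c :: K ++ rest) x := by
      intro x
      have hl : t1 :: p2 :: (T ++ c :: K) ++ rest = t1 :: p2 :: (T ++ c :: (K ++ rest)) := by
        simp
      rw [hl]
      simp only [D]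
      rw [htw.1, htw.2, hbit]
      rfl
    have h5 := c5 F (bits ++ [β]) rest
    have hA3 : ∀ p ∈ a3 :: A3, D F (n + 1) bits (t1 :: p2 :: (T ++ c :: K) ++ rest) p.1 =
        D F n (bits ++ [β]) (c :: K ++ rest) p.1 := by
      intro p hp
      rw [hD, if_neg (not_le.2 (q14 p hp)), if_neg (not_lt.2 (hp24 p hp).le),
        if_neg (hp24 p hp).ne', if_neg]
      simp only [List.any_eq_true, decide_eq_true_eq, not_exists, not_and, not_le]
      exact fun q hq => (hTlab q hq).2 p hp
    refine ⟨fun p hp => ?_, fun p hp => ?_⟩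
    · rw [List.mem_append, List.mem_append, List.mem_append] at hp
      rcases hp with ((hp | hp) | hp) | hp
      · rw [hD, if_pos (b1 p hp), ht1, l1 p hp]
      · rw [hD, if_neg (not_le.2 (q12 p hp))]
        rcases hr2 p hp with h | ⟨h, h'⟩
        · rw [if_pos h]
          exact hny p hp
        · rw [if_neg (by rw [h]; exact lt_irrefl _), if_pos h, h']
      · rw [hD, if_neg (not_le.2 (q13 p hp))]
        rcases hr3 p hp with ⟨h, h'⟩ | ⟨h, q, hq, hq'⟩
        · rw [if_neg (by rw [h]; exact lt_irrefl _), if_pos h, h']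
        · rw [if_neg (not_lt.2 h.le), if_neg h.ne', if_pos, ht1, l3 p hp, y2]
          rw [List.any_eq_true]
          exact ⟨q, hq, by simpa using hq'⟩
      · rw [hA3 p (by rw [e4]; exact List.mem_append_left _ hp)]
        exact h5.1 p hp
    · rw [hA3 p (by rw [e4]; exact List.mem_append_right _ hp), h5.2 p hp]
      simp

end lists

section final

open Classical in
/-- **Advice is free.** If every sample of a hereditary family of functional samples can be
compressed to at most u of its points together with a word of b bits, then it can be compressed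
to at most u + 3 b + 4 of its points, and nothing else. -/
theorem no_advice {X : Type} [Fintype X] (u b : ℕ) (P : Finset (X × Bool) → Prop)
    (hsub : ∀ S S', S' ⊆ S → P S → P S')
    (hfun : ∀ S, P S → ∀ p ∈ S, ∀ q ∈ S, p.1 = q.1 → p.2 = q.2)
    (ρ0 : Finset (X × Bool) → (Fin b → Bool) → X → Bool)
    (h : ∀ S, P S → ∃ U ⊆ S, U.card ≤ u ∧ ∃ w : Fin b → Bool, ∀ p ∈ S, ρ0 U w p.1 = p.2) :
    ∃ κ : Finset (X × Bool) → Finset (X × Bool), ∃ ρ : Finset (X × Bool) → X → Bool,
      ∀ S, P S → κ S ⊆ S ∧ (κ S).card ≤ u + 3 * b + 4 ∧ ∀ p ∈ S, ρ (κ S) p.1 = p.2 := by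
  letI : LinearOrder X := LinearOrder.lift' (Fintype.equivFin X) (Fintype.equivFin X).injective
  obtain ⟨lr, hlr⟩ : ∃ lr : X × Bool → X × Bool → Prop,
      lr = fun p q => toLex p ≤ toLex q := ⟨_, rfl⟩
  haveI i1 : IsTrans (X × Bool) lr := ⟨fun a b c h1 h2 => by
    rw [hlr] at h1 h2 ⊢
    exact le_trans h1 h2⟩
  haveI i2 : Std.Antisymm lr := ⟨fun a b h1 h2 => by
    rw [hlr] at h1 h2
    exact toLex.injective (le_antisymm h1 h2)⟩
  haveI i3 : Std.Total lr := ⟨fun a b => by
    rw [hlr]
    exact le_total _ _⟩
  have hlt : ∀ p q : X × Bool, p.1 < q.1 → lr p q := by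
    intro p q hpq
    rw [hlr]
    exact (Prod.Lex.toLex_le_toLex.2 (Or.inl hpq))
  -- sorted lists
  have hsort : ∀ S, P S → Srt (S.sort lr) := by
    intro S hS
    have h1 : (S.sort lr).Pairwise lr := Finset.pairwise_sort _ _
    have h2 : (S.sort lr).Nodup := Finset.sort_nodup _ _
    have h3 : (S.sort lr).Pairwise (fun p q => lr p q ∧ p ≠ q) := h1.and h2
    refine h3.imp_of_mem ?_
    intro p q hp hq hpq
    rw [Finset.mem_sort] at hp hq
    have h4 : toLex p ≤ toLex q := by
      have := hpq.1
      rw [hlr] at this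
      exact this
    rcases Prod.Lex.toLex_le_toLex.1 h4 with h5 | h5
    · exact h5
    · exact absurd (Prod.ext h5.1 (hfun S hS p hp q hq h5.1)) hpq.2
  have hback : ∀ K : List (X × Bool), Srt K → K.toFinset.sort lr = K := by
    intro K hK
    have hnd : K.Nodup := hK.imp (fun {p q} hpq => by
      intro h'
      rw [h'] at hpq
      exact lt_irrefl _ hpq)
    exact (List.toFinset_sort lr hnd).2 (hK.imp (fun {p q} hpq => hlt p q hpq))
  obtain ⟨F, hF⟩ : ∃ F : List Bool → List (X × Bool) → X → Bool,
      F = fun bits rest x => ρ0 rest.toFinset (fun i : Fin b => bits.getD (i + 1) false) x :=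
    ⟨_, rfl⟩
  obtain ⟨ρ, hρ⟩ : ∃ ρ : Finset (X × Bool) → X → Bool, ρ = fun V x =>
      if (∃ p1 p2 t, V.sort lr = p1 :: p2 :: t ∧ p1.2 = p2.2) then
        D F (b + 1) [] (V.sort lr) x
      else near (V.sort lr) x := ⟨_, rfl⟩
  have key : ∀ S, P S → ∃ V, V ⊆ S ∧ V.card ≤ u + 3 * b + 4 ∧ ∀ p ∈ S, ρ V p.1 = p.2 := by
    intro S hS
    have hA := hsort S hS
    by_cases hlen : 3 * (b + 1) + 1 ≤ (kl (S.sort lr)).length
    · obtain ⟨A, hAdef⟩ : ∃ A, A = S.sort lr := ⟨_, rfl⟩
      rw [← hAdef] at hA hlen
      have hmem : ∀ p, p ∈ A ↔ p ∈ S := by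
        intro p
        rw [hAdef, Finset.mem_sort]
      cases A with
      | nil => simp [kl] at hlen
      | cons a l =>
      obtain ⟨R, A', hRA, henc⟩ := enc (b + 1) a l hA hlen
      have hsp : Srt (R ++ A') := by rw [← hRA]; exact hA
      have hsA' : Srt A' := (List.pairwise_append.1 hsp).2.1
      have hsR : Srt R := (List.pairwise_append.1 hsp).1
      have hx := (List.pairwise_append.1 hsp).2.2
      have hS' : A'.toFinset ⊆ S := by
        intro p hp
        rw [List.mem_toFinset] at hp
        rw [← hmem, hRA]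
        exact List.mem_append_right _ hp
      have hPS' := hsub S _ hS' hS
      obtain ⟨U, hU, hUc, w, hw⟩ := h _ hPS'
      have hPU := hsub _ _ hU hPS'
      have hsU := hsort U hPU
      obtain ⟨c, K, c1, c2, _, c4, c5⟩ := henc (true :: List.ofFn w) (by simp)
      obtain ⟨p2, t, hK, hc2⟩ := c4 _ rfl
      have hsK : Srt (c :: K) := hsR.sublist c1
      have hUA' : ∀ q ∈ U.sort lr, q ∈ A' := by
        intro q hq
        rw [Finset.mem_sort] at hq
        exact List.mem_toFinset.1 (hU hq)
      have hsL : Srt ((c :: K) ++ U.sort lr) := by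
        refine List.pairwise_append.2 ⟨hsK, hsU, ?_⟩
        intro p hp q hq
        exact hx p (c1.subset hp) q (hUA' q hq)
      have hV : (((c :: K) ++ U.sort lr).toFinset).sort lr = (c :: K) ++ U.sort lr := hback _ hsL
      refine ⟨((c :: K) ++ U.sort lr).toFinset, ?_, ?_, ?_⟩
      · intro p hp
        rw [List.mem_toFinset, List.mem_append] at hp
        rw [← hmem, hRA]
        rcases hp with hp | hp
        · exact List.mem_append_left _ (c1.subset hp)
        · exact List.mem_append_right _ (hUA' p hp)
      · refine (List.toFinset_card_le _).trans ?_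
        rw [List.length_append, Finset.length_sort]
        omega
      · intro p hp
        have h6 : ∃ p1 p2 t, (((c :: K) ++ U.sort lr).toFinset).sort lr = p1 :: p2 :: t ∧
            p1.2 = p2.2 := by
          rw [hV, hK]
          exact ⟨c, p2, t ++ U.sort lr, rfl, hc2⟩
        rw [hρ]
        simp only
        rw [if_pos h6, hV]
        have h7 := c5 F [] (U.sort lr)
        have hpA := (hmem p).2 hp
        rw [hRA, List.mem_append] at hpA
        rcases hpA with hpR | hpA
        · exact h7.1 p hpR
        · rw [h7.2 p hpA, hF]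
          simp only
          rw [Finset.sort_toFinset]
          have h8 : (fun i : Fin b => ([] ++ (true :: List.ofFn w)).getD ((i : ℕ) + 1) false) =
              w := by
            funext i
            simp [List.getD]
          rw [h8]
          exact hw p (List.mem_toFinset.2 hpA)
    · push Not at hlen
      have hsk : Srt (kl (S.sort lr)) := hA.sublist (kl_sublist _)
      have hV := hback _ hsk
      refine ⟨(kl (S.sort lr)).toFinset, ?_, ?_, ?_⟩
      · intro p hp
        rw [List.mem_toFinset] at hp
        have := (kl_sublist _).subset hp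
        rwa [Finset.mem_sort] at this
      · refine (List.toFinset_card_le _).trans ?_
        omega
      · intro p hp
        have h6 : ¬ ∃ p1 p2 t, ((kl (S.sort lr)).toFinset).sort lr = p1 :: p2 :: t ∧
            p1.2 = p2.2 := by
          rw [hV]
          rintro ⟨p1, p2, t, h1, h2⟩
          exact kl_alt _ p1 p2 t h1 h2
        rw [hρ]
        simp only
        rw [if_neg h6, hV]
        exact near_kl _ hA p (by rw [Finset.mem_sort]; exact hp)
  refine ⟨fun S => if hS : P S then (key S hS).choose else ∅, ρ, fun S hS => ?_⟩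
  simp only [dif_pos hS]
  exact (key S hS).choose_spec

end final

end Pool.Agent.MPaa62e0.Roles
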