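import Mathlib

set_option autoImplicit false

open Finset
open scoped symmDiff

namespace Pool.Agent.MPaa62e0

/-- Sauer-Shelah for a class pulled back to an index type. -/
theorem card_le_sum_choose {X β : Type} [DecidableEq X] [Fintype β] [DecidableEq β]
    (N : Finset (Finset X)) (d : ℕ) (hN : N.vcDim ≤ d) (z : β → X)
    (hz : ∀ c ∈ N, ∀ c' ∈ N, c ≠ c' → ∃ i, ¬ (z i ∈ c ↔ z i ∈ c')) :
    N.card ≤ ∑ k ∈ Finset.range (d + 1), (Fintype.card β).choose k := by
  classical
  set f : Finset X → Finset β := fun c => Finset.univ.filter (fun i : β => z i ∈ c) with hf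
  have hinj : Set.InjOn f (N : Set (Finset X)) := by
    intro c hc c' hc' h
    by_contra hne
    obtain ⟨i, hi⟩ := hz c (by simpa using hc) c' (by simpa using hc') hne
    apply hi
    have : i ∈ f c ↔ i ∈ f c' := by rw [h]
    simpa [hf] using this
  set A : Finset (Finset β) := N.image f with hA
  have hcard : A.card = N.card := Finset.card_image_of_injOn hinj
  have hvc : A.vcDim ≤ d := by
    refine le_trans ?_ hN
    unfold Finset.vcDim
    refine Finset.sup_le ?_
    intro s hs
    rw [Finset.mem_shatterer] at hs
    have hzinj : Set.InjOn z (s : Set β) := by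
      intro i hi j hj hij
      by_contra hne
      obtain ⟨t, ht, hst⟩ := hs.exists_inter_eq_singleton (a := i) (by simpa using hi)
      rw [hA, Finset.mem_image] at ht
      obtain ⟨c, _, rfl⟩ := ht
      have hi' : i ∈ s ∩ f c := by rw [hst]; simp
      have hzi : z i ∈ c := by
        have := (Finset.mem_inter.1 hi').2
        simpa [hf] using this
      have hj' : j ∈ s ∩ f c := by
        refine Finset.mem_inter.2 ⟨by simpa using hj, ?_⟩
        simp only [hf, Finset.mem_filter, Finset.mem_univ, true_and]
        rw [← hij]; exact hzi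
      rw [hst, Finset.mem_singleton] at hj'
      exact hne hj'.symm
    have hsh : N.Shatters (s.image z) := by
      intro t ht
      set r : Finset β := s.filter (fun i => z i ∈ t) with hr
      obtain ⟨u, hu, hsu⟩ := hs (t := r) (Finset.filter_subset _ _)
      rw [hA, Finset.mem_image] at hu
      obtain ⟨c, hc, rfl⟩ := hu
      refine ⟨c, hc, ?_⟩
      ext x
      constructor
      · intro hx
        rw [Finset.mem_inter, Finset.mem_image] at hx
        obtain ⟨⟨i, hi, rfl⟩, hxc⟩ := hx
        have : i ∈ s ∩ f c := by
          refine Finset.mem_inter.2 ⟨hi, ?_⟩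
          simp only [hf, Finset.mem_filter, Finset.mem_univ, true_and]
          exact hxc
        rw [hsu, hr, Finset.mem_filter] at this
        exact this.2
      · intro hx
        obtain ⟨i, hi, rfl⟩ := Finset.mem_image.1 (ht hx)
        have : i ∈ s ∩ f c := by
          rw [hsu, hr, Finset.mem_filter]; exact ⟨hi, hx⟩
        have h2 := (Finset.mem_inter.1 this).2
        simp only [hf, Finset.mem_filter, Finset.mem_univ, true_and] at h2
        exact Finset.mem_inter.2 ⟨Finset.mem_image_of_mem z hi, h2⟩
    have hc : (s.image z).card = s.card := Finset.card_image_of_injOn hzinj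
    have h1 : (s.image z).card ≤ N.shatterer.sup Finset.card :=
      Finset.le_sup (f := Finset.card) (Finset.mem_shatterer.2 hsh)
    omega
  calc N.card = A.card := hcard.symm
    _ ≤ A.shatterer.card := Finset.card_le_card_shatterer A
    _ ≤ ∑ k ∈ Finset.Iic A.vcDim, (Fintype.card β).choose k :=
        Finset.card_shatterer_le_sum_vcDim
    _ ≤ ∑ k ∈ Finset.range (d + 1), (Fintype.card β).choose k := by
        refine Finset.sum_le_sum_of_subset ?_
        intro k hk
        rw [Finset.mem_Iic] at hk
        rw [Finset.mem_range]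
        omega

theorem sum_choose_le {d m : ℕ} (hd : 1 ≤ d) (hm : d ≤ m) :
    (∑ k ∈ Finset.range (d + 1), (m.choose k : ℝ)) ≤ (3 * (m : ℝ) / d) ^ d := by
  have hd0 : (0 : ℝ) < d := by exact_mod_cast hd
  have hm0 : (0 : ℝ) < m := by
    have : 0 < m := by omega
    exact_mod_cast this
  set q : ℝ := (d : ℝ) / m with hq
  have hq0 : 0 < q := div_pos hd0 hm0
  have hq1 : q ≤ 1 := by
    rw [hq, div_le_one hm0]; exact_mod_cast hm
  have h1 : q ^ d * (∑ k ∈ Finset.range (d + 1), (m.choose k : ℝ)) ≤ (1 + q) ^ m := by
    rw [Finset.mul_sum]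
    have hbin : (1 + q) ^ m = ∑ k ∈ Finset.range (m + 1), q ^ k * (m.choose k : ℝ) := by
      rw [add_comm, add_pow]
      refine Finset.sum_congr rfl ?_
      intro k _
      rw [one_pow, mul_one]
    rw [hbin]
    calc ∑ k ∈ Finset.range (d + 1), q ^ d * (m.choose k : ℝ)
        ≤ ∑ k ∈ Finset.range (d + 1), q ^ k * (m.choose k : ℝ) := by
          refine Finset.sum_le_sum ?_
          intro k hk
          have hk' : k ≤ d := by
            have := Finset.mem_range.1 hk
            omega
          exact mul_le_mul_of_nonneg_right (pow_le_pow_of_le_one hq0.le hq1 hk')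
            (by positivity)
      _ ≤ ∑ k ∈ Finset.range (m + 1), q ^ k * (m.choose k : ℝ) := by
          refine Finset.sum_le_sum_of_subset_of_nonneg ?_ ?_
          · intro k hk
            rw [Finset.mem_range] at hk ⊢
            omega
          · intro k _ _
            positivity
  have h2 : (1 + q) ^ m ≤ (3 : ℝ) ^ d := by
    have ha : 1 + q ≤ Real.exp q := by
      have := Real.add_one_le_exp q
      linarith
    have hb : (1 + q) ^ m ≤ (Real.exp q) ^ m := pow_le_pow_left₀ (by positivity) ha m
    have hc : (Real.exp q) ^ m = Real.exp (d : ℝ) := by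
      rw [← Real.exp_nat_mul]
      apply congrArg
      rw [hq]
      field_simp
    have hd' : Real.exp (d : ℝ) = (Real.exp 1) ^ d := by
      rw [← Real.exp_nat_mul, mul_one]
    have he : Real.exp 1 ≤ 3 := by
      have := Real.exp_one_lt_d9
      linarith
    calc (1 + q) ^ m ≤ (Real.exp q) ^ m := hb
      _ = (Real.exp 1) ^ d := by rw [hc, hd']
      _ ≤ 3 ^ d := pow_le_pow_left₀ (Real.exp_pos 1).le he d
  have h3 : (3 * (m : ℝ) / d) ^ d = 3 ^ d / q ^ d := by
    rw [hq, ← div_pow]
    apply congrArg (fun x : ℝ => x ^ d)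
    field_simp
  rw [h3, le_div_iff₀ (by positivity), mul_comm]
  exact le_trans h1 h2

theorem card_class_le {X : Type} [Fintype X] [DecidableEq X] (C : Finset (Finset X)) :
    C.card ≤ (Fintype.card X + 1) ^ C.vcDim := by
  calc C.card ≤ C.shatterer.card := Finset.card_le_card_shatterer C
    _ ≤ ∑ k ∈ Finset.Iic C.vcDim, (Fintype.card X).choose k :=
        Finset.card_shatterer_le_sum_vcDim
    _ = ∑ k ∈ Finset.range (C.vcDim + 1), (Fintype.card X).choose k := by
        refine Finset.sum_congr ?_ (fun _ _ => rfl)
        ext k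
        rw [Finset.mem_Iic, Finset.mem_range]
        omega
    _ ≤ ∑ k ∈ Finset.range (C.vcDim + 1), (Fintype.card X) ^ k * 1 ^ (C.vcDim - k) *
          (C.vcDim).choose k := by
        refine Finset.sum_le_sum ?_
        intro k hk
        have hk' : k ≤ C.vcDim := by
          have := Finset.mem_range.1 hk
          omega
        have h1 : (Fintype.card X).choose k ≤ (Fintype.card X) ^ k := Nat.choose_le_pow _ _
        have h2 : 1 ≤ (C.vcDim).choose k := Nat.choose_pos hk'
        calc (Fintype.card X).choose k ≤ (Fintype.card X) ^ k := h1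
          _ = (Fintype.card X) ^ k * 1 ^ (C.vcDim - k) * 1 := by simp
          _ ≤ (Fintype.card X) ^ k * 1 ^ (C.vcDim - k) * (C.vcDim).choose k :=
              Nat.mul_le_mul_left _ h2
    _ = (Fintype.card X + 1) ^ C.vcDim := by
        rw [add_pow]
        exact Finset.sum_congr rfl (fun _ _ => by simp)

end Pool.Agent.MPaa62e0
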