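import Mathlib

set_option autoImplicit false

open Finset

namespace Pool.Agent.MPaa62e0

theorem Superset_choose (a k : ℕ) (hk : 0 < k) (hka : k ≤ a) (r : ℕ) (hr : r ≤ k) :
    ((a : ℝ) / k) ^ r ≤ ((a - k + r).choose r : ℝ) := by
  induction r with
  | zero => simp
  | succ r ih =>
    have ih' := ih (by omega)
    have h1 : ((a - k + r + 1).choose (r + 1) : ℝ) * (r + 1) = ((a - k + r : ℕ) + 1 : ℝ) *
        ((a - k + r).choose r : ℝ) := by
      have := Nat.add_one_mul_choose_eq (a - k + r) r
      have h2 : (((a - k + r + 1) * (a - k + r).choose r : ℕ) : ℝ)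
        = (((a - k + r + 1).choose (r + 1) * (r + 1) : ℕ) : ℝ) := by rw [this]
      push_cast at h2
      push_cast
      linarith
    have hkr : (0 : ℝ) < k := by exact_mod_cast hk
    have hr1 : (0 : ℝ) < (r : ℝ) + 1 := by positivity
    have h3 : ((a - k + r : ℕ) : ℝ) = (a : ℝ) - k + r := by
      push_cast [Nat.cast_sub hka]; ring
    have hra : ((r : ℝ) + 1) ≤ k := by exact_mod_cast hr
    have hkaR : (k : ℝ) ≤ a := by exact_mod_cast hka
    have h4 : (a : ℝ) / k * (r + 1) ≤ ((a - k + r : ℕ) : ℝ) + 1 := by
      rw [h3, div_mul_eq_mul_div, div_le_iff₀ hkr]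
      nlinarith [mul_nonneg (sub_nonneg.mpr hkaR) (sub_nonneg.mpr hra)]
    have hC : (0 : ℝ) ≤ ((a - k + r).choose r : ℝ) := by positivity
    have h5 : (((a : ℝ) / k) ^ (r + 1)) * (r + 1) ≤
        ((a - k + r + 1).choose (r + 1) : ℝ) * (r + 1) := by
      rw [h1, pow_succ]
      have hq : (0 : ℝ) ≤ (a : ℝ) / k := by positivity
      calc ((a : ℝ) / k) ^ r * ((a : ℝ) / k) * (r + 1)
          = ((a : ℝ) / k) ^ r * ((a : ℝ) / k * (r + 1)) := by ring
        _ ≤ ((a - k + r).choose r : ℝ) * ((a : ℝ) / k * (r + 1)) := by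
            apply mul_le_mul_of_nonneg_right ih'; positivity
        _ ≤ ((a - k + r).choose r : ℝ) * (((a - k + r : ℕ) : ℝ) + 1) :=
            mul_le_mul_of_nonneg_left h4 hC
        _ = _ := by ring
    have h6 := le_of_mul_le_mul_right h5 hr1
    have h7 : a - k + (r + 1) = a - k + r + 1 := by omega
    rw [h7]
    exact h6

/-- The number of k-subsets S of A which contain a given set Z with at most u elements. -/
theorem card_supersets {X : Type} [DecidableEq X] (A Z : Finset X) (u k : ℕ) (hZA : Z ⊆ A)
    (hZ : Z.card ≤ u) (huk : u ≤ k) (hkA : k ≤ A.card) :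
    ((A.card : ℝ) / k) ^ (k - u) ≤ (((A.powersetCard k).filter (fun S => Z ⊆ S)).card : ℝ) := by
  have h1 : ((A \ Z).powersetCard (k - Z.card)).card ≤
      ((A.powersetCard k).filter (fun S => Z ⊆ S)).card := by
    apply Finset.card_le_card_of_injOn (fun R => Z ∪ R)
    · intro R hR
      have hR' : R ⊆ A \ Z ∧ R.card = k - Z.card := by
        simpa [Finset.mem_powersetCard] using hR
      have hdis : Disjoint Z R := by
        rw [Finset.disjoint_left]
        intro x hx hxR
        exact (Finset.mem_sdiff.mp (hR'.1 hxR)).2 hx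
      simp only [Finset.coe_filter, Set.mem_ofPred_eq, Finset.mem_powersetCard]
      refine ⟨⟨?_, ?_⟩, Finset.subset_union_left⟩
      · exact Finset.union_subset hZA (hR'.1.trans Finset.sdiff_subset)
      · rw [Finset.card_union_of_disjoint hdis, hR'.2]; omega
    · intro R hR R' hR' h
      have hR1 : R ⊆ A \ Z := by
        have : R ⊆ A \ Z ∧ R.card = k - Z.card := by
          simpa [Finset.mem_powersetCard] using hR
        exact this.1
      have hR2 : R' ⊆ A \ Z := by
        have : R' ⊆ A \ Z ∧ R'.card = k - Z.card := by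
          simpa [Finset.mem_powersetCard] using hR'
        exact this.1
      ext x
      have hx : x ∈ Z ∪ R ↔ x ∈ Z ∪ R' := by
        have h' : Z ∪ R = Z ∪ R' := h
        rw [h']
      constructor
      · intro hxR
        have hxZ := (Finset.mem_sdiff.mp (hR1 hxR)).2
        have := hx.mp (Finset.mem_union_right _ hxR)
        rcases Finset.mem_union.mp this with h | h
        · exact absurd h hxZ
        · exact h
      · intro hxR
        have hxZ := (Finset.mem_sdiff.mp (hR2 hxR)).2
        have := hx.mpr (Finset.mem_union_right _ hxR)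
        rcases Finset.mem_union.mp this with h | h
        · exact absurd h hxZ
        · exact h
  rw [Finset.card_powersetCard, Finset.card_sdiff_of_subset hZA] at h1
  have h2 : A.card - Z.card = A.card - k + (k - Z.card) := by omega
  rw [h2] at h1
  have h3 : (((A.card - k + (k - Z.card)).choose (k - Z.card) : ℕ) : ℝ) ≤
      (((A.powersetCard k).filter (fun S => Z ⊆ S)).card : ℝ) := by exact_mod_cast h1
  refine le_trans ?_ h3
  rcases Nat.eq_zero_or_pos k with hk | hk
  · subst hk; simp
  · refine le_trans ?_ (Superset_choose A.card k hk hkA (k - Z.card) (by omega))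
    apply pow_le_pow_right₀
    · rw [one_le_div (by exact_mod_cast hk)]; exact_mod_cast hkA
    · omega

end Pool.Agent.MPaa62e0
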