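import Pool.Agent.Lib.MP_aa62e0_lc.Defs
import Pool.Agent.Lib.MP_aa62e0_lc.Superset

set_option autoImplicit false

open Finset
open scoped symmDiff

namespace Pool.Agent.MPaa62e0

variable {X : Type} [Fintype X] [DecidableEq X]

/-- Lower bound for the score of a random decoder: the advice y is used only if its support lies
in S, and it is good for (A, B) as soon as S contains Z y. -/
theorem score_ge {Y : Type} [Fintype Y] [DecidableEq Y] (k u : ℕ) (huk : u ≤ k)
    (A B : Finset X) (hkA : k ≤ A.card)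
    (μ : Finset X → Finset X → Finset X → ℝ) (w : ℝ) (hw : 0 ≤ w)
    (supp : Y → Finset X) (dec : Y → Finset X → Finset (Finset X))
    (hμ : ∀ S V h, S.card = k → μ S V h =
      w * ((Finset.univ.filter (fun y : Y => supp y ⊆ S ∧ h ∈ dec y V)).card : ℝ))
    (good : Finset Y) (Z : Y → Finset X) (hZA : ∀ y ∈ good, Z y ⊆ A)
    (hZu : ∀ y ∈ good, (Z y).card ≤ u)
    (hgood : ∀ y ∈ good, ∀ S : Finset X, Z y ⊆ S → S ⊆ A →
      supp y ⊆ S ∧ ∃ h ∈ dec y (S ∩ B), A ∩ (h ∆ B) ⊆ S) :
    w * (good.card : ℝ) * ((A.card : ℝ) / k) ^ (k - u) ≤ score k A B μ := by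
  have h1 : ∀ S ∈ A.powersetCard k, w * ((good.filter (fun y => Z y ⊆ S)).card : ℝ) ≤
      ∑ h ∈ Finset.univ.filter (fun h : Finset X => A ∩ (h ∆ B) ⊆ S), μ S (S ∩ B) h := by
    intro S hS
    rw [Finset.mem_powersetCard] at hS
    have h2 : ∑ h ∈ Finset.univ.filter (fun h : Finset X => A ∩ (h ∆ B) ⊆ S), μ S (S ∩ B) h =
        w * ∑ h ∈ Finset.univ.filter (fun h : Finset X => A ∩ (h ∆ B) ⊆ S),
          ((Finset.univ.filter (fun y : Y => supp y ⊆ S ∧ h ∈ dec y (S ∩ B))).card : ℝ) := by
      rw [Finset.mul_sum]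
      exact Finset.sum_congr rfl (fun h _ => hμ _ _ _ hS.2)
    rw [h2]
    refine mul_le_mul_of_nonneg_left ?_ hw
    have h3 : (good.filter (fun y => Z y ⊆ S)) ⊆
        (Finset.univ.filter (fun h : Finset X => A ∩ (h ∆ B) ⊆ S)).biUnion
          (fun h => Finset.univ.filter (fun y : Y => supp y ⊆ S ∧ h ∈ dec y (S ∩ B))) := by
      intro y hy
      rw [Finset.mem_filter] at hy
      obtain ⟨h4, h, h5, h6⟩ := hgood y hy.1 S hy.2 hS.1
      rw [Finset.mem_biUnion]
      exact ⟨h, by simp [h6], by simp [h4, h5]⟩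
    have h7 := (Finset.card_le_card h3).trans Finset.card_biUnion_le
    exact_mod_cast h7
  have h8 : ∑ S ∈ A.powersetCard k, w * ((good.filter (fun y => Z y ⊆ S)).card : ℝ) ≤
      score k A B μ := Finset.sum_le_sum h1
  refine le_trans ?_ h8
  rw [← Finset.mul_sum, mul_assoc]
  refine mul_le_mul_of_nonneg_left ?_ hw
  have h9 : ∑ S ∈ A.powersetCard k, (good.filter (fun y => Z y ⊆ S)).card =
      ∑ y ∈ good, ((A.powersetCard k).filter (fun S => Z y ⊆ S)).card :=
    Finset.sum_card_bipartiteAbove_eq_sum_card_bipartiteBelow (fun S y => Z y ⊆ S)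
  have h10 : ∑ S ∈ A.powersetCard k, ((good.filter (fun y => Z y ⊆ S)).card : ℝ) =
      ∑ y ∈ good, (((A.powersetCard k).filter (fun S => Z y ⊆ S)).card : ℝ) := by
    exact_mod_cast h9
  rw [h10, ← nsmul_eq_mul]
  exact Finset.card_nsmul_le_sum _ _ _
    (fun y hy => card_supersets A (Z y) u k (hZA y hy) (hZu y hy) huk hkA)

theorem subProb_of {Y : Type} [Fintype Y] [DecidableEq Y] (k m : ℕ) (w : ℝ) (hw : 0 ≤ w)
    (supp : Y → Finset X) (dec : Y → Finset X → Finset (Finset X))
    (hdec : ∀ y V, (dec y V).card ≤ m)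
    (hs : ∀ S : Finset X, S.card = k →
      w * (((Finset.univ.filter (fun y : Y => supp y ⊆ S)).card : ℝ) * m) ≤ 1) :
    SubProb (fun S V h => if S.card = k then
      w * ((Finset.univ.filter (fun y : Y => supp y ⊆ S ∧ h ∈ dec y V)).card : ℝ) else 0) := by
  constructor
  · intro S V h
    dsimp only
    split_ifs
    · exact mul_nonneg hw (Nat.cast_nonneg _)
    · exact le_rfl
  · intro S V
    dsimp only
    by_cases hk : S.card = k
    · simp only [hk, if_true]
      rw [← Finset.mul_sum]
      refine le_trans (mul_le_mul_of_nonneg_left ?_ hw) (hs S hk)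
      have h1 : ∑ h : Finset X,
          (Finset.univ.filter (fun y : Y => supp y ⊆ S ∧ h ∈ dec y V)).card =
          ∑ y ∈ Finset.univ.filter (fun y : Y => supp y ⊆ S), (dec y V).card := by
        have h2 : ∀ h : Finset X,
            (Finset.univ.filter (fun y : Y => supp y ⊆ S ∧ h ∈ dec y V)) =
            (Finset.univ.filter (fun y : Y => supp y ⊆ S)).filter (fun y => h ∈ dec y V) := by
          intro h
          rw [Finset.filter_filter]
        have h3 : ∀ y : Y, dec y V = (Finset.univ : Finset (Finset X)).filter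
            (fun h => h ∈ dec y V) := by
          intro y
          ext h
          simp
        rw [Finset.sum_congr rfl (fun h _ => congrArg Finset.card (h2 h))]
        rw [Finset.sum_congr rfl (fun y (_ : y ∈ Finset.univ.filter (fun y : Y => supp y ⊆ S)) =>
          congrArg Finset.card (h3 y))]
        exact Finset.sum_card_bipartiteAbove_eq_sum_card_bipartiteBelow (fun h y => h ∈ dec y V)
      have h4 : ∑ y ∈ Finset.univ.filter (fun y : Y => supp y ⊆ S), (dec y V).card ≤
          (Finset.univ.filter (fun y : Y => supp y ⊆ S)).card * m := by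
        rw [← smul_eq_mul]
        exact Finset.sum_le_card_nsmul _ _ _ (fun y _ => hdec y V)
      rw [← h1] at h4
      exact_mod_cast h4
    · simp [hk]

end Pool.Agent.MPaa62e0
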