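import Mathlib

set_option autoImplicit false

open Finset
open scoped symmDiff

namespace Pool.Agent.MPaa62e0

variable {X : Type} [Fintype X] [DecidableEq X]

/-- A member of the class N whose trace on W is V (empty set if there is none). -/
noncomputable def learn (N : Finset (Finset X)) (W V : Finset X) : Finset X :=
  open Classical in if h : ∃ c ∈ N, W ∩ c = V then h.choose else ∅

/-- Majority of three sets. -/
def maj3 (a b c : Finset X) : Finset X := (a ∩ b) ∪ (b ∩ c) ∪ (a ∩ c)

/-- Majority of three learned hypotheses; the second one uses two blocks. -/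
noncomputable def hyp3 (N : Finset (Finset X)) (s : ℕ) (y : Fin 4 → Fin s → X) (V : Finset X) :
    Finset X :=
  maj3 (learn N (univ.image (y 0)) (univ.image (y 0) ∩ V))
    (learn N (univ.image (y 1) ∪ univ.image (y 2)) ((univ.image (y 1) ∪ univ.image (y 2)) ∩ V))
    (learn N (univ.image (y 3)) (univ.image (y 3) ∩ V))

end Pool.Agent.MPaa62e0
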