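import Pool.Agent.Lib.MP_aa62e0_lc.ZoneApre
import Pool.Agent.Lib.MP_aa62e0_lc.Minimax

set_option autoImplicit false

open Finset
open scoped symmDiff

namespace Pool.Agent.MPaa62e0

variable {X : Type} [Fintype X] [DecidableEq X]

/-- The scores of a finite family of samples, as a linear map. -/
noncomputable def zoneA_lin (k : ℕ) {ι : Type} (A B : ι → Finset X) :
    (Finset X → Finset X → Finset X → ℝ) →ₗ[ℝ] (ι → ℝ) where
  toFun μ i := score k (A i) (B i) μ
  map_add' μ ν := by
    funext i
    simp only [score, Pi.add_apply, Finset.sum_add_distrib]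
  map_smul' a μ := by
    funext i
    simp only [score, Pi.smul_apply, smul_eq_mul, Finset.mul_sum, RingHom.id_apply]

omit [DecidableEq X] in
theorem zoneA_convex : Convex ℝ {μ : Finset X → Finset X → Finset X → ℝ | SubProb μ} := by
  intro μ hμ ν hν a b ha hb hab
  refine ⟨fun S V h => ?_, fun S V => ?_⟩
  · exact add_nonneg (mul_nonneg ha (hμ.1 S V h)) (mul_nonneg hb (hν.1 S V h))
  · have h1 : ∑ h, (a • μ + b • ν) S V h = a * ∑ h, μ S V h + b * ∑ h, ν S V h := by
      simp only [Pi.add_apply, Pi.smul_apply, smul_eq_mul, Finset.sum_add_distrib,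
        Finset.mul_sum]
    rw [h1]
    have h2 := mul_le_mul_of_nonneg_left (hμ.2 S V) ha
    have h3 := mul_le_mul_of_nonneg_left (hν.2 S V) hb
    linarith

end Pool.Agent.MPaa62e0
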