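import Pool.Agent.Lib.MP_aa62e0_lc.ScoreGe
import Pool.Agent.Lib.MP_aa62e0_lc.Chain

set_option autoImplicit false

open Finset
open scoped symmDiff

namespace Pool.Agent.MPaa62e0

variable {X : Type} [Fintype X] [DecidableEq X]

/-- The number of words of length n with all letters in S. -/
theorem ZoneApre_card_words (n : ℕ) (S : Finset X) :
    (Finset.univ.filter (fun y : Fin n → X => Finset.univ.image y ⊆ S)).card = S.card ^ n := by
  classical
  have h : (Finset.univ.filter (fun y : Fin n → X => Finset.univ.image y ⊆ S)) =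
      Fintype.piFinset (fun _ : Fin n => S) := by
    ext y
    rw [Finset.mem_filter, Fintype.mem_piFinset, Finset.image_subset_iff]
    simp
  rw [h, Fintype.card_piFinset]
  simp

/-- On the domain A, a concept and its trace on A differ from h at the same points. -/
theorem ZoneApre_inter (A c h : Finset X) : A ∩ (h ∆ (A ∩ c)) = A ∩ (h ∆ c) := by
  ext a
  simp only [Finset.mem_inter, Finset.mem_symmDiff]
  tauto

/-- Large samples, averaged over a distribution q on samples; the class may have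
2 ^ (2 d (2 x + 7) 2 ^ P) members. -/
theorem zoneA_preT (d x P k : ℕ) (hd : 1 ≤ d) (C : Finset (Finset X)) (hC : C.vcDim ≤ d)
    (hcard : C.card ≤ 2 ^ (2 * d * (2 * x + 7) * 2 ^ P)) (hk : 8 * d * P ≤ k) (hk1 : 1 ≤ k)
    {ι : Type} [Fintype ι] (A B : ι → Finset X) (hB : ∀ i, ∃ c ∈ C, B i = A i ∩ c)
    (hA1 : ∀ i, 2 * d * 2 ^ x ≤ (A i).card) (hA2 : ∀ i, (A i).card ≤ 4 * d * 2 ^ x)
    (hA3 : ∀ i, 4 * d ≤ (A i).card) (hkA : ∀ i, k ≤ (A i).card)
    (q : ι → ℝ) (hq : ∀ i, 0 ≤ q i) :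
    ∃ μ : Finset X → Finset X → Finset X → ℝ, SubProb μ ∧
      ((d : ℝ) ^ (4 * d * P) * (1 / 2) ^ P * ((2 * d * 2 ^ x : ℝ) / k) ^ (k - 8 * d * P) /
        ((k : ℝ) ^ (4 * d * P) * 2 ^ (2 * d * (2 * x + 7)))) * ∑ i, q i ≤
        ∑ i, q i * score k (A i) (B i) μ := by
  classical
  choose c hcC hBc using hB
  obtain ⟨D, hD1, hD2⟩ := chain d (2 * x + 7) x (4 * d) hd (by omega) (by omega) (by omega)
    A hA3 hA2 P C hC hcard c q hq (fun i _ => hcC i)
  have hk0 : (0 : ℝ) < k := by exact_mod_cast hk1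
  obtain ⟨w, hw⟩ : ∃ w : ℝ, w = 1 / ((k : ℝ) ^ (4 * d * P) * 2 ^ (2 * d * (2 * x + 7))) :=
    ⟨_, rfl⟩
  have hden : (0 : ℝ) < (k : ℝ) ^ (4 * d * P) * 2 ^ (2 * d * (2 * x + 7)) := by positivity
  have hw0 : 0 ≤ w := by
    rw [hw]
    positivity
  refine ⟨fun S V h => if S.card = k then
      w * ((Finset.univ.filter (fun y : Fin (4 * d * P) → X =>
        Finset.univ.image y ⊆ S ∧ h ∈ D y)).card : ℝ) else 0, ?_, ?_⟩
  · refine subProb_of k (2 ^ (2 * d * (2 * x + 7))) w hw0
      (fun y : Fin (4 * d * P) → X => Finset.univ.image y) (fun y _ => D y)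
      (fun y _ => hD1 y) (fun S hS => ?_)
    rw [ZoneApre_card_words, hS, hw]
    push_cast
    rw [one_div, inv_mul_cancel₀ hden.ne']
  · obtain ⟨R, hR⟩ : ∃ R : ℝ, R = ((2 * d * 2 ^ x : ℝ) / k) ^ (k - 8 * d * P) := ⟨_, rfl⟩
    have hR0 : 0 ≤ R := by
      rw [hR]
      positivity
    have hsc : ∀ i, w * ((Finset.univ.filter (fun y : Fin (4 * d * P) → X =>
        (∀ s, y s ∈ A i) ∧ ∃ h ∈ D y, ((A i) ∩ (h ∆ c i)).card ≤ 4 * d * P)).card : ℝ) * R ≤
        score k (A i) (B i) (fun S V h => if S.card = k then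
          w * ((Finset.univ.filter (fun y : Fin (4 * d * P) → X =>
            Finset.univ.image y ⊆ S ∧ h ∈ D y)).card : ℝ) else 0) := by
      intro i
      have hex : ∀ y : Fin (4 * d * P) → X, ∃ h : Finset X,
          ((∀ s, y s ∈ A i) ∧ ∃ h ∈ D y, ((A i) ∩ (h ∆ c i)).card ≤ 4 * d * P) →
            h ∈ D y ∧ ((A i) ∩ (h ∆ c i)).card ≤ 4 * d * P := by
        intro y
        by_cases hy : (∀ s, y s ∈ A i) ∧ ∃ h ∈ D y, ((A i) ∩ (h ∆ c i)).card ≤ 4 * d * P
        · obtain ⟨-, h, h1, h2⟩ := hy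
          exact ⟨h, fun _ => ⟨h1, h2⟩⟩
        · exact ⟨∅, fun h => absurd h hy⟩
      choose f hf using hex
      have h1 := score_ge (Y := Fin (4 * d * P) → X) k (8 * d * P) hk (A i) (B i) (hkA i)
        (fun S V h => if S.card = k then
          w * ((Finset.univ.filter (fun y : Fin (4 * d * P) → X =>
            Finset.univ.image y ⊆ S ∧ h ∈ D y)).card : ℝ) else 0) w hw0
        (fun y => Finset.univ.image y) (fun y _ => D y)
        (fun S V h hS => by rw [if_pos hS])
        (Finset.univ.filter (fun y : Fin (4 * d * P) → X =>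
          (∀ s, y s ∈ A i) ∧ ∃ h ∈ D y, ((A i) ∩ (h ∆ c i)).card ≤ 4 * d * P))
        (fun y => Finset.univ.image y ∪ (A i ∩ (f y ∆ c i)))
        (fun y hy => by
          rw [Finset.mem_filter] at hy
          refine Finset.union_subset ?_ Finset.inter_subset_left
          rw [Finset.image_subset_iff]
          exact fun s _ => hy.2.1 s)
        (fun y hy => by
          rw [Finset.mem_filter] at hy
          refine (Finset.card_union_le _ _).trans ?_
          have e1 : (Finset.univ.image y).card ≤ 4 * d * P := by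
            refine Finset.card_image_le.trans ?_
            rw [Finset.card_univ, Fintype.card_fin]
          have e2 := (hf y hy.2).2
          have e3 : 8 * d * P = 4 * d * P + 4 * d * P := by ring
          rw [e3]
          exact Nat.add_le_add e1 e2)
        (fun y hy S hS1 hS2 => by
          rw [Finset.mem_filter] at hy
          refine ⟨Finset.subset_union_left.trans hS1, f y, (hf y hy.2).1, ?_⟩
          rw [hBc i, ZoneApre_inter]
          exact Finset.subset_union_right.trans hS1)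
      refine le_trans ?_ h1
      refine mul_le_mul_of_nonneg_left ?_ (mul_nonneg hw0 (Nat.cast_nonneg _))
      rw [hR]
      refine pow_le_pow_left₀ (by positivity) ?_ _
      refine div_le_div_of_nonneg_right ?_ hk0.le
      exact_mod_cast hA1 i
    refine le_trans ?_ (Finset.sum_le_sum fun i _ =>
      mul_le_mul_of_nonneg_left (hsc i) (hq i))
    have e1 : ((d : ℝ) ^ (4 * d * P) * (1 / 2) ^ P * ((2 * d * 2 ^ x : ℝ) / k) ^ (k - 8 * d * P) /
        ((k : ℝ) ^ (4 * d * P) * 2 ^ (2 * d * (2 * x + 7)))) * ∑ i, q i =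
        (w * R) * ((((4 * d : ℕ) : ℝ) / 4) ^ (4 * d * P) * (1 / 2) ^ P * ∑ i, q i) := by
      have e2 : (((4 * d : ℕ) : ℝ) / 4) = d := by
        push_cast
        ring
      rw [e2, ← hR, hw]
      ring
    rw [e1]
    refine (mul_le_mul_of_nonneg_left hD2 (mul_nonneg hw0 hR0)).trans (le_of_eq ?_)
    rw [Finset.mul_sum]
    refine Finset.sum_congr rfl fun i _ => ?_
    ring

/-- Large samples, averaged over a distribution q on samples. -/
theorem zoneA_pre (d x P k : ℕ) (hd : 1 ≤ d) (C : Finset (Finset X)) (hC : C.vcDim ≤ d)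
    (hcard : C.card ≤ 2 ^ (d * 2 ^ P)) (hk : 8 * d * P ≤ k) (hk1 : 1 ≤ k)
    {ι : Type} [Fintype ι] (A B : ι → Finset X) (hB : ∀ i, ∃ c ∈ C, B i = A i ∩ c)
    (hA1 : ∀ i, 2 * d * 2 ^ x ≤ (A i).card) (hA2 : ∀ i, (A i).card ≤ 4 * d * 2 ^ x)
    (hA3 : ∀ i, 4 * d ≤ (A i).card) (hkA : ∀ i, k ≤ (A i).card)
    (q : ι → ℝ) (hq : ∀ i, 0 ≤ q i) :
    ∃ μ : Finset X → Finset X → Finset X → ℝ, SubProb μ ∧
      ((d : ℝ) ^ (4 * d * P) * (1 / 2) ^ P * ((2 * d * 2 ^ x : ℝ) / k) ^ (k - 8 * d * P) /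
        ((k : ℝ) ^ (4 * d * P) * 2 ^ (2 * d * (2 * x + 7)))) * ∑ i, q i ≤
        ∑ i, q i * score k (A i) (B i) μ := by
  refine zoneA_preT d x P k hd C hC (hcard.trans (Nat.pow_le_pow_right (by norm_num) ?_)) hk hk1
    A B hB hA1 hA2 hA3 hkA q hq
  refine Nat.mul_le_mul_right _ ?_
  calc d = d * 1 := (Nat.mul_one d).symm
    _ ≤ d * (2 * (2 * x + 7)) := Nat.mul_le_mul_left d (by omega)
    _ = 2 * d * (2 * x + 7) := by ring

end Pool.Agent.MPaa62e0
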